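import Pool.Agent.MP_57341d_ag.H42.Eig

/-! Families of abelian varieties of CM type, monomial relations, eigenvector data. -/

open Matrix Module GPC73 GPC42 Complex NumberField ComplexEmbedding

namespace GPC72

variable {E : Type} [Field E] [NumberField E]

/-- A CM type. -/
def Ty (Φ : Set (E →+* ℂ)) : Prop := ∀ φ, conjugate φ ∈ Φ ↔ φ ∉ Φ

/-- The type changed at the place of `a`. -/
def fl (a : E →+* ℂ) (Φ : Set (E →+* ℂ)) : Set (E →+* ℂ) := symmDiff Φ {a, conjugate a}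

variable (E) in
/-- Every CM type occurs. -/
def Fam (g : ℕ) : Prop := ∀ Φ : Set (E →+* ℂ), Ty Φ →
  ∃ (N : ℕ) (A : AbVar g N) (b : Basis (Fin (2 * g)) ℚ E), IsCM A b Φ

/-- `p` is a system of periods of an abelian variety of type `Φ`. -/
def PT (g : ℕ) (Φ : Set (E →+* ℂ)) (p : (E →+* ℂ) → ℂ) : Prop :=
  ∃ (N : ℕ) (A : AbVar g N) (b : Basis (Fin (2 * g)) ℚ E), IsCM A b Φ ∧ Per A b p

variable (E) in
/-- The monomial relation at the definite places. -/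
def Rel (g : ℕ) : Prop := ∀ (Φ : Set (E →+* ℂ)) (a b ψ : E →+* ℂ) (p₁ p₂ p₃ p₄ : (E →+* ℂ) → ℂ),
  a ∈ Φ → b ∈ Φ → ψ ∈ Φ → a ≠ b → ψ ≠ a → ψ ≠ b → PT g Φ p₁ → PT g (fl b Φ) p₂ →
    PT g (fl a Φ) p₃ → PT g (fl a (fl b Φ)) p₄ → IsAlgebraic ℚ (p₁ ψ * p₄ ψ / (p₂ ψ * p₃ ψ))

open Classical in
/-- A spanning family of eigenvectors of `J` with coordinates in the conjugates of `E`. -/
structure Eg {n : Type} [Fintype n] (J : Matrix n n ℝ) (E : Type) [Field E] [Algebra ℚ E]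
    (ι : Type) where
  w : ι → n → E
  Φ : ι → Set (E →+* ℂ)
  ne : ∀ i, w i ≠ 0
  ty : ∀ i, Ty (Φ i)
  eig : ∀ i φ, J.map ofReal *ᵥ (fun j => φ (w i j)) =
    (if φ ∈ Φ i then I else -I) • fun j => φ (w i j)
  top : Submodule.span ℂ (Set.range fun q : ι × (E →+* ℂ) => fun j => q.2 (w q.1 j)) = ⊤
  faith : ∀ γ : E ≃ₐ[ℚ] E, (∀ i φ, φ.comp (γ : E →+* E) ∈ Φ i ↔ φ ∈ Φ i) → γ = 1

end GPC72
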