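import Pool.Agent.MP_57341d_ag.H72.Mon

attribute [-instance] ContinuousMonoidHom.instCoeOutOfMonoidHomClassOfContinuousMapClass
  Module.FaithfullyFlat.of_isIntegral_of_isDomain SetLike.GradeZero.instSemiring
  LeftPreLieAlgebra.toModule RightPreLieAlgebra.toModule LieAlgebra.toModule
  SubringClass.toSeminormedCommRing NonUnitalAlgSemiHomClass.toDistribMulActionSemiHomClass
  AddGroupWithOne.toAddGroup FunLike.toDecidableEq SetLike.instIsScalarTowerSubtypeMem
  IntermediateField.isScalarTower IsAlgClosure.isAlgebraic SetLike.GradeZero.instRing instCoeTCOfCoe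
  NormedAlgebra.complexToReal SubalgebraClass.toAlgebra SetLike.GradeZero.instCommRing
  IsPurelyInseparable.normal SetLike.GradeZero.instCommSemiring IsScalarTower.left
  SubringClass.toSeminormedRing SubmoduleClass.module IntermediateField.isAlgebraic_tower_bot
  IsGalois.to_normal RingConeClass.toSubsemiringClass IntermediateField.isSeparable_tower_bot
  SMulZeroClass.toSMul Fintype.decidableForallFintype instZeroLEOneClass
  AlgebraicClosure.instIsScalarTower IsometryClass.instCoeOutIsometryEquiv IsAbelianGalois.toIsGalois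
  HomeomorphClass.instCoeOutHomeomorph
  ContinuousAddMonoidHom.instCoeOutOfAddMonoidHomClassOfContinuousMapClass
  NonUnitalNormedRing.toNonUnitalSeminormedRing CoheytingAlgebra.toOrderTop LinearOrder.toDecidableEq
  IsStarProjection.instTrivialStarOfStarOrderedRing IdemSemiring.toSemiring
  decidableEq_of_subsingleton IsSepClosure.isSeparable LieRinehartAlgebra.toIsScalarTower
  instCoeTOfCoeDep SemigroupAction.toSMul CommMonTypeEquivalenceCommMon.commMonCommMonoid
  FinEnum.decEq IsScalarTower.of_algHom LinearOrderedAddCommMonoidWithTop.toOrderTop instCoeHTCT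
  DenselyNormedField.toNormedField Algebra.WeaklyEtale.flat instCoeTCOfCoe_1 IsAlgClosure.separable
  instCoeHTCTOfCoeTailOfCoeHTC Algebra.IsQuadraticExtension.isGalois

/-! Characters that factor through a subfield, and the exceptional subfield. -/

open Module NumberField ComplexEmbedding InfinitePlace

namespace GPC72

variable {E : Type} [Field E] [NumberField E]

/-- Odd functions on the embeddings that factor through `k`, and one more coordinate. -/
def X (k : IntermediateField ℚ E) : Submodule ℚ (Option (E →+* ℂ) → ℚ) where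
  carrier := {f | (∀ φ, f (some (conjugate φ)) = -f (some φ)) ∧
    ∀ φ ψ : E →+* ℂ, (∀ x ∈ k, φ x = ψ x) → f (some φ) = f (some ψ)}
  add_mem' := fun h h' => ⟨fun φ => by simp only [Pi.add_apply, h.1 φ, h'.1 φ, neg_add],
    fun φ ψ e => by simp only [Pi.add_apply, h.2 φ ψ e, h'.2 φ ψ e]⟩
  zero_mem' := ⟨fun _ => by simp, fun _ _ _ => rfl⟩
  smul_mem' := fun c f h => ⟨fun φ => by simp only [Pi.smul_apply, h.1 φ, smul_neg],
    fun φ ψ e => by simp only [Pi.smul_apply, h.2 φ ψ e]⟩

theorem X_mono {k k' : IntermediateField ℚ E} (h : k ≤ k') : X k ≤ X k' :=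
  fun _ hf => ⟨hf.1, fun φ ψ e => hf.2 φ ψ fun x hx => e x (h hx)⟩

theorem X_inf (k k' : IntermediateField ℚ E) : X (k ⊓ k') = X k ⊓ X k' := by
  refine le_antisymm (le_inf (X_mono inf_le_left) (X_mono inf_le_right)) fun f hf => ⟨hf.1.1, ?_⟩
  intro φ ψ e
  let L := IntermediateField.normalClosure ℚ E (AlgebraicClosure E)
  have : IsAlgClosure ℚ (AlgebraicClosure E) := ⟨inferInstance, .trans ℚ E _⟩
  have : Normal ℚ (AlgebraicClosure E) := IsAlgClosure.normal _ _
  have : Normal ℚ L := normalClosure.normal ℚ E _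
  have : IsGalois ℚ L := IsGalois.mk
  let i : E →ₐ[ℚ] L := IsScalarTower.toAlgHom ℚ E L
  let F : (L →+* ℂ) → ℚ := fun χ => f (some (χ.comp (algebraMap E L)))
  let H : Subgroup (L ≃ₐ[ℚ] L) :=
    { carrier := {σ | ∀ χ : L →+* ℂ, F (χ.comp (σ : L →+* L)) = F χ}
      one_mem' := fun _ => rfl
      mul_mem' := fun {σ τ} hσ hτ χ => (hτ (χ.comp (σ : L →+* L))).trans (hσ χ)
      inv_mem' := fun {σ} hσ χ => by
        rw [← hσ]
        congr 1
        ext x
        simp only [RingHom.coe_comp, RingHom.coe_coe, AlgEquiv.coe_inv, Function.comp_apply, AlgEquiv.symm_apply_apply] }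
  have key : ∀ l : IntermediateField ℚ E, f ∈ X l → IntermediateField.fixedField H ≤ l.map i := by
    intro l hl
    rw [← IsGalois.fixedField_fixingSubgroup (l.map i)]
    refine IntermediateField.fixedField_le fun σ hσ χ => hl.2 _ _ fun x hx => ?_
    exact congrArg χ ((IntermediateField.mem_fixingSubgroup_iff _ _).1 hσ _ ⟨x, hx, rfl⟩)
  have hK := IntermediateField.fixingSubgroup_le (le_inf (key k hf.1) (key k' hf.2))
  rw [IntermediateField.fixingSubgroup_fixedField] at hK
  have : Algebra.IsAlgebraic E L := Algebra.IsAlgebraic.tower_top (K := ℚ) E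
  obtain ⟨σ, hσ⟩ := exists_comp_symm_eq_of_comp_eq (k := (k.map i ⊓ k'.map i :
      IntermediateField ℚ L)) (lift L φ) (lift L ψ) (by
    ext ⟨_, ⟨a, ha, rfl⟩, a', ha', h⟩
    have : a' = a := i.injective h
    exact (lift_algebraMap_apply L φ a).trans
      ((e a ⟨ha, this ▸ ha'⟩).trans (lift_algebraMap_apply L ψ a).symm))
  have h1 : σ.symm.restrictScalars ℚ ∈ H := hK ((IntermediateField.mem_fixingSubgroup_iff _ _).2
    fun x hx => σ.symm.commutes ⟨x, hx⟩)
  have h2 := h1 (lift L φ)
  have h3 : (lift L φ).comp (σ.symm.restrictScalars ℚ : L →+* L) = lift L ψ := hσ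
  rw [h3] at h2
  simpa only [F, lift_comp_algebraMap] using h2.symm

theorem comp_iff {k : IntermediateField ℚ E} {φ ψ : E →+* ℂ} :
    φ.comp (algebraMap k E) = ψ.comp (algebraMap k E) ↔ ∀ x ∈ k, φ x = ψ x :=
  ⟨fun h x hx => RingHom.congr_fun h ⟨x, hx⟩, fun h => RingHom.ext fun x => h x x.2⟩

theorem fin_X (k : IntermediateField ℚ E) [IsTotallyComplex k] :
    ∃ d, 2 * d = finrank ℚ k ∧ finrank ℚ (X k) = d + 1 := by
  classical
  let s : (k →+* ℂ) → ℚ := fun σ => if embedding (mk σ) = σ then 1 else -1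
  have hne : ∀ σ : k →+* ℂ, conjugate σ ≠ σ := fun σ h =>
    IsTotallyComplex.complexEmbedding_not_isReal σ (isReal_iff.2 h)
  have hs : ∀ σ, s (conjugate σ) = -s σ := fun σ => by
    simp only [s, mk_conjugate_eq]
    rcases embedding_mk_eq σ with h | h <;> rw [h] <;> simp [hne σ, (hne σ).symm]
  let T : (Option (InfinitePlace k) → ℚ) →ₗ[ℚ] Option (E →+* ℂ) → ℚ := LinearMap.pi fun o =>
    o.elim (LinearMap.proj none) fun φ => s (φ.comp (algebraMap k E)) •
      LinearMap.proj (some (mk (φ.comp (algebraMap k E))))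
  have T0 : ∀ a, T a none = a none := fun _ => rfl
  have T1 : ∀ a φ, T a (some φ) = s (φ.comp (algebraMap k E)) *
    a (some (mk (φ.comp (algebraMap k E)))) := fun _ _ => rfl
  have hi : Function.Injective T := by
    refine (injective_iff_map_eq_zero T).2 fun a ha => funext fun o => ?_
    cases o with
    | none => exact (T0 a).symm.trans (congrFun ha none)
    | some w =>
      have := (T1 a (lift E w.embedding)).symm.trans (congrFun ha _)
      simpa only [Pi.zero_apply, s, lift_comp_algebraMap, mk_embedding, ↓ reduceIte, one_mul] using this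
  have hr : LinearMap.range T = X k := by
    refine le_antisymm ?_ fun f hf => ?_
    · rintro _ ⟨a, rfl⟩
      refine ⟨fun φ => ?_, fun φ ψ e => by rw [T1, T1, comp_iff.2 e]⟩
      rw [T1, T1, conjugate_comp, hs, mk_conjugate_eq, neg_mul]
    · refine ⟨fun o => o.elim (f none) fun w => f (some (lift E w.embedding)), funext fun o => ?_⟩
      cases o with
      | none => rfl
      | some φ =>
        rw [T1]
        rcases embedding_mk_eq (φ.comp (algebraMap k E)) with h | h
        · have := hf.2 (lift E _) φ (comp_iff.1 ((lift_comp_algebraMap E _).trans h))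
          simp only [h, s, ↓ reduceIte, Option.elim_some, one_mul] at this ⊢
          exact this
        · have := hf.2 (lift E _) (conjugate φ) (comp_iff.1 ((lift_comp_algebraMap E _).trans
            (h.trans (conjugate_comp φ _).symm)))
          rw [hf.1] at this
          simp only [s, Option.elim_some, this]
          rw [if_neg (h ▸ hne _)]
          ring
  refine ⟨nrComplexPlaces k, (IsTotallyComplex.finrank k).symm, ?_⟩
  rw [← hr, LinearMap.finrank_range_of_inj hi, finrank_fintype_fun_eq_card, Fintype.card_option,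
    card_eq_nrRealPlaces_add_nrComplexPlaces, IsTotallyComplex.nrRealPlaces_eq_zero, zero_add]

open Classical in
/-- The norm of `r` at the embedding `σ` of `k`. -/
noncomputable def nm (r : (E →+* ℂ) → ℂ) {k : IntermediateField ℚ E} (σ : k →+* ℂ) : ℂ :=
  ∏ φ with φ.comp (algebraMap k E) = σ, r φ

variable {r : (E →+* ℂ) → ℂ} {c : ℂ}

theorem nm_ne (hr : ∀ φ, r φ ≠ 0) {k : IntermediateField ℚ E} (σ : k →+* ℂ) : nm r σ ≠ 0 :=
  Finset.prod_ne_zero_iff.2 fun φ _ => hr φ

theorem nm_alg (hc : ∀ φ, IsAlgebraic ℚ (r φ * r (conjugate φ))) {k : IntermediateField ℚ E}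
    (σ : k →+* ℂ) (K : IntermediateField ℚ ℂ) : IsAlgebraic K (nm r σ * nm r (conjugate σ)) := by
  classical
  have : nm r (conjugate σ) = ∏ φ with φ.comp (algebraMap k E) = σ, r (conjugate φ) := by
    refine Finset.prod_nbij' conjugate conjugate ?_ ?_ (fun _ _ => star_star _)
      (fun _ _ => star_star _) fun φ _ => congrArg r (star_star φ).symm
    · intro φ h
      simp only [Finset.mem_filter, Finset.mem_univ, true_and] at h ⊢
      rw [conjugate_comp, h]
      exact star_star σ
    · intro φ h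
      simp only [Finset.mem_filter, Finset.mem_univ, true_and] at h ⊢
      rw [conjugate_comp, h]
  rw [this, nm, ← Finset.prod_mul_distrib]
  exact mem_algebraicClosure_iff.1 (prod_mem fun φ _ =>
    mem_algebraicClosure_iff.2 ((hc φ).tower_top K))

theorem mon_eq {k : IntermediateField ℚ E} (a : ℤ) (g : (k →+* ℂ) → ℤ) :
    mon (fun o : Option (E →+* ℂ) => o.elim c r)
      (fun o => o.elim a fun φ => g (φ.comp (algebraMap k E))) = c ^ a * ∏ σ, nm r σ ^ g σ := by
  classical
  rw [mon, Fintype.prod_option, ← Finset.prod_fiberwise Finset.univ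
    fun φ : E →+* ℂ => φ.comp (algebraMap k E)]
  congr 1
  refine Finset.prod_congr rfl fun σ _ => ?_
  rw [nm, ← Finset.prod_zpow]
  exact Finset.prod_congr rfl fun φ h => by simp only [Option.elim_some, (Finset.mem_filter.1 h).2]

theorem c_nm (hr : ∀ φ, r φ ≠ 0) (hc : ∀ φ, IsAlgebraic ℚ (r φ * r (conjugate φ))) (h0 : c ≠ 0)
    {k : IntermediateField ℚ E} {K : IntermediateField ℚ ℂ}
    (h : ∀ σ : k →+* ℂ, IsAlgebraic K (c * nm r σ)) (σ : k →+* ℂ) :
    IsAlgebraic K c ∧ IsAlgebraic K (nm r σ) := by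
  have h1 : IsAlgebraic K c := by
    refine IsAlgebraic.of_pow two_pos ?_
    have := ((h σ).mul (h (conjugate σ))).mul (nm_alg hc σ K).inv
    have a := nm_ne hr σ
    have b := nm_ne hr (conjugate σ)
    have e : c * nm r σ * (c * nm r (conjugate σ)) * (nm r σ * nm r (conjugate σ))⁻¹ = c ^ 2 := by
      field_simp
    rwa [e] at this
  refine ⟨h1, ?_⟩
  have := h1.inv.mul (h σ)
  rwa [inv_mul_cancel_left₀ h0] at this

omit [NumberField E] in
theorem elim_ne (hr : ∀ φ, r φ ≠ 0) (h0 : c ≠ 0) (o : Option (E →+* ℂ)) : o.elim c r ≠ 0 := by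
  cases o
  exacts [h0, hr _]

theorem S_sub (hr : ∀ φ, r φ ≠ 0) (hc : ∀ φ, IsAlgebraic ℚ (r φ * r (conjugate φ)))
    (k : IntermediateField ℚ E) : (Set.range fun σ : k →+* ℂ => c * nm r σ) ⊆
      M.closure (per (fun o : Option (E →+* ℂ) => o.elim c r) (X k)) := by
  classical
  rintro _ ⟨σ, rfl⟩
  let g : (k →+* ℂ) → ℤ := Pi.single σ 1 - Pi.single (conjugate σ) 1
  have hg : ∀ τ, g (conjugate τ) = -g τ := fun τ => by
    have e : conjugate τ = σ ↔ τ = conjugate σ := star_eq_iff_star_eq.trans eq_comm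
    have e' : conjugate τ = conjugate σ ↔ τ = σ := star_inj
    simp only [g, Pi.sub_apply, Pi.single_apply, e, e', neg_sub]
  have h1 := mem_cl.1 (sub_cl (per (fun o : Option (E →+* ℂ) => o.elim c r) (X k))
    ⟨fun o => o.elim 2 fun φ => g (φ.comp (algebraMap k E)), ⟨fun φ => by
      simp only [cst, Option.elim_some, conjugate_comp, hg, Int.cast_neg], fun φ ψ e => by simp only [cst, Option.elim_some, comp_iff.2 e]⟩, rfl⟩)
  rw [mon_eq] at h1
  refine mem_cl.2 (IsAlgebraic.of_pow two_pos ?_)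
  have e : ∏ τ, nm r τ ^ g τ = nm r σ / nm r (conjugate σ) := by
    simp only [g, Pi.sub_apply, zpow_sub₀ (nm_ne hr _), Finset.prod_div_distrib, Pi.single_apply]
    simp only [pow_ite, zpow_ofNat, pow_one, pow_zero, Finset.prod_ite_eq', Finset.mem_univ, ↓ reduceIte]
  have := h1.mul (nm_alg hc σ _)
  have b := nm_ne hr (conjugate σ)
  have e' : c ^ (2 : ℤ) * (nm r σ / nm r (conjugate σ)) * (nm r σ * nm r (conjugate σ)) =
      (c * nm r σ) ^ 2 := by
    rw [zpow_ofNat]
    field_simp
  rwa [e, e'] at this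

theorem trdeg_S (hr : ∀ φ, r φ ≠ 0) (hc : ∀ φ, IsAlgebraic ℚ (r φ * r (conjugate φ))) (h0 : c ≠ 0)
    (k : IntermediateField ℚ E) :
    Algebra.trdeg ℚ (IntermediateField.adjoin ℚ (Set.range fun σ : k →+* ℂ => c * nm r σ)) =
      rk (fun o : Option (E →+* ℂ) => o.elim c r) (X k) := by
  rw [trdeg_eq, rk_eq (elim_ne hr h0)]
  refine le_antisymm (rk_le (S_sub hr hc k)) (rk_le ?_)
  rintro _ ⟨u, hu, rfl⟩
  have e : u = fun o => o.elim (u none) fun φ =>
      (fun σ : k →+* ℂ => u (some (lift E σ))) (φ.comp (algebraMap k E)) := by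
    funext o
    cases o with
    | none => rfl
    | some φ =>
      have := hu.2 φ (lift E _) (comp_iff.1 (lift_comp_algebraMap E _).symm)
      simpa only [Option.elim_some, cst, Int.cast_inj] using this
  have h := c_nm hr hc h0 fun σ : k →+* ℂ =>
    mem_cl.1 (sub_cl (Set.range fun σ : k →+* ℂ => c * nm r σ) ⟨σ, rfl⟩)
  obtain ⟨σ⟩ : Nonempty (k →+* ℂ) := inferInstance
  rw [e, mon_eq (u none) fun σ : k →+* ℂ => u (some (lift E σ)), mem_cl]
  exact (alg_zpow (h σ).1 _).mul (mem_algebraicClosure_iff.1 (prod_mem fun τ _ =>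
    mem_algebraicClosure_iff.2 (alg_zpow (h τ).2 _)))

theorem all_but_one [IsTotallyComplex E] (hr : ∀ φ, r φ ≠ 0)
    (hc : ∀ φ, IsAlgebraic ℚ (r φ * r (conjugate φ))) (ht : Transcendental ℚ c) {g : ℕ}
    (hg : finrank ℚ E = 2 * g) (hK : ∀ K : IntermediateField ℚ ℂ, (∀ φ, IsAlgebraic K (r φ)) →
      (g : Cardinal) ≤ Algebra.trdeg ℚ K) :
    ∃ k₀ : IntermediateField ℚ E, ¬ IsTotallyReal k₀ ∧ ∀ k : IntermediateField ℚ E,
      IsTotallyComplex k → ¬ k₀ ≤ k → ∀ d : ℕ, 2 * d = finrank ℚ k → Algebra.trdeg ℚ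
        (IntermediateField.adjoin ℚ (Set.range fun σ : k →+* ℂ => c * nm r σ)) = (d + 1 : ℕ) := by
  classical
  have h0 : c ≠ 0 := fun h => ht (h ▸ isAlgebraic_zero)
  have hy := elim_ne hr h0
  have hT : IsTotallyComplex (⊤ : IntermediateField ℚ E) := by
    let := (IntermediateField.topEquiv (F := ℚ) (E := E)).symm.toRingEquiv.toRingHom.toAlgebra
    exact isTotallyComplex_of_algebra E _
  have hZ : finrank ℚ (X (⊤ : IntermediateField ℚ E)) ≤
      rk (fun o : Option (E →+* ℂ) => o.elim c r) (X ⊤) + 1 := by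
    obtain ⟨d, h1, h2⟩ := fin_X (⊤ : IntermediateField ℚ E)
    rw [IntermediateField.finrank_top', hg] at h1
    have h3 := hK (IntermediateField.adjoin ℚ (Set.range
      fun σ : (⊤ : IntermediateField ℚ E) →+* ℂ => c * nm r σ)) fun φ => by
      have := (c_nm hr hc h0 (fun σ : (⊤ : IntermediateField ℚ E) →+* ℂ => mem_cl.1 (sub_cl
        (Set.range fun σ : (⊤ : IntermediateField ℚ E) →+* ℂ => c * nm r σ) ⟨σ, rfl⟩))
        (φ.comp (algebraMap _ E))).2
      have e : nm r (φ.comp (algebraMap (⊤ : IntermediateField ℚ E) E)) = r φ :=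
        Finset.prod_eq_single_of_mem φ (by simp only [Finset.mem_filter, Finset.mem_univ, and_self]) fun ψ h h' => absurd (RingHom.ext fun x =>
          comp_iff.1 (Finset.mem_filter.1 h).2 x IntermediateField.mem_top) h'
      rwa [e] at this
    rw [trdeg_S hr hc h0] at h3
    have h4 := Nat.cast_le.1 h3
    omega
  have main : ∀ k₀ : IntermediateField ℚ E, (∀ k, rk (fun o : Option (E →+* ℂ) => o.elim c r)
      (X k) < finrank ℚ (X k) → k₀ ≤ k) → ∀ k : IntermediateField ℚ E,
      IsTotallyComplex k → ¬ k₀ ≤ k → ∀ d : ℕ, 2 * d = finrank ℚ k → Algebra.trdeg ℚ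
        (IntermediateField.adjoin ℚ (Set.range fun σ : k →+* ℂ => c * nm r σ)) = (d + 1 : ℕ) := by
    intro k₀ h k _ hk d hd
    obtain ⟨d', h1, h2⟩ := fin_X k
    have h3 := rk_fin hy (X k)
    have h4 := mt (h k) hk
    rw [trdeg_S hr hc h0]
    congr 1
    omega
  by_cases hb : ∃ k : IntermediateField ℚ E,
      rk (fun o : Option (E →+* ℂ) => o.elim c r) (X k) < finrank ℚ (X k)
  · obtain ⟨k₀, b₀, hm⟩ := (measure fun k : IntermediateField ℚ E => finrank ℚ k).wf.has_min _ hb
    refine ⟨k₀, fun hR => ?_, main k₀ fun k b => ?_⟩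
    · have h1 : finrank ℚ (X k₀) ≤ 1 := by
        refine (LinearMap.finrank_le_finrank_of_injective (f := (LinearMap.proj none).comp
          (X k₀).subtype) ((injective_iff_map_eq_zero _).2 fun f hf => ?_)).trans (by simp)
        ext o
        cases o with
        | none => exact hf
        | some φ =>
          have a := f.2.1 φ
          have b := f.2.2 (conjugate φ) φ (comp_iff.1 ((conjugate_comp φ _).trans
            (isReal_iff.1 (IsTotallyReal.complexEmbedding_isReal _))))
          change f.1 (some φ) = 0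
          linarith only [a, b]
      have h2 : rk (fun o : Option (E →+* ℂ) => o.elim c r) (X k₀) = 0 := by
        have : rk _ _ < _ := b₀
        omega
      have h3 := trdeg_S hr hc h0 k₀
      rw [h2, Nat.cast_zero, trdeg_eq_zero_iff] at h3
      obtain ⟨σ⟩ : Nonempty (k₀ →+* ℂ) := inferInstance
      exact ht ((c_nm hr hc h0 (fun σ : k₀ →+* ℂ => mem_cl.1 (sub_cl
        (Set.range fun σ : k₀ →+* ℂ => c * nm r σ) ⟨σ, rfl⟩)) σ).1.restrictScalars ℚ)
    · have h1 := bad_inf hy hZ (X_mono le_top) (X_mono le_top) b₀ b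
      rw [← X_inf] at h1
      have h2 : finrank ℚ k₀ ≤ finrank ℚ (k₀ ⊓ k : IntermediateField ℚ E) := not_lt.1 (hm _ h1)
      exact inf_eq_left.1 (IntermediateField.eq_of_le_of_finrank_le inf_le_left h2)
  · refine ⟨⊤, fun hR => ?_, main ⊤ fun k b => absurd ⟨k, b⟩ hb⟩
    obtain ⟨σ⟩ : Nonempty ((⊤ : IntermediateField ℚ E) →+* ℂ) := inferInstance
    exact IsTotallyComplex.complexEmbedding_not_isReal σ (IsTotallyReal.complexEmbedding_isReal σ)

end GPC72
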