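import Pool.Agent.MP_57341d_ag.H42.CMDefs

/-! Periods of the twisted norm of the motive of `E`-linear maps. -/

open Module GPC73

namespace GPC72

variable {g N N₁ N₂ : ℕ} {E : Type} [Field E] [NumberField E]

/-- `p φ` is a period of the `φ`-eigenline of the de Rham cohomology. -/
def IsPer (A : AbVar g N) (b : Basis (Fin (2 * g)) ℚ E) (p : (E →+* ℂ) → ℂ) : Prop :=
  ∀ φ, p φ ≠ 0 ∧ (fun j => p φ * φ (b j)) ∈ Submodule.span Qb A.dR

open Classical in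
/-- The field generated by the numbers `2 π i ∏_{φ | σ} p₁ φ / p₂ φ`. -/
noncomputable def perNorm (A₁ : AbVar g N₁) (A₂ : AbVar g N₂) (b₁ b₂ : Basis (Fin (2 * g)) ℚ E)
    (k : IntermediateField ℚ E) : IntermediateField ℚ ℂ :=
  IntermediateField.adjoin ℚ {z | ∃ p₁ p₂, IsPer A₁ b₁ p₁ ∧ IsPer A₂ b₂ p₂ ∧ ∃ σ : k →+* ℂ,
    z = 2 * Real.pi * Complex.I * ∏ φ with φ.comp (algebraMap k E) = σ, p₁ φ / p₂ φ}

end GPC72
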