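import Pool.Agent.MP_57341d_ag.H73.MT

/-! The field of periods of the first cohomology. -/

open GPC73

namespace GPC72

/-- The field generated by all periods `∫_{ω_j} η` of differentials of the second kind. -/
noncomputable def perH {g N : ℕ} (A : AbVar g N) : IntermediateField ℚ ℂ :=
  IntermediateField.adjoin ℚ {c | ∃ η ∈ A.dR, ∃ j, c = η j}

end GPC72
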