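import Mathlib

attribute [-instance] Module.FaithfullyFlat.of_isIntegral_of_isDomain
  Module.Invertible.instFaithfulSMul AddMonoidWithOne.toNatCast
  ContinuousMonoidHom.instCoeOutOfMonoidHomClassOfContinuousMapClass SetLike.GradeZero.instCommRing
  instZeroLEOneClass littleWedderburn RKHS.instFunLike

/-! Transcendence degrees of fields generated by monomials: the defect is supermodular. -/

open Module Cardinal

namespace GPC72

/-- The matroid of algebraically independent sets of complex numbers. -/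
noncomputable def M : Matroid ℂ := AlgebraicIndependent.matroid ℚ ℂ

theorem icr : M.InvariantCardinalRank := by
  unfold M
  infer_instance

theorem mem_cl {S : Set ℂ} {z : ℂ} :
    z ∈ M.closure S ↔ IsAlgebraic (IntermediateField.adjoin ℚ S) z := by
  rw [M, AlgebraicIndependent.matroid_closure_eq, IntermediateField.isAlgebraic_adjoin_iff]
  exact Iff.rfl

theorem sub_cl (S : Set ℂ) : S ⊆ M.closure S := M.subset_closure S (Set.subset_univ S)

theorem rk_le {S T : Set ℂ} (h : S ⊆ M.closure T) : M.cRk S ≤ M.cRk T := by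
  have := icr
  rw [← M.cRk_closure T]
  exact M.cRk_mono h

theorem trdeg_eq (S : Set ℂ) : Algebra.trdeg ℚ (IntermediateField.adjoin ℚ S) = M.cRk S := by
  have := icr
  refine le_antisymm ?_ ?_
  · obtain ⟨s, hs⟩ := exists_isTranscendenceBasis ℚ (IntermediateField.adjoin ℚ S)
    rw [← hs.cardinalMk_eq_trdeg]
    have hi : AlgebraicIndependent ℚ (fun i : s => ((i : IntermediateField.adjoin ℚ S) : ℂ)) :=
      hs.1.map' (f := (IntermediateField.adjoin ℚ S).val) Subtype.val_injective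
    have hI : M.Indep (Set.range fun i : s => ((i : IntermediateField.adjoin ℚ S) : ℂ)) :=
      AlgebraicIndependent.matroid_indep_iff.mpr hi.to_subtype_range
    have hsub : (Set.range fun i : s => ((i : IntermediateField.adjoin ℚ S) : ℂ)) ⊆
        M.closure S := by
      rintro _ ⟨i, rfl⟩
      exact mem_cl.2 (isAlgebraic_algebraMap i.1)
    have h1 := hI.cardinalMk_le_cRk_of_subset hsub
    rwa [Matroid.cRk_closure, Cardinal.mk_range_eq _ hi.injective] at h1
  · obtain ⟨B, hB⟩ := M.exists_isBasis S (Set.subset_univ S)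
    rw [← hB.cardinalMk_eq_cRk]
    have hi : AlgebraicIndependent ℚ (fun i : B => (i : ℂ)) :=
      AlgebraicIndependent.matroid_indep_iff.mp hB.indep
    have hj : AlgebraicIndependent ℚ (fun i : B => (⟨i, IntermediateField.subset_adjoin ℚ S
        (hB.subset i.2)⟩ : IntermediateField.adjoin ℚ S)) :=
      AlgebraicIndependent.of_comp (IntermediateField.adjoin ℚ S).val hi
    exact hj.cardinalMk_le_trdeg

variable {ι : Type} [Fintype ι] (y : ι → ℂ)

/-- A monomial with integral exponents. -/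
noncomputable def mon (u : ι → ℤ) : ℂ := ∏ i, y i ^ u i

/-- An integral vector as a rational vector. -/
def cst (u : ι → ℤ) : ι → ℚ := fun i => u i

/-- The monomials with exponents in `Y`. -/
def per (Y : Submodule ℚ (ι → ℚ)) : Set ℂ := mon y '' (cst ⁻¹' Y)

omit [Fintype ι] in
theorem cst_smul (n : ℤ) (u : ι → ℤ) : cst (n • u) = (n : ℚ) • cst u := by
  ext i
  simp [cst]

omit [Fintype ι] in
theorem cst_add (u v : ι → ℤ) : cst (u + v) = cst u + cst v := by
  ext i
  simp [cst]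

theorem mon_smul (n : ℤ) (u : ι → ℤ) : mon y (n • u) = mon y u ^ n := by
  simp only [mon, Pi.smul_apply, smul_eq_mul, ← Finset.prod_zpow, ← zpow_mul, mul_comm]

variable {y}

theorem mon_add (hy : ∀ i, y i ≠ 0) (u v : ι → ℤ) : mon y (u + v) = mon y u * mon y v := by
  simp only [mon, Pi.add_apply, zpow_add₀ (hy _), Finset.prod_mul_distrib]

theorem alg_zpow {K : IntermediateField ℚ ℂ} {z : ℂ} (h : IsAlgebraic K z) (n : ℤ) :
    IsAlgebraic K (z ^ n) :=
  mem_algebraicClosure_iff.1 (zpow_mem (mem_algebraicClosure_iff.2 h) n)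

theorem alg_root {K : IntermediateField ℚ ℂ} {z : ℂ} {n : ℤ} (hn : n ≠ 0)
    (h : IsAlgebraic K (z ^ n)) : IsAlgebraic K z := by
  refine IsAlgebraic.of_pow (n := n.natAbs * n.natAbs) (by positivity) ?_
  have := alg_zpow h n
  rwa [← zpow_mul, ← Int.natAbs_mul_self, zpow_natCast] at this

theorem mon_mem (hy : ∀ i, y i ≠ 0) {S : Set ℂ} {U : Set (ι → ℤ)}
    (hU : ∀ u ∈ U, mon y u ∈ M.closure S) {v : ι → ℤ}
    (hv : cst v ∈ Submodule.span ℚ (cst '' U)) : mon y v ∈ M.closure S := by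
  simp only [mem_cl] at hU ⊢
  have key : ∀ x ∈ Submodule.span ℚ (cst '' U), ∃ n : ℤ, n ≠ 0 ∧ ∃ w, cst w = (n : ℚ) • x ∧
      IsAlgebraic (IntermediateField.adjoin ℚ S) (mon y w) := by
    intro x hx
    induction hx using Submodule.span_induction with
    | mem x hx =>
      obtain ⟨u, hu, rfl⟩ := hx
      exact ⟨1, one_ne_zero, u, by simp, hU u hu⟩
    | zero => exact ⟨1, one_ne_zero, 0, by ext; simp [cst], by simpa [mon] using isAlgebraic_one⟩
    | add x z _ _ hx hz =>
      obtain ⟨n, hn, w, e, a⟩ := hx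
      obtain ⟨n', hn', w', e', a'⟩ := hz
      refine ⟨n * n', mul_ne_zero hn hn', n' • w + n • w', ?_, ?_⟩
      · rw [cst_add, cst_smul, cst_smul, e, e']
        push_cast
        module
      · rw [mon_add hy, mon_smul, mon_smul]
        exact (alg_zpow a _).mul (alg_zpow a' _)
    | smul q x _ hx =>
      obtain ⟨n, hn, w, e, a⟩ := hx
      refine ⟨n * q.den, mul_ne_zero hn (by exact_mod_cast q.den_nz), q.num • w, ?_, ?_⟩
      · rw [cst_smul, e, smul_smul, smul_smul]
        congr 1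
        push_cast
        rw [mul_assoc, Rat.den_mul_eq_num, mul_comm]
      · rw [mon_smul]
        exact alg_zpow a _
  obtain ⟨n, hn, w, e, a⟩ := key _ hv
  have : w = n • v := by
    rw [← cst_smul] at e
    ext i
    exact_mod_cast (show ((w i : ℤ) : ℚ) = ((n • v) i : ℤ) from congrFun e i)
  rw [this, mon_smul] at a
  exact alg_root hn a

theorem span_int (Y : Submodule ℚ (ι → ℚ)) : Submodule.span ℚ (cst '' (cst ⁻¹' Y)) = Y := by
  refine le_antisymm (Submodule.span_le.2 (Set.image_preimage_subset _ _)) fun x hx => ?_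
  obtain ⟨n, hn⟩ := IsLocalization.exist_integer_multiples_of_finite (nonZeroDivisors ℤ) x
  choose w hw using hn
  have h0 : ((n : ℤ) : ℚ) ≠ 0 := by exact_mod_cast nonZeroDivisors.coe_ne_zero n
  have e : cst w = ((n : ℤ) : ℚ) • x := by
    ext i
    simpa [cst] using hw i
  have : x = ((n : ℤ) : ℚ)⁻¹ • cst w := by rw [e, smul_smul, inv_mul_cancel₀ h0, one_smul]
  rw [this]
  exact Submodule.smul_mem _ _ (Submodule.subset_span ⟨w, show cst w ∈ Y from
    e ▸ Y.smul_mem _ hx, rfl⟩)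

theorem per_le (hy : ∀ i, y i ≠ 0) (Y : Submodule ℚ (ι → ℚ)) :
    M.cRk (per y Y) ≤ finrank ℚ Y := by
  obtain ⟨b, hb, hs, hl⟩ := exists_linearIndependent ℚ (cst '' (cst ⁻¹' (Y : Set (ι → ℚ))))
  choose f hf using fun x : b => hb x.2
  have e : cst '' Set.range f = b := by
    ext x
    constructor
    · rintro ⟨_, ⟨z, rfl⟩, rfl⟩
      exact (hf z).2.symm ▸ z.2
    · exact fun hx => ⟨_, ⟨⟨x, hx⟩, rfl⟩, (hf ⟨x, hx⟩).2⟩
  have h1 : per y Y ⊆ M.closure (Set.range fun x => mon y (f x)) := by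
    rintro _ ⟨v, hv, rfl⟩
    refine mon_mem hy (U := Set.range f) ?_ (by rw [e, hs, span_int]; exact hv)
    rintro _ ⟨z, rfl⟩
    exact sub_cl _ ⟨z, rfl⟩
  refine (rk_le h1).trans ((M.cRk_le_cardinalMk _).trans (Cardinal.mk_range_le.trans ?_))
  rw [← rank_span_set hl, hs, span_int, finrank_eq_rank]

variable (y) in
/-- The transcendence degree of the field generated by the monomials with exponents in `Y`. -/
noncomputable def rk (Y : Submodule ℚ (ι → ℚ)) : ℕ := toNat (M.cRk (per y Y))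

theorem rk_eq (hy : ∀ i, y i ≠ 0) (Y : Submodule ℚ (ι → ℚ)) :
    (rk y Y : Cardinal) = M.cRk (per y Y) :=
  cast_toNat_of_lt_aleph0 ((per_le hy Y).trans_lt natCast_lt_aleph0)

theorem rk_fin (hy : ∀ i, y i ≠ 0) (Y : Submodule ℚ (ι → ℚ)) : rk y Y ≤ finrank ℚ Y := by
  have := per_le hy Y
  rw [← rk_eq hy] at this
  exact_mod_cast this

theorem rk_sub (hy : ∀ i, y i ≠ 0) (Y Z : Submodule ℚ (ι → ℚ)) :
    rk y (Y ⊓ Z) + rk y (Y ⊔ Z) ≤ rk y Y + rk y Z := by
  have := icr
  have h1 : per y (Y ⊓ Z) ⊆ per y Y ∩ per y Z := by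
    rintro _ ⟨v, hv, rfl⟩
    exact ⟨⟨v, hv.1, rfl⟩, v, hv.2, rfl⟩
  have h2 : per y (Y ⊔ Z) ⊆ M.closure (per y Y ∪ per y Z) := by
    rintro _ ⟨v, hv, rfl⟩
    refine mon_mem hy (U := cst ⁻¹' Y ∪ cst ⁻¹' Z) ?_ ?_
    · rintro u (hu | hu)
      · exact sub_cl _ (Or.inl ⟨u, hu, rfl⟩)
      · exact sub_cl _ (Or.inr ⟨u, hu, rfl⟩)
    · rw [Set.image_union, Submodule.span_union, span_int, span_int]
      exact hv
  have h3 := (add_le_add (M.cRk_mono h1) (rk_le h2)).trans
    (M.cRk_inter_add_cRk_union_le (per y Y) (per y Z))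
  rw [← rk_eq hy, ← rk_eq hy, ← rk_eq hy, ← rk_eq hy] at h3
  exact_mod_cast h3

theorem def_mono (hy : ∀ i, y i ≠ 0) {Y Z : Submodule ℚ (ι → ℚ)} (h : Y ≤ Z) :
    finrank ℚ Y + rk y Z ≤ finrank ℚ Z + rk y Y := by
  obtain ⟨W, hW⟩ := Y.exists_isCompl
  have e1 : Y ⊔ W ⊓ Z = Z := by rw [← sup_inf_assoc_of_le _ h, hW.sup_eq_top, top_inf_eq]
  have e2 : Y ⊓ (W ⊓ Z) = ⊥ := by rw [← inf_assoc, hW.inf_eq_bot, bot_inf_eq]
  have h1 := rk_sub hy Y (W ⊓ Z)
  have h2 := Submodule.finrank_sup_add_finrank_inf_eq Y (W ⊓ Z)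
  have h3 := rk_fin hy (W ⊓ Z)
  rw [e1] at h1 h2
  rw [e2, finrank_bot] at h2
  omega

/-- Below a space of defect at most one the defective subspaces are closed under intersection. -/
theorem bad_inf (hy : ∀ i, y i ≠ 0) {Y Y' Z : Submodule ℚ (ι → ℚ)}
    (hZ : finrank ℚ Z ≤ rk y Z + 1) (h : Y ≤ Z) (h' : Y' ≤ Z) (b : rk y Y < finrank ℚ Y)
    (b' : rk y Y' < finrank ℚ Y') : rk y (Y ⊓ Y') < finrank ℚ (Y ⊓ Y' : Submodule ℚ _) := by
  have h1 := rk_sub hy Y Y'
  have h2 := Submodule.finrank_sup_add_finrank_inf_eq Y Y'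
  have h3 := def_mono hy (sup_le h h')
  omega

end GPC72
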