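import Pool.Agent.MP_57341d_ag.H42.CM
import Pool.Agent.MP_57341d_ag.H72.Char
import Pool.Agent.MP_57341d_ag.H72.Defs
import Pool.Agent.Lib.PiTransc.Basic

/-! The period conjecture, including `2 π i`, outside one exceptional subfield. -/

open Matrix Module GPC73 GPC42 Complex NumberField ComplexEmbedding

namespace GPC72

variable {g N N₁ N₂ : ℕ} {E : Type} [Field E] [NumberField E] {A₁ : AbVar g N₁} {A₂ : AbVar g N₂}
  {b₁ b₂ : Basis (Fin (2 * g)) ℚ E} {Φ₁ Φ₂ : Set (E →+* ℂ)}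

theorem tr_c : Transcendental ℚ (2 * Real.pi * I : ℂ) := by
  intro h
  have hI : IsAlgebraic ℚ I :=
    IsAlgebraic.of_pow two_pos (by rw [I_sq]; exact isAlgebraic_one.neg)
  have h1 := (h.mul hI.inv).mul (isAlgebraic_natCast (R := ℚ) (A := ℂ) 2).inv
  have e : 2 * Real.pi * I * I⁻¹ * ((2 : ℕ) : ℂ)⁻¹ = algebraMap ℝ ℂ Real.pi := by
    simp only [coe_algebraMap, Nat.cast_ofNat]
    field_simp
  rw [e, isAlgebraic_algebraMap_iff (algebraMap ℝ ℂ).injective] at h1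
  exact Pool.Agent.Lib.PiTransc.transcendental_pi h1

theorem per_alg {A : AbVar g N} {b : Basis (Fin (2 * g)) ℚ E} {p p' : (E →+* ℂ) → ℂ}
    (h : Per A b p) (h' : IsPer A b p') (φ : E →+* ℂ) : IsAlgebraic ℚ (p' φ / p φ) := by
  obtain ⟨P, hP, hD⟩ := exists_basis A
  have hP' : Pᵀ.det ≠ 0 := by rwa [Matrix.det_transpose]
  have hv : Pᵀ⁻¹ *ᵥ vec b φ ≠ 0 := fun h0 => vec_li b |>.ne_zero φ <| by
    have := congrArg (Pᵀ *ᵥ ·) h0
    simpa only [mulVec_mulVec, mul_nonsing_inv _ (Ne.isUnit hP'), one_mulVec, mulVec_zero]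
      using this
  obtain ⟨i, hi⟩ := Function.ne_iff.1 hv
  have a := dR_coord hP' hD (h.mem φ) i
  have a' := dR_coord hP' hD (show p' φ • vec b φ ∈ _ from (h' φ).2) i
  rw [mulVec_smul, Pi.smul_apply, smul_eq_mul] at a a'
  have := a'.mul a.inv
  rwa [← div_eq_mul_inv, mul_div_mul_right _ _ hi] at this

theorem perNorm_eq {p₁ p₂ : (E →+* ℂ) → ℂ} (q₁ : Per A₁ b₁ p₁) (q₂ : Per A₂ b₂ p₂)
    (k : IntermediateField ℚ E) : Algebra.trdeg ℚ (perNorm A₁ A₂ b₁ b₂ k) =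
      Algebra.trdeg ℚ (IntermediateField.adjoin ℚ (Set.range fun σ : k →+* ℂ =>
        2 * Real.pi * I * nm (fun φ => p₁ φ / p₂ φ) σ)) := by
  classical
  rw [perNorm, trdeg_eq, trdeg_eq]
  refine le_antisymm (rk_le ?_) (M.cRk_mono ?_)
  · rintro _ ⟨p, p', h, h', σ, rfl⟩
    have h1 := mem_cl.1 (sub_cl (Set.range fun σ : k →+* ℂ =>
      2 * Real.pi * I * nm (fun φ => p₁ φ / p₂ φ) σ) ⟨σ, rfl⟩)
    have h2 : IsAlgebraic ℚ (nm (fun φ => p φ / p₁ φ / (p' φ / p₂ φ)) σ) :=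
      mem_algebraicClosure_iff.1 (prod_mem fun φ _ => div_mem (mem_algebraicClosure_iff.2
        (per_alg q₁ h φ)) (mem_algebraicClosure_iff.2 (per_alg q₂ h' φ)))
    have e : nm (fun φ => p φ / p' φ) σ = nm (fun φ => p₁ φ / p₂ φ) σ *
        nm (fun φ => p φ / p₁ φ / (p' φ / p₂ φ)) σ := by
      unfold nm
      rw [← Finset.prod_mul_distrib]
      refine Finset.prod_congr rfl fun φ _ => ?_
      have := q₁.ne φ
      have := q₂.ne φ
      have := (h' φ).1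
      field_simp
    refine mem_cl.2 ?_
    change IsAlgebraic _ (_ * nm (fun φ => p φ / p' φ) σ)
    rw [e, ← mul_assoc]
    exact h1.mul (h2.tower_top _)
  · rintro _ ⟨σ, rfl⟩
    exact ⟨p₁, p₂, fun φ => ⟨q₁.ne φ, q₁.mem φ⟩, fun φ => ⟨q₂.ne φ, q₂.mem φ⟩, σ, rfl⟩

open Classical in
theorem hull_norm (h₁ : IsCM A₁ b₁ Φ₁) (h₂ : IsCM A₂ b₂ Φ₂) (h : (Φ₁ \ Φ₂).ncard = 1)
    (k : IntermediateField ℚ E) [IsCMField k] {m : ℕ} (c : Basis (Fin m) ℚ k) :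
    ∃ δ : Matrix (Fin m) (Fin m) ℝ, (∀ σ : k →+* ℂ, δ.map ofReal *ᵥ vec c σ =
      (∑ φ with φ.comp (algebraMap k E) = σ,
        ((if φ ∈ Φ₂ then I else -I) - if φ ∈ Φ₁ then I else -I)) • vec c σ) ∧
      2 * finrank ℚ (hull δ) = m := by
  obtain ⟨φ₀, h0⟩ := Set.ncard_eq_one.1 h
  have m0 : φ₀ ∈ Φ₁ \ Φ₂ := h0 ▸ Set.mem_singleton _
  have uq : ∀ φ, φ ∈ Φ₁ → φ ∉ Φ₂ → φ = φ₀ := fun φ a₁ a₂ =>
    Set.mem_singleton_iff.1 (h0 ▸ (⟨a₁, a₂⟩ : φ ∈ Φ₁ \ Φ₂))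
  have c1 : conjugate φ₀ ∉ Φ₁ := fun a => (h₁.conj_iff φ₀).1 a m0.1
  have c2 : conjugate φ₀ ∈ Φ₂ := (h₂.conj_iff φ₀).2 m0.2
  have hs : ∀ f : (E →+* ℂ) → ℂ, ∑ φ, ((if φ ∈ Φ₂ then I else -I) - if φ ∈ Φ₁ then I else -I) *
      f φ = 2 * I * (f (conjugate φ₀) - f φ₀) := fun f => by
    rw [Finset.sum_eq_add φ₀ (conjugate φ₀) (fun a => c1 (a ▸ m0.1))
      (fun φ _ hφ => ?_) (by simp) (by simp), if_neg m0.2, if_pos m0.1, if_pos c2, if_neg c1]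
    · ring
    · by_cases a₁ : φ ∈ Φ₁ <;> by_cases a₂ : φ ∈ Φ₂
      · simp [a₁, a₂]
      · exact absurd (uq φ a₁ a₂) hφ.1
      · have := uq _ ((h₁.conj_iff φ).2 a₁) fun a => (h₂.conj_iff φ).1 a a₂
        exact absurd (this ▸ (star_star φ).symm) hφ.2
      · simp [a₁, a₂]
  set σ₀ := φ₀.comp (algebraMap k E)
  have hj : ∀ σ : k →+* ℂ, ∑ φ with φ.comp (algebraMap k E) = σ,
      ((if φ ∈ Φ₂ then I else -I) - if φ ∈ Φ₁ then I else -I) =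
      2 * I * ((if conjugate σ₀ = σ then 1 else 0) - if σ₀ = σ then 1 else 0) := fun σ => by
    rw [Finset.sum_filter, ← conjugate_comp,
      ← hs fun φ => if φ.comp (algebraMap k E) = σ then 1 else 0]
    exact Finset.sum_congr rfl fun φ _ => by split_ifs <;> simp
  obtain ⟨δ, hδ⟩ := exists_real c (fun σ => 2 * I * ((if conjugate σ₀ = σ then 1 else 0) -
      if σ₀ = σ then 1 else 0)) fun σ => by
    have e : conjugate σ₀ = conjugate σ ↔ σ₀ = σ := star_inj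
    have e' : σ₀ = conjugate σ ↔ conjugate σ₀ = σ := eq_comm.trans star_eq_iff_star_eq
    simp only [e, e']
    split_ifs <;> simp
  refine ⟨δ, fun σ => by rw [hj, hδ], ?_⟩
  obtain ⟨L, hL, mL⟩ := real_rank (E := k)
  have hr := hull_rank c hδ
  have hk : LinearMap.ker (trj fun σ : k →+* ℂ => 2 * I * ((if conjugate σ₀ = σ then 1 else 0) -
      if σ₀ = σ then 1 else 0)) = L := by
    ext y
    have : ∀ j : (k →+* ℂ) → ℂ, trj j y = ∑ σ, j σ * σ y := fun j => by simp [trj]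
    rw [LinearMap.mem_ker, this, mL σ₀ y]
    simp only [mul_assoc, ← Finset.mul_sum, sub_mul, Finset.sum_sub_distrib, ite_mul, one_mul,
      zero_mul, Finset.sum_ite_eq, Finset.mem_univ, if_true, mul_eq_zero, two_ne_zero, I_ne_zero,
      false_or, sub_eq_zero]
  rw [hk] at hr
  have := finrank_eq_card_basis c
  rw [Fintype.card_fin] at this
  omega

theorem with_pi [IsCMField E] (h₁ : IsCM A₁ b₁ Φ₁) (h₂ : IsCM A₂ b₂ Φ₂)
    (h : (Φ₁ \ Φ₂).ncard = 1) : ∃ k₀ : IntermediateField ℚ E, ¬ IsTotallyReal k₀ ∧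
      ∀ k : IntermediateField ℚ E, IsTotallyComplex k → ¬ k₀ ≤ k → ∀ d : ℕ, 2 * d = finrank ℚ k →
        Algebra.trdeg ℚ (perNorm A₁ A₂ b₁ b₂ k) = (d + 1 : ℕ) := by
  obtain ⟨p₁, q₁⟩ := exists_per h₁
  obtain ⟨p₂, q₂⟩ := exists_per h₂
  obtain ⟨k₀, h0, hk⟩ := all_but_one (r := fun φ => p₁ φ / p₂ φ)
    (fun φ => div_ne_zero (q₁.ne φ) (q₂.ne φ)) (fun φ => by
      have := (q₁.leg φ).mul (q₂.leg φ).inv
      rwa [← div_eq_mul_inv, div_div_div_cancel_right₀ two_pi_I_ne_zero, mul_div_mul_comm] at this)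
    tr_c (g := g) (by rw [finrank_eq_card_basis b₁, Fintype.card_fin]) (adj_lower h₁ h₂ h q₁ q₂)
  exact ⟨k₀, h0, fun k a b d e => (perNorm_eq q₁ q₂ k).trans (hk k a b d e)⟩

end GPC72
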