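import Pool.Agent.MP_57341d_ag.H72.Pi
import Pool.Agent.MP_57341d_ag.H72.WDefs
import Pool.Agent.MP_57341d_ag.H72.DefsH

attribute [-instance] IntermediateField.module'
  NonUnitalAlgSemiHomClass.toDistribMulActionSemiHomClass LieAdmissibleAlgebra.toModule
  LeftPreLieAlgebra.toModule RightPreLieAlgebra.toModule RKHS.instFunLike
  SetLike.GradeZero.instSemiring IsPurelyInseparable.isIntegral
  ContinuousSemilinearMapClass.toSemilinearMapClass CoalgHomClass.toSemilinearMapClass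
  Module.IsNoetherian.finite MonTypeEquivalenceMon.monMonoid LieAlgebra.toModule
  NonUnitalAlgHomClass.toNonUnitalRingHomClass instCoeTCOfCoe decidableEq_of_subsingleton
  BialgEquivClass.toBialgHomClass IsStarProjection.instTrivialStarOfStarOrderedRing
  IdemSemiring.toSemiring ContinuousMonoidHom.instCoeOutOfMonoidHomClassOfContinuousMapClass
  NonUnitalAlgHomClass.instSemilinearMapClassOfNonUnitalAlgSemiHomClassToMonoidHomRingHom
  instNonUnitalAlgHomClassOfNonUnitalAlgEquivClass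
  MulSemiringActionSemiHomClass.toDistribMulActionSemiHomClass
  CommMonTypeEquivalenceCommMon.commMonCommMonoid SetLike.GradeZero.instCommRing littleWedderburn
  FunLike.toDecidableEq GrpTypeEquivalenceGrp.grpGroup instCoeHTCTOfCoeTailOfCoeHTC
  Complex.instAlgebraOfReal TestFunctionClass.toDFunLike NonUnitalRing.toNonUnitalNonAssocRing
  LieAdmissibleRing.toNonUnitalNonAssocRing NormedCommRing.toCommRing AlgHomClass.linearMapClass
  BialgHomClass.toAlgHomClass RingConeClass.toSubsemiringClass NormedRing.toRing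
  SemilinearIsometryClass.toSemilinearMapClass ContDiffMapSupportedInClass.toDFunLike
  MulDistribMulActionSemiHomClass.toMonoidHomClass CentroidHomClass.toAddMonoidHomClass
  SemilatticeInf.toPartialOrder SetLike.GradeZero.instMonoid instCoeHTCT instSMulZeroClass
  RingHomClass.toLinearMapClassRat IsCyclic.isMulCommutative

/-! From the monomial relations to the period conjecture for commutative Hodge groups. -/

open Matrix Module GPC73 GPC42 Complex NumberField ComplexEmbedding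

namespace GPC72

variable {E : Type} [Field E] [NumberField E] {n n' m ι : Type} [Fintype n] [DecidableEq n]
  [Fintype n'] [DecidableEq n'] [Fintype m] [DecidableEq m] {g g' N N' N'' d : ℕ}

/-- The rational components of `J` commute. -/
def Cm (J : Matrix n n ℝ) : Prop :=
  ∀ l l' : ℝ →ₗ[ℚ] ℚ, J.map l * J.map l' = J.map l' * J.map l

open Classical in
/-- A spanning family of eigenvectors of `J` with coordinates in the conjugates of `E`. -/
structure Ev (J : Matrix n n ℝ) (E : Type) [Field E] (ι : Type) where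
  w : ι → n → E
  Φ : ι → Set (E →+* ℂ)
  ne : ∀ i, w i ≠ 0
  ty : ∀ i, Ty (Φ i)
  eig : ∀ i φ, J.map ofReal *ᵥ (fun j => φ (w i j)) =
    (if φ ∈ Φ i then I else -I) • fun j => φ (w i j)
  top : Submodule.span ℂ (Set.range fun q : ι × (E →+* ℂ) => fun j => q.2 (w q.1 j)) = ⊤

/-- The sign of the twist. -/
def Sg (b₀ : E →+* ℂ) (Φ : Set (E →+* ℂ)) (φ ψ : E →+* ℂ) : Prop :=
  ∃ γ : E ≃ₐ[ℚ] E, ψ.comp (γ : E →+* E) = φ ∧ b₀.comp (γ : E →+* E) ∈ Φ

open Classical in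
/-- The exponents. -/
noncomputable def ex (a : ℤ) (b₀ : E →+* ℂ) (Φ : Set (E →+* ℂ)) (φ : E →+* ℂ)
    (o : Option (E →+* ℂ)) : ℤ := o.elim a fun ψ => if Sg b₀ Φ φ ψ then 1 else -1

/-- The space of characters. -/
noncomputable def Ev.U {J : Matrix n n ℝ} (T : Ev J E ι) (a : ℤ) (b₀ : E →+* ℂ) :
    Submodule ℚ (Option (E →+* ℂ) → ℚ) :=
  Submodule.span ℚ (Set.range fun q : ι × (E →+* ℂ) => cst (ex a b₀ (T.Φ q.1) q.2))

theorem sg_iff {b₀ φ ψ : E →+* ℂ} {Φ : Set (E →+* ℂ)} {γ : E ≃ₐ[ℚ] E}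
    (h : ψ.comp (γ : E →+* E) = φ) : Sg b₀ Φ φ ψ ↔ b₀.comp (γ : E →+* E) ∈ Φ := by
  refine ⟨fun ⟨γ', h', a⟩ => ?_, fun a => ⟨γ, h, a⟩⟩
  have : γ' = γ := AlgEquiv.ext fun x => ψ.injective (RingHom.congr_fun (h'.trans h.symm) x)
  exact this ▸ a

theorem exists_tw [IsGalois ℚ E] (ψ φ : E →+* ℂ) :
    ∃ γ : E ≃ₐ[ℚ] E, ψ.comp (γ : E →+* E) = φ := by
  obtain ⟨σ, h⟩ := exists_comp_symm_eq_of_comp_eq (k := ℚ) ψ φ (by ext; simp)
  exact ⟨σ.symm, h⟩

theorem vec_perp (β : Basis n ℚ E) {c : n → ℂ} (h : ∀ φ : E →+* ℂ, ∑ j, c j * φ (β j) = 0) :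
    c = 0 := by
  have : Submodule.span ℂ (Set.range (GPC42.vec β : (E →+* ℂ) → n → ℂ)) ≤
      LinearMap.ker (Fintype.linearCombination ℂ c) := Submodule.span_le.2 <| by
    rintro _ ⟨φ, rfl⟩
    simpa only [SetLike.mem_coe, LinearMap.mem_ker, Fintype.linearCombination_apply, GPC42.vec, smul_eq_mul, mul_comm] using h φ
  funext j
  have := this (vec_span β ▸ Submodule.mem_top (x := Pi.single j (1 : ℂ)))
  rwa [LinearMap.mem_ker, Fintype.linearCombination_apply_single, one_smul] at this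

theorem cm_of {J : Matrix n n ℝ} (h : ∀ X ∈ hull J, ∀ Y ∈ hull J, X * Y = Y * X) : Cm J :=
  fun l l' => h _ ((mem_span_iff J _).1 (mem_hull J) l) _ ((mem_span_iff J _).1 (mem_hull J) l')

/-! ### Block HOM -/

theorem hom_span {S : Set (n → ℂ)} {P : Matrix n m ℂ} (hP : ∀ i, Pᵀ i ∈ S) {c : m → ℂ}
    (hc : ∀ i, IsAlgebraic ℚ (c i)) : P *ᵥ c ∈ Submodule.span Qb S := by
  rw [mulVec_eq_sum]
  refine Submodule.sum_mem _ fun i _ => ?_
  rw [op_smul_eq_smul]
  exact Submodule.smul_mem _ (⟨c i, mem_algebraicClosure_iff.2 (hc i)⟩ : Qb)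
    (Submodule.subset_span (hP i))

theorem hom_comm (b : Basis n ℚ E) {J : Matrix n n ℝ} {J' : Matrix n' n' ℝ} {Y : Matrix n' n ℚ}
    (h : ∀ ψ : E →+* ℂ, J'.map ofReal *ᵥ (Y.map (Rat.cast : ℚ → ℂ) *ᵥ GPC42.vec b ψ) =
      Y.map (Rat.cast : ℚ → ℂ) *ᵥ (J.map ofReal *ᵥ GPC42.vec b ψ)) :
    J' * Y.map (Rat.cast : ℚ → ℝ) = Y.map (Rat.cast : ℚ → ℝ) * J := by
  have : J'.map ofReal * Y.map (Rat.cast : ℚ → ℂ) = Y.map (Rat.cast : ℚ → ℂ) * J.map ofReal :=
    Matrix.toLin'.injective (LinearMap.ext_on_range (vec_span b) fun ψ => by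
      simpa only [toLin'_apply, mulVec_mulVec] using h ψ)
  ext j k
  have := congrFun₂ this j k
  simp only [mul_apply, map_apply] at this ⊢
  exact_mod_cast this

/-- `J_spec`, `pω`; compare both sides in the basis `C.ω`. -/
theorem prod_J {A : AbVar g N} {B : AbVar g' N'} {C : AbVar (g + g') N''}
    (e : Fin (2 * (g + g')) ≃ Fin (2 * g) ⊕ Fin (2 * g')) (h : ∀ j, C.ω j = pω A B e j) :
    C.J = (fromBlocks A.J 0 0 B.J).submatrix e e := by
  ext j k
  refine congrFun (Eq.trans (congrArg (fun z => ⇑(C.ω.repr z)) (?_ : I • C.ω j = _))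
    (C.ω.repr_sum_self ((fromBlocks A.J 0 0 B.J).submatrix e e j))) k
  simp only [h, pω, submatrix_apply]
  rw [e.sum_comp fun x => fromBlocks A.J 0 0 B.J (e j) x • (Sum.elim (fun j => Fin.append (A.ω j) 0)
    (fun j => Fin.append 0 (B.ω j)) x : Fin (g + g') → ℂ)]
  funext l
  rcases e j with a | a <;> refine Fin.addCases (fun l => ?_) (fun l => ?_) l
  · simpa only [Sum.elim_inl, Pi.smul_apply, Fin.append_left, smul_eq_mul, Finset.sum_apply, real_smul, Fintype.sum_sum_type, fromBlocks_apply₁₁, fromBlocks_apply₁₂, Matrix.zero_apply, ofReal_zero, Sum.elim_inr, Pi.zero_apply, mul_zero, Finset.sum_const_zero, add_zero] using congrFun (J_spec A a) l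
  · simp only [Sum.elim_inl, Pi.smul_apply, Fin.append_right, Pi.zero_apply, smul_eq_mul, mul_zero, Finset.sum_apply, real_smul, Fintype.sum_sum_type, fromBlocks_apply₁₁, Finset.sum_const_zero, fromBlocks_apply₁₂, Matrix.zero_apply, ofReal_zero, Sum.elim_inr, zero_mul, add_zero]
  · simp only [Sum.elim_inr, Pi.smul_apply, Fin.append_left, Pi.zero_apply, smul_eq_mul, mul_zero, Finset.sum_apply, real_smul, Fintype.sum_sum_type, fromBlocks_apply₂₁, Matrix.zero_apply, ofReal_zero, Sum.elim_inl, zero_mul, Finset.sum_const_zero, fromBlocks_apply₂₂, add_zero]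
  · simpa only [Sum.elim_inr, Pi.smul_apply, Fin.append_right, smul_eq_mul, Finset.sum_apply, real_smul, Fintype.sum_sum_type, fromBlocks_apply₂₁, Matrix.zero_apply, ofReal_zero, Sum.elim_inl, Pi.zero_apply, mul_zero, Finset.sum_const_zero, fromBlocks_apply₂₂, zero_add] using congrFun (J_spec B a) l

/-- `exists_prod A B`, `exists_hd` of the product, `D.H1` for `(fromBlocks 0 Y 0 0).submatrix e e`
(`prod_J`), `dR_coord`: `(Y η, 0)` lies in the `Qb`-span of `dR` of the product; `dR_repr` for the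
basis made of the columns of period matrices of `A` and `B` (`exists_basis`). -/
theorem hom (A : AbVar g N) (B : AbVar g' N') (Y : Matrix (Fin (2 * g)) (Fin (2 * g')) ℚ)
    (h : A.J * Y.map (Rat.cast : ℚ → ℝ) = Y.map (Rat.cast : ℚ → ℝ) * B.J)
    {η : Fin (2 * g') → ℂ} (hη : η ∈ Submodule.span Qb B.dR) :
    Y.map (Rat.cast : ℚ → ℂ) *ᵥ η ∈ Submodule.span Qb A.dR := by
  let e : Fin (2 * (g + g')) ≃ Fin (2 * g) ⊕ Fin (2 * g') :=
    (finCongr (mul_add _ _ _)).trans finSumFinEquiv.symm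
  obtain ⟨N'', C, h1, h2, h3⟩ := exists_prod A B e
  obtain ⟨D, hD, hP⟩ := exists_hd C
  have h4 := D.H1 ((fromBlocks 0 Y 0 0).submatrix e e) (by
    rw [hD, prod_J e h1, ← submatrix_map, submatrix_mul_equiv, submatrix_mul_equiv, fromBlocks_map,
      fromBlocks_multiply, fromBlocks_multiply]
    simp [h])
  have h5 : (fun j => Sum.elim (fun _ => 0) η (e j)) ∈ Submodule.span Qb C.dR := by
    induction hη using Submodule.span_induction with
    | mem x hx => exact Submodule.subset_span (h3 x hx)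
    | zero => convert Submodule.zero_mem _ using 2 with j; rcases e j <;> rfl
    | add x y _ _ hx hy =>
      convert Submodule.add_mem _ hx hy using 2 with j
      rw [Pi.add_apply]; rcases e j <;> simp
    | smul a x _ hx =>
      convert Submodule.smul_mem _ a hx using 2 with j
      rw [Pi.smul_apply]; rcases e j <;> simp only [Sum.elim_inl, smul_zero, Sum.elim_inr, Pi.smul_apply]
  have h6 := hom_span hP fun i => al_isAlg_sum Finset.univ fun j =>
    (h4 i j).mul (dR_coord D.P_det hP h5 j)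
  change D.P *ᵥ (_ *ᵥ (_ *ᵥ _)) ∈ _ at h6
  rw [mulVec_mulVec, mulVec_mulVec, ← mul_assoc, ← mul_assoc, mul_nonsing_inv _ D.P_det.isUnit,
    one_mul, mul_nonsing_inv_cancel_right _ _ D.P_det.isUnit] at h6
  obtain ⟨P, a1, a2⟩ := exists_basis A
  obtain ⟨Q, b1, b2⟩ := exists_basis B
  have hd : ((fromBlocks P 0 0 Q).submatrix e e)ᵀ.det ≠ 0 := by
    rw [det_transpose, det_submatrix_equiv_self, det_fromBlocks_zero₂₁]
    exact mul_ne_zero a1 b1
  have h7 := dR_coord hd (fun i => by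
    change (fun j => fromBlocks P 0 0 Q (e i) (e j)) ∈ _
    rcases e i with a | a
    · convert h2 _ (a2 a) using 2 with j; rcases e j <;> rfl
    · convert h3 _ (b2 a) using 2 with j; rcases e j <;> rfl) h6
  convert hom_span (P := Pᵀ) a2 fun i => h7 (e.symm (.inl i)) using 1
  funext j
  have h8 := congrFun (mulVec_mulVec (((fromBlocks 0 Y 0 0).submatrix e e).map (Rat.cast : ℚ → ℂ) *ᵥ
    fun j => Sum.elim (fun _ => 0) η (e j)) ((fromBlocks P 0 0 Q).submatrix e e)ᵀ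
      ((fromBlocks P 0 0 Q).submatrix e e)ᵀ⁻¹) (e.symm (.inl j))
  rw [mul_nonsing_inv _ hd.isUnit, one_mulVec] at h8
  generalize ((fromBlocks P 0 0 Q).submatrix e e)ᵀ⁻¹ *ᵥ _ = c at h8 ⊢
  simp only [mulVec, dotProduct] at h8 ⊢
  rw [← e.symm.sum_comp, ← e.symm.sum_comp] at h8
  simpa only [map_apply, transpose_apply, submatrix_apply, Equiv.apply_symm_apply, Fintype.sum_sum_type, fromBlocks_apply₁₁, Matrix.zero_apply, Rat.cast_zero, Sum.elim_inl, mul_zero, Finset.sum_const_zero, fromBlocks_apply₁₂, Sum.elim_inr, zero_add, fromBlocks_apply₂₁, zero_mul, add_zero] using h8.symm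

/-- `hom` for `(b.toMatrix b')ᵀ` (`toMatrix_vec`, `IsCM.eig`, `ext_span`), `per_alg`. -/
theorem iso {Φ : Set (E →+* ℂ)} {p p' : (E →+* ℂ) → ℂ} (h : PT d Φ p) (h' : PT d Φ p')
    (φ : E →+* ℂ) : IsAlgebraic ℚ (p φ / p' φ) := by
  obtain ⟨N, A, b, h1, h2⟩ := h
  obtain ⟨N', A', b', h1', h2'⟩ := h'
  refine per_alg h2' (fun ψ => ⟨h2.ne ψ, ?_⟩) φ
  have := hom A' A (b.toMatrix b')ᵀ (hom_comm b fun ψ => by
    rw [toMatrix_vec, h1.eig, h1'.eig, mulVec_smul, toMatrix_vec]) (h2.mem ψ)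
  rwa [mulVec_smul, toMatrix_vec] at this

/-- `exists_per`, `hom` for `Y j k = b.repr (T.w i j) k`. -/
theorem Ev.per {A : AbVar g N} (T : Ev A.J E ι) (hF : Fam E d) :
    ∃ p : ι → (E →+* ℂ) → ℂ, ∀ i, PT d (T.Φ i) (p i) ∧
      ∀ φ, (p i φ • fun j => φ (T.w i j)) ∈ Submodule.span Qb A.dR := by
  choose M B b hb using fun i => hF _ (T.ty i)
  choose p hp using fun i => exists_per (hb i)
  refine ⟨p, fun i => ⟨⟨_, _, _, hb i, hp i⟩, fun φ => ?_⟩⟩
  have hv : ∀ ψ : E →+* ℂ, (of fun j k => (b i).repr (T.w i j) k).map (Rat.cast : ℚ → ℂ) *ᵥ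
      GPC42.vec (b i) ψ = fun j => ψ (T.w i j) := fun ψ => by
    funext j
    conv_rhs => rw [← (b i).sum_repr (T.w i j)]
    simp only [mulVec, dotProduct, map_apply, of_apply, GPC42.vec, Rat.smul_def, map_sum, map_mul, map_ratCast]
  have := hom A (B i) _ (hom_comm (b i) fun ψ => by
    rw [hv, (hb i).eig, T.eig, mulVec_smul, hv]) ((hp i).mem φ)
  rwa [mulVec_smul, hv] at this

/-! ### Block PER -/

section

variable {κ : Type} {A : AbVar g N} {v : κ → Fin (2 * g) → ℂ} {q : κ → ℂ}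

theorem per_sum {K : IntermediateField ℚ ℂ} {α : Type} [Fintype α] {f : α → ℂ}
    (h : ∀ i, IsAlgebraic K (f i)) : IsAlgebraic K (∑ i, f i) :=
  mem_algebraicClosure_iff.1 (sum_mem fun i _ => mem_algebraicClosure_iff.2 (h i))

theorem per_bas (ht : Submodule.span ℂ (Set.range v) = ⊤) :
    ∃ a : Fin (2 * g) → κ, LinearIndependent ℂ fun i => v (a i) := by
  obtain ⟨κ', a, -, h1, h2⟩ := exists_linearIndependent' ℂ v
  let B : Basis κ' ℂ (Fin (2 * g) → ℂ) := Basis.mk h2 (h1.trans ht).ge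
  exact ⟨a ∘ (Pi.basisFun ℂ _).indexEquiv B, h2.comp _ (Equiv.injective _)⟩

/-- `trdeg_eq`, `rk_le`, `mem_cl`.  Choose a basis among the `v k` (`exists_linearIndependent`);
`dR_repr`. -/
theorem trdeg_H (hv : ∀ k, v k ≠ 0) (ha : ∀ k j, IsAlgebraic ℚ (v k j))
    (ht : Submodule.span ℂ (Set.range v) = ⊤) (hq : ∀ k, q k ≠ 0)
    (hm : ∀ k, q k • v k ∈ Submodule.span Qb A.dR) :
    Algebra.trdeg ℚ (perH A) = M.cRk (Set.range q) := by
  rw [perH, trdeg_eq]
  refine le_antisymm (rk_le ?_) (rk_le ?_)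
  · rintro _ ⟨η, hη, j, rfl⟩
    obtain ⟨a, hli⟩ := per_bas ht
    obtain ⟨c, hc, rfl⟩ := dR_repr (hli.units_smul fun i => Units.mk0 _ (hq (a i)))
      (Fintype.card_fin _) (fun i => hm (a i)) (Submodule.subset_span hη)
    rw [mem_cl, Finset.sum_apply]
    exact per_sum fun i => ((hc i).tower_top _).mul
      ((mem_cl.1 (sub_cl _ (Set.mem_range_self (a i)))).mul ((ha (a i) j).tower_top _))
  · rintro _ ⟨k, rfl⟩
    obtain ⟨j, hj⟩ := Function.ne_iff.1 (hv k)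
    have key : ∀ η ∈ Submodule.span Qb A.dR, IsAlgebraic
        (IntermediateField.adjoin ℚ {c | ∃ η ∈ A.dR, ∃ j, c = η j}) (η j) := fun η hη => by
      induction hη using Submodule.span_induction with
      | mem x hx => exact mem_cl.1 (sub_cl _ ⟨x, hx, j, rfl⟩)
      | zero => exact isAlgebraic_zero
      | add x y _ _ hx hy => exact hx.add hy
      | smul a x _ hx => exact ((mem_algebraicClosure_iff.1 a.2).tower_top _).mul hx
    have := (key _ (hm k)).mul ((ha k j).tower_top _).inv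
    rwa [Pi.smul_apply, smul_eq_mul, mul_inv_cancel_right₀ hj, ← mem_cl] at this

end

/-! ### Block DIAG -/

/-- A basis `t` of the span of the entries, `l k` extends the coordinate forms. -/
theorem dec (J : Matrix n n ℝ) : ∃ (s : ℕ) (t : Fin s → ℝ) (l : Fin s → ℝ →ₗ[ℚ] ℚ),
    LinearIndependent ℚ t ∧ J = ∑ k, t k • (J.map (l k)).map (Rat.cast : ℚ → ℝ) := by
  obtain ⟨W, hW⟩ : ∃ W, W = Submodule.span ℚ (Set.range fun x : n × n => J x.1 x.2) := ⟨_, rfl⟩
  have : FiniteDimensional ℚ W := hW ▸ FiniteDimensional.span_of_finite ℚ (Set.finite_range _)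
  choose l hl using fun k => LinearMap.exists_extend ((finBasis ℚ W).coord k)
  refine ⟨_, fun k => finBasis ℚ W k, l,
    (finBasis ℚ W).linearIndependent.map' W.subtype W.ker_subtype, ?_⟩
  ext i j
  have h : J i j ∈ W := hW ▸ Submodule.subset_span ⟨(i, j), rfl⟩
  have := congrArg W.subtype ((finBasis ℚ W).sum_repr ⟨_, h⟩)
  rw [map_sum] at this
  rw [Matrix.sum_apply]
  refine this.symm.trans (Finset.sum_congr rfl fun k _ => ?_)
  rw [map_smul, ← Basis.coord_apply, ← hl, Rat.smul_def, mul_comm]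
  rfl

/-- `pol` gives `R` with `J R Jᵀ = R` and `S' = R Jᵀ` positive; `X S' + S' Xᵀ = 0` for
`X = J.map l` (apply `l` to `J R + R Jᵀ = 0`; `X` commutes with `J` by `mem_span_iff`);
`S = S'⁻¹`. -/
theorem exists_S (A : AbVar g N) (h : Cm A.J) :
    ∃ S : Matrix (Fin (2 * g)) (Fin (2 * g)) ℝ, (∀ l : ℝ →ₗ[ℚ] ℚ,
      S * (A.J.map l).map (Rat.cast : ℚ → ℝ) + ((A.J.map l).map (Rat.cast : ℚ → ℝ))ᵀ * S = 0) ∧
      ∀ u, u ≠ 0 → 0 < u ⬝ᵥ S *ᵥ u := by
  obtain ⟨R, J, -, hJ, h2, h3⟩ := pol A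
  obtain rfl : J = A.J := by
    ext j k
    simpa only [map_sum, map_smul, Basis.repr_self, Finsupp.smul_single, smul_eq_mul, mul_one, Finsupp.coe_finsetSum, Finset.sum_apply, Finsupp.single_apply, Finset.sum_ite_eq', Finset.mem_univ, ↓ reduceIte] using
      congrArg (fun z => A.ω.repr z k) ((hJ j).symm.trans (J_spec A j))
  obtain ⟨D, hD, -⟩ := exists_hd A
  have h4 : A.J * R.map (Int.cast : ℤ → ℝ) + R.map (Int.cast : ℤ → ℝ) * A.Jᵀ = 0 := by
    have := congrArg (A.J * ·) h2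
    simp only [← Matrix.mul_assoc, hD ▸ D.JJ] at this
    rw [← this]
    simp
  obtain ⟨S, hS⟩ : ∃ S, S = R.map (Int.cast : ℤ → ℝ) * A.Jᵀ := ⟨_, rfl⟩
  have h5 : ∀ u, u ≠ 0 → 0 < u ⬝ᵥ S *ᵥ u := fun u hu => by
    rw [hS, ← mulVec_mulVec, dotProduct_mulVec, mulVec_transpose]
    exact h3 u hu
  have h6 : IsUnit S.det := (Ne.isUnit fun c => by
    obtain ⟨u, hu, e⟩ := exists_mulVec_eq_zero_iff.2 c
    simpa only [e, dotProduct_zero, lt_self_iff_false] using h5 u hu)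
  refine ⟨S⁻¹, fun l => ?_, fun u hu => ?_⟩
  · obtain ⟨X, hX⟩ : ∃ X, X = (A.J.map l).map (Rat.cast : ℚ → ℝ) := ⟨_, rfl⟩
    have e1 : X * R.map (Int.cast : ℤ → ℝ) + R.map (Int.cast : ℤ → ℝ) * Xᵀ = 0 := by
      ext i j
      have := congrArg (fun Y => (l (Y i j) : ℝ)) h4
      simp only [Matrix.add_apply, mul_apply, map_apply, transpose_apply, mul_comm (A.J _ _),
        ← zsmul_eq_mul, map_add, map_sum, map_zsmul] at this
      simpa only [hX, map_map, Matrix.add_apply, mul_apply, map_apply, Function.comp_apply, mul_comm, transpose_apply, Matrix.zero_apply, zsmul_eq_mul, Rat.cast_add, Rat.cast_sum, Rat.cast_mul, Rat.cast_intCast, map_zero, Rat.cast_zero] using this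
    have e2 : A.J * X = X * A.J := by
      obtain ⟨s, t, m, -, e⟩ := dec A.J
      have : ∀ k, (A.J.map (m k)).map (Rat.cast : ℚ → ℝ) * X =
          X * (A.J.map (m k)).map (Rat.cast : ℚ → ℝ) := fun k => by
        simpa only [hX, ← Rat.coe_castHom, ← Matrix.map_mul] using
          congrArg (·.map (Rat.castHom ℝ)) (h (m k) l)
      generalize A.J = J at e this ⊢
      conv_lhs => rw [e]
      conv_rhs => rw [e]
      simp only [Finset.sum_mul, Finset.mul_sum, smul_mul_assoc, mul_smul_comm, this]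
    have e3 : X * S + S * Xᵀ = 0 := by
      rw [hS, Matrix.mul_assoc _ _ Xᵀ, ← transpose_mul, ← e2, transpose_mul, ← Matrix.mul_assoc,
        ← Matrix.mul_assoc, ← add_mul, e1, zero_mul]
    have := congrArg (fun Y => S⁻¹ * Y * S⁻¹) e3
    simpa only [← hX, mul_add, add_mul, Matrix.mul_assoc, mul_nonsing_inv _ h6, Matrix.mul_one,
      nonsing_inv_mul_cancel_left _ _ h6, mul_zero, zero_mul] using this
  · have e : S *ᵥ S⁻¹ *ᵥ u = u := by rw [mulVec_mulVec, mul_nonsing_inv _ h6, one_mulVec]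
    have := h5 (S⁻¹ *ᵥ u) fun c => hu (by rw [← e, c, mulVec_zero])
    rwa [e, dotProduct_comm] at this

omit [DecidableEq n] in
theorem diag_pos {S : Matrix n n ℝ} (hp : ∀ u, u ≠ 0 → 0 < u ⬝ᵥ S *ᵥ u) {v : n → ℂ}
    (h : star v ⬝ᵥ S.map ofReal *ᵥ v = 0) : v = 0 := by
  have h0 : ∀ u, 0 ≤ u ⬝ᵥ S *ᵥ u := fun u =>
    (eq_or_ne u 0).elim (fun e => by simp only [e, mulVec_zero, dotProduct_zero, Std.le_refl]) fun e => (hp u e).le
  have e : (fun i => (v i).re) ⬝ᵥ S *ᵥ (fun i => (v i).re) +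
      (fun i => (v i).im) ⬝ᵥ S *ᵥ (fun i => (v i).im) = 0 := by
    simpa only [dotProduct, mulVec, Pi.star_apply, RCLike.star_def, map_apply, re_sum, mul_re, conj_re, ofReal_re, ofReal_im, zero_mul, sub_zero, conj_im, im_sum, mul_im, add_zero, neg_mul, sub_neg_eq_add, Finset.sum_add_distrib, zero_re] using congrArg re h
  have h1 := h0 fun i => (v i).re
  have h2 := h0 fun i => (v i).im
  have h3 : (fun i => (v i).re) = 0 := not_not.1 fun c => by linarith [hp _ c]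
  have h4 : (fun i => (v i).im) = 0 := not_not.1 fun c => by linarith [hp _ c]
  exact funext fun i => Complex.ext (congrFun h3 i) (congrFun h4 i)

/-- `re (star v ⬝ᵥ S v) > 0`; `(X - μ) ^ 2 v = 0 → (X - μ) v = 0`;
`Module.End.iSup_iInf_maxGenEigenspace_eq_top_of_iSup_maxGenEigenspace_eq_top_of_commute`. -/
theorem diag {κ : Type} (X : κ → Matrix n n ℝ) (hc : ∀ k l, X k * X l = X l * X k)
    {S : Matrix n n ℝ} (hS : ∀ k, S * X k + (X k)ᵀ * S = 0) (hp : ∀ u, u ≠ 0 → 0 < u ⬝ᵥ S *ᵥ u) :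
    Submodule.span ℂ {v : n → ℂ | ∀ k, ∃ μ : ℂ, (X k).map ofReal *ᵥ v = μ • v} = ⊤ ∧
      ∀ (k : κ) (μ : ℂ) (v : n → ℂ), v ≠ 0 → (X k).map ofReal *ᵥ v = μ • v → star μ = -μ := by
  have h1 : ∀ k v w, star ((X k).map ofReal *ᵥ v) ⬝ᵥ S.map ofReal *ᵥ w =
      -(star v ⬝ᵥ S.map ofReal *ᵥ (X k).map ofReal *ᵥ w) := fun k v w => by
    have e : ((X k).map ofReal)ᴴ * S.map ofReal = -(S.map ofReal * (X k).map ofReal) := by
      ext i j
      simpa only [mul_apply, conjTranspose_apply, map_apply, RCLike.star_def, conj_ofReal, Matrix.neg_apply, eq_neg_iff_add_eq_zero, Matrix.add_apply, transpose_apply, add_comm, ofReal_add, ofReal_sum, ofReal_mul, Matrix.zero_apply, ofReal_zero] using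
        congrArg (fun Y => (Y i j : ℂ)) (hS k)
    rw [star_mulVec, ← dotProduct_mulVec, mulVec_mulVec, e, neg_mulVec, dotProduct_neg,
      mulVec_mulVec]
  have h2 : ∀ (k : κ) (μ : ℂ) (v : n → ℂ), v ≠ 0 → (X k).map ofReal *ᵥ v = μ • v →
      star μ = -μ := fun k μ v hv e => by
    have := h1 k v v
    rw [e, star_smul, smul_dotProduct, mulVec_smul, dotProduct_smul, ← neg_smul] at this
    exact smul_left_injective ℂ (fun c => hv (diag_pos hp c)) this
  have h3 : ∀ (k : κ) (μ : ℂ) (j : ℕ) (v : n → ℂ),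
      ((toLin' ((X k).map ofReal) - μ • 1 : Module.End ℂ _) ^ j) v = 0 →
        (X k).map ofReal *ᵥ v = μ • v := fun k μ j => by
    induction j with
    | zero => exact fun v e => by rw [show v = 0 from e, mulVec_zero, smul_zero]
    | succ j ih =>
      intro v e
      rw [pow_succ] at e
      have e1 : (X k).map ofReal *ᵥ ((X k).map ofReal *ᵥ v - μ • v) =
        μ • ((X k).map ofReal *ᵥ v - μ • v) := ih _ e
      by_contra c
      have e2 := h2 k μ _ (sub_ne_zero.2 c) e1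
      refine c (sub_eq_zero.1 (diag_pos hp ?_))
      rw [star_sub, sub_dotProduct, h1, e1, star_smul, smul_dotProduct, e2, mulVec_smul,
        dotProduct_smul, neg_smul, sub_self]
  refine ⟨top_unique ?_, h2⟩
  rw [← Module.End.iSup_iInf_maxGenEigenspace_eq_top_of_iSup_maxGenEigenspace_eq_top_of_commute
    (fun k => toLin' ((X k).map ofReal)) (fun k l _ => ?_)
    fun _ => Module.End.iSup_maxGenEigenspace_eq_top _]
  · refine iSup_le fun χ v hv => Submodule.subset_span fun k => ⟨χ k, ?_⟩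
    obtain ⟨j, hj⟩ := (Module.End.mem_maxGenEigenspace _ _ _).1 ((Submodule.mem_iInf _).1 hv k)
    exact h3 k _ j v hj
  · have := congrArg (fun Y => toLin' (Y.map ofRealHom)) (hc k l)
    simp only [Matrix.map_mul, toLin'_mul] at this
    exact this

/-! ### Block EG -/

theorem eg_eig (X : Matrix n n ℚ) (μ : ℂ) :
    Polynomial.aeval μ X.charpoly = 0 ↔ ∃ v, v ≠ 0 ∧ X.map (Rat.cast : ℚ → ℂ) *ᵥ v = μ • v := by
  rw [← Polynomial.eval_map_algebraMap, ← charpoly_map, eval_charpoly,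
    ← Matrix.exists_mulVec_eq_zero_iff]
  refine exists_congr fun v => and_congr_right fun _ => ?_
  rw [sub_mulVec, sub_eq_zero, eq_comm, scalar_apply, ← smul_one_eq_diagonal, smul_mulVec,
    one_mulVec]
  rfl

theorem eg_im {μ : ℂ} {c : ℝ} (hc : 0 < c) (h : μ ^ 2 + c = 0) : star μ = -μ := by
  have h1 := congrArg re h
  have h2 := congrArg im h
  simp only [sq, add_re, mul_re, ofReal_re, zero_re, add_im, mul_im, ofReal_im, zero_im] at h1 h2
  have h3 : μ.re * μ.im = 0 := by linarith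
  rcases mul_eq_zero.1 h3 with h4 | h4
  · exact Complex.ext (by simp [h4]) (by simp)
  · rw [h4] at h1
    linarith only [mul_self_nonneg μ.re, hc, h1]

theorem eg_core {s : ℕ} {t : Fin s → ℝ} (X : Fin s → Matrix n n ℚ) {J : Matrix n n ℝ}
    (hJ : J * J = -1) (hX : J = ∑ k, t k • (X k).map (Rat.cast : ℚ → ℝ))
    (h1 : Submodule.span ℂ {v : n → ℂ | ∀ k, ∃ μ : ℂ,
      (X k).map (Rat.cast : ℚ → ℂ) *ᵥ v = μ • v} = ⊤)
    (h2 : ∀ k (μ : ℂ) (v : n → ℂ), v ≠ 0 → (X k).map (Rat.cast : ℚ → ℂ) *ᵥ v = μ • v → star μ = -μ)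
    {f : Polynomial ℚ} (hf : f = (.X ^ 2 + 1) * (.X ^ 2 + 3) * ∏ k, (X k).charpoly)
    (E : Type) [Field E] [NumberField E] [Polynomial.IsSplittingField ℚ E f] :
    ∃ (_ : IsCMField E) (_ : IsGalois ℚ E), (∃ x : E, x ^ 2 = -1) ∧
      (∃ x : E, x ^ 2 + x + 1 = 0) ∧ ∃ ι : Type, Nonempty (Ev J E ι) := by
  classical
  have : Normal ℚ E := Normal.of_isSplittingField f
  have : IsGalois ℚ E := ⟨⟩
  obtain ⟨φ₀⟩ : Nonempty (E →+* ℂ) := inferInstance
  have hv : ∀ μ : ℂ, Polynomial.aeval μ f = 0 ↔ (μ ^ 2 + (1 : ℝ) = 0 ∨ μ ^ 2 + (3 : ℝ) = 0) ∨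
      ∃ k, Polynomial.aeval μ (X k).charpoly = 0 := fun μ => by
    simp only [hf, map_mul, map_add, map_pow, Polynomial.aeval_X, map_one, map_ofNat, map_prod, mul_eq_zero, Finset.prod_eq_zero_iff, Finset.mem_univ, true_and, ofReal_one, ofReal_ofNat]
  have hf0 : f ≠ 0 := hf ▸ mul_ne_zero (mul_ne_zero
    (fun h => by simpa using congrArg (Polynomial.eval 0) h)
    (fun h => by simpa using congrArg (Polynomial.eval 0) h))
    (Polynomial.monic_prod_of_monic _ _ fun k _ => (X k).charpoly_monic).ne_zero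
  have hrt : ∀ μ : ℂ, Polynomial.aeval μ f = 0 → ∃ x, φ₀ x = μ := fun μ h =>
    (Polynomial.IsSplittingField.splits E f).mem_range_of_isRoot (Polynomial.map_ne_zero hf0) (by
      rwa [Polynomial.map_map, Subsingleton.elim (φ₀.comp _) (algebraMap ℚ ℂ),
        Polynomial.IsRoot, Polynomial.eval_map_algebraMap])
  have him : ∀ x ∈ f.rootSet E, ∀ φ : E →+* ℂ, conjugate φ x = -φ x := fun x hx φ => by
    obtain (h | h) | ⟨k, hk⟩ := (hv (φ x)).1 ((Polynomial.aeval_algHom_apply φ.toRatAlgHom x _).trans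
      (by rw [(Polynomial.mem_rootSet.1 hx).2, map_zero]))
    · exact eg_im one_pos h
    · exact eg_im three_pos h
    · obtain ⟨v, hv, h⟩ := (eg_eig _ _).1 hk
      exact h2 k _ v hv h
  obtain ⟨x₁, hx₁⟩ := hrt I ((hv _).2 (.inl (.inl (by simp))))
  obtain ⟨x₃, hx₃⟩ := hrt (√3 * I) ((hv _).2 (.inl (.inr (by
    rw [mul_pow, I_sq, ← ofReal_pow, Real.sq_sqrt (by norm_num)]; ring))))
  have e₁ : x₁ ^ 2 = -1 := φ₀.injective (by simp only [map_pow, hx₁, I_sq, map_neg, map_one])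
  have e₃ : x₃ ^ 2 = -3 := φ₀.injective (by
    rw [map_pow, hx₃, mul_pow, I_sq, ← ofReal_pow, Real.sq_sqrt (by norm_num)]; simp [map_ofNat])
  let ι := {q : (n → E) × (Fin s → E) //
    q.1 ≠ 0 ∧ ∀ k, (X k).map (Rat.cast : ℚ → E) *ᵥ q.1 = q.2 k • q.1}
  have hne : ∀ (i : ι) (φ : E →+* ℂ), (fun j => φ (i.1.1 j)) ≠ 0 := fun i φ h =>
    i.2.1 (funext fun j => φ.injective ((congrFun h j).trans (map_zero φ).symm))
  have hev : ∀ (i : ι) (φ : E →+* ℂ) k, (X k).map (Rat.cast : ℚ → ℂ) *ᵥ (fun j => φ (i.1.1 j)) =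
      φ (i.1.2 k) • fun j => φ (i.1.1 j) := fun i φ k => funext fun j => by
    simpa only [mulVec, dotProduct, map_apply, ne_eq, Pi.smul_apply, smul_eq_mul, map_sum, map_mul, map_ratCast] using congrArg φ (congrFun (i.2.2 k) j)
  let z : ι → (E →+* ℂ) → ℂ := fun i φ => ∑ k, t k * φ (i.1.2 k)
  have hz : ∀ (i : ι) (φ : E →+* ℂ), J.map ofReal *ᵥ (fun j => φ (i.1.1 j)) =
      z i φ • fun j => φ (i.1.1 j) := fun i φ => by
    have h : J.map ofReal = ∑ k, (t k : ℂ) • (X k).map (Rat.cast : ℚ → ℂ) := by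
      ext a b
      simp only [hX, map_apply, Matrix.sum_apply, Matrix.smul_apply, smul_eq_mul, ofReal_sum, ofReal_mul, ofReal_ratCast, coe_smul, real_smul]
    simp only [h, sum_mulVec, smul_mulVec, hev, smul_smul, z, Finset.sum_smul]
  have hz2 : ∀ i φ, z i φ = I ∨ z i φ = -I := fun i φ => by
    have h : J.map ofReal * J.map ofReal = -1 := by
      have := congrArg (ofRealHom.mapMatrix (m := n)) hJ
      rwa [map_mul, map_neg, map_one] at this
    have h3 := congrArg (J.map ofReal *ᵥ ·) (hz i φ)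
    rw [mulVec_mulVec, h, mulVec_smul, hz, smul_smul, neg_mulVec, one_mulVec,
      ← neg_one_smul ℂ] at h3
    rw [← sq_eq_sq_iff_eq_or_eq_neg, I_sq, sq]
    exact (smul_left_injective ℂ (hne i φ) h3).symm
  have hzc : ∀ i φ, z i (conjugate φ) = -z i φ := fun i φ => by
    simp only [z, ← Finset.sum_neg_distrib, ← mul_neg]
    exact Finset.sum_congr rfl fun k _ => congrArg _ (h2 k _ _ (hne i φ) (hev i φ k))
  have hI : -I ≠ I := fun h => I_ne_zero (by linear_combination -h / 2)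
  have : IsTotallyComplex E := ⟨fun w => by
    rw [InfinitePlace.isComplex_iff, ComplexEmbedding.isReal_iff]
    intro h
    have h3 : w.embedding x₁ ^ 2 + (1 : ℝ) = 0 := by rw [← map_pow, e₁]; simp only [map_neg, map_one, ofReal_one, neg_add_cancel]
    have h4 : conjugate w.embedding x₁ = _ := eg_im one_pos h3
    rw [h, eq_neg_iff_add_eq_zero, add_self_eq_zero] at h4
    simp [h4] at h3⟩
  obtain ⟨σ, hσ⟩ := exists_tw φ₀ (conjugate φ₀)
  refine ⟨IsCMField.of_forall_isConj E (σ := σ) fun φ => RingHom.ext fun x => DFunLike.congr_fun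
    (AlgHom.ext_of_adjoin_eq_top (Polynomial.IsSplittingField.adjoin_rootSet E f)
      (φ₁ := (conjugate φ).toRatAlgHom) (φ₂ := (φ.comp (σ : E →+* E)).toRatAlgHom) fun x hx => ?_) x,
    inferInstance, ⟨x₁, e₁⟩, ⟨(x₃ - 1) / 2, by linear_combination e₃ / 4⟩, ι,
    ⟨⟨fun i => i.1.1, fun i => {φ | z i φ = I}, fun i => i.2.1, fun i φ => ?_, fun i φ => ?_,
      top_unique (h1 ▸ Submodule.span_le.2 fun v hv' => ?_)⟩⟩⟩
  · have h3 : σ x = -x := φ₀.injective
      ((RingHom.congr_fun hσ x).trans ((him x hx φ₀).trans (map_neg φ₀ x).symm))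
    exact (him x hx φ).trans ((map_neg φ x).symm.trans (congrArg φ h3.symm))
  · simp only [Set.mem_ofPred_eq, hzc]
    rcases hz2 i φ with h | h <;> simp [h, hI]
  · rw [hz]
    rcases hz2 i φ with h | h <;> simp [h, hI]
  · rcases eq_or_ne v 0 with rfl | h0
    · exact zero_mem _
    choose μ hμ using hv'
    choose x hx using fun k => hrt _ ((hv _).2 (.inr ⟨k, (eg_eig _ _).2 ⟨v, h0, hμ k⟩⟩))
    let := φ₀.toAlgebra
    have h4 : v ∈ bc (⨅ k, Module.End.eigenspace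
        (toLin' ((X k).map (Rat.cast : ℚ → E))) (x k)) := (mem_bc _ _).2 fun π => by
      simp only [Submodule.mem_iInf, Module.End.mem_eigenspace_iff, toLin'_apply]
      refine fun k => funext fun j => ?_
      have h5 := congrArg π (congrFun (hμ k) j)
      have h6 : ∀ (e : E) (w : ℂ), π (φ₀ e * w) = e * π w := fun e w => π.map_smul e w
      simp only [mulVec, dotProduct, map_apply, map_sum, ← hx, Pi.smul_apply, smul_eq_mul,
        ← map_ratCast φ₀, h6] at h5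
      exact h5
    refine Submodule.span_le.2 ?_ h4
    rintro _ ⟨w, hw, rfl⟩
    rcases eq_or_ne w 0 with rfl | hw0
    · simp only [Pi.zero_apply, map_zero]
      exact Submodule.zero_mem _
    · simp only [SetLike.mem_coe, Submodule.mem_iInf, Module.End.mem_eigenspace_iff,
        toLin'_apply] at hw
      exact Submodule.subset_span ⟨(⟨(w, x), hw0, hw⟩, φ₀), rfl⟩

theorem exists_ev {J S : Matrix n n ℝ} (hJ : J * J = -1) (hc : Cm J)
    (hS : ∀ l : ℝ →ₗ[ℚ] ℚ, S * (J.map l).map (Rat.cast : ℚ → ℝ) +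
      ((J.map l).map (Rat.cast : ℚ → ℝ))ᵀ * S = 0) (hp : ∀ u, u ≠ 0 → 0 < u ⬝ᵥ S *ᵥ u) :
    ∃ (E : Type) (_ : Field E) (_ : NumberField E) (_ : IsCMField E) (_ : IsGalois ℚ E),
      (∃ x : E, x ^ 2 = -1) ∧ (∃ x : E, x ^ 2 + x + 1 = 0) ∧
        ∃ ι : Type, Nonempty (Ev J E ι) := by
  obtain ⟨s, t, l, -, hX⟩ := dec J
  have h0 : ∀ Y : Matrix n n ℚ, (Y.map (Rat.cast : ℚ → ℝ)).map ofReal = Y.map (Rat.cast : ℚ → ℂ) :=
    fun Y => by ext; simp
  obtain ⟨h1, h2⟩ := diag (fun k => (J.map (l k)).map (Rat.cast : ℚ → ℝ)) (fun k k' => by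
    have := congrArg ((Rat.castHom ℝ).mapMatrix (m := n)) (hc (l k) (l k'))
    rwa [map_mul, map_mul] at this) (fun k => hS (l k)) hp
  simp only [h0] at h1 h2
  obtain ⟨f, hf⟩ : ∃ f : Polynomial ℚ,
    f = (.X ^ 2 + 1) * (.X ^ 2 + 3) * ∏ k, (J.map (l k)).charpoly := ⟨_, rfl⟩
  have : NumberField f.SplittingField := ⟨⟩
  have h3 : @Polynomial.IsSplittingField ℚ f.SplittingField _ _ DivisionRing.toRatAlgebra f := by
    convert Polynomial.IsSplittingField.splittingField f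
    exact Subsingleton.elim _ _
  exact ⟨_, _, this, eg_core (fun k => J.map (l k)) hJ hX h1 h2 hf f.SplittingField⟩

/-! ### Block CUBE -/

/-- `Additive (ℂˣ ⧸ algebraic units)`. -/
theorem exists_cl : ∃ (Γ : Type) (_ : AddCommGroup Γ) (cl : ℂ → Γ),
    (∀ z w, z ≠ 0 → w ≠ 0 → cl (z * w) = cl z + cl w) ∧
      ∀ z, z ≠ 0 → (cl z = 0 ↔ IsAlgebraic ℚ z) := by
  classical
  let H : Subgroup ℂˣ :=
    { carrier := {u | IsAlgebraic ℚ (u : ℂ)}
      mul_mem' := fun h h' => h.mul h'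
      one_mem' := isAlgebraic_one
      inv_mem' := fun h => by simpa using h.inv }
  refine ⟨Additive (ℂˣ ⧸ H), inferInstance, fun z => if h : z ≠ 0 then
    Additive.ofMul (QuotientGroup.mk (Units.mk0 z h)) else 0, fun z w hz hw => ?_, fun z hz => ?_⟩
  · simp only [dif_pos hz, dif_pos hw, dif_pos (mul_ne_zero hz hw), Units.mk0_mul,
      QuotientGroup.mk_mul, ofMul_mul]
  · simp only [dif_pos hz, ofMul_eq_zero, QuotientGroup.eq_one_iff]
    rfl

omit [NumberField E] in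
theorem cube_mem {Φ : Set (E →+* ℂ)} {a x : E →+* ℂ} :
    x ∈ fl a Φ ↔ (x ∈ Φ ↔ ¬(x = a ∨ x = conjugate a)) := by
  simp only [fl, Set.mem_symmDiff, Set.mem_insert_iff, Set.mem_singleton_iff]
  tauto

omit [NumberField E] in
theorem Ty.fl {Φ : Set (E →+* ℂ)} (h : Ty Φ) (a : E →+* ℂ) : Ty (fl a Φ) := by
  intro φ
  have hi := involutive_conjugate E
  rw [cube_mem, cube_mem, h φ, hi.eq_iff, hi.injective.eq_iff]
  tauto

omit [NumberField E] in
theorem Ty.compl {Φ : Set (E →+* ℂ)} (h : Ty Φ) : Ty Φᶜ := fun φ => (h φ).not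

omit [NumberField E] in
theorem Ty.diff_fl {Φ : Set (E →+* ℂ)} (h : Ty Φ) {a : E →+* ℂ} (ha : a ∈ Φ) :
    Φ \ GPC72.fl a Φ = {a} := by
  ext x
  have := h a
  rw [Set.mem_sdiff, cube_mem, Set.mem_singleton_iff]
  grind

/-- Induction on the finite set `Φ \ Φ'`. -/
theorem conn {Φ' : Set (E →+* ℂ)} (h' : Ty Φ') {S : Set (E →+* ℂ)} {P : Set (E →+* ℂ) → Prop}
    (hP : ∀ Φ a, Ty Φ → a ∈ Φ → a ∈ S → P (fl a Φ) → P Φ) (h0 : P Φ') {Φ : Set (E →+* ℂ)}
    (h : Ty Φ) (hS : Φ \ Φ' ⊆ S) : P Φ := by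
  generalize hT : Φ \ Φ' = T at hS
  induction T, Set.toFinite T using Set.Finite.induction_on generalizing Φ with
  | empty =>
    have h1 := Set.sdiff_eq_empty.1 hT
    rwa [h1.antisymm fun x hx => not_not.1 fun hn => (h' x).1 (h1 ((h x).2 hn)) hx]
  | @insert a T ha _ ih =>
    have h1 : a ∈ Φ \ Φ' := hT ▸ Set.mem_insert a T
    refine hP Φ a h h1.1 (hS (Set.mem_insert a T)) (ih (h.fl a) (Set.ext fun x => ?_)
      ((Set.subset_insert a T).trans hS))
    have h2 := Set.ext_iff.1 hT x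
    have h3 := (h' a).2 h1.2
    have h4 := h1.1
    rw [Set.mem_sdiff, cube_mem]
    rw [Set.mem_sdiff, Set.mem_insert_iff] at h2
    grind

omit [NumberField E] in
theorem cube_comm (a b : E →+* ℂ) (Φ : Set (E →+* ℂ)) : fl a (fl b Φ) = fl b (fl a Φ) :=
  symmDiff_right_comm _ _ _

theorem cube_const {Γ : Type} [AddCommGroup Γ] {f : Set (E →+* ℂ) → Γ} {b : E →+* ℂ}
    {S : Set (E →+* ℂ)} (h2 : ∀ Φ a, Ty Φ → a ∈ Φ → b ∈ Φ → a ≠ b → a ∈ S →
      f Φ + f (fl a (fl b Φ)) = f (fl b Φ) + f (fl a Φ)) {Φ Φ' : Set (E →+* ℂ)} (h : Ty Φ)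
    (h' : Ty Φ') (hb : b ∈ Φ) (hb' : b ∈ Φ') (hS : Φ \ Φ' ⊆ S) :
    f Φ - f (fl b Φ) = f Φ' - f (fl b Φ') := by
  refine conn h' (S := S \ {b}) (P := fun Φ => b ∈ Φ → f Φ - f (fl b Φ) = f Φ' - f (fl b Φ'))
    (fun Φ a h ha hS ih hb => ?_) (fun _ => rfl) h
    (fun x hx => ⟨hS hx, fun e => hx.2 (e ▸ hb')⟩) hb
  rw [← ih (cube_mem.2 (iff_of_true hb (by
    rintro (rfl | rfl)
    exacts [hS.2 rfl, (h a).1 hb ha]))), cube_comm b a, sub_eq_sub_iff_add_eq_add,
    h2 Φ a h ha hb hS.2 hS.1, add_comm]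

open Classical in
/-- The differences `f Φ - f (fl b Φ)`, `b ∈ Φ`, are constant. -/
theorem cube {Γ : Type} [AddCommGroup Γ] (f : Set (E →+* ℂ) → Γ) (c : Γ) (φ : E →+* ℂ)
    (h1 : ∀ Φ, Ty Φ → f Φ + f Φᶜ = c)
    (h2 : ∀ Φ a b, Ty Φ → a ∈ Φ → b ∈ Φ → a ≠ b → a ≠ φ → a ≠ conjugate φ → b ≠ φ →
      b ≠ conjugate φ → f Φ + f (fl a (fl b Φ)) = f (fl b Φ) + f (fl a Φ)) :
    ∃ d : (E →+* ℂ) → Γ, (∀ Φ b, Ty Φ → b ∈ Φ → f Φ - f (fl b Φ) = d b) ∧
      ∀ Φ, Ty Φ → 8 • f Φ = 4 • c + 2 • ∑ b, (if b ∈ Φ then 1 else -1 : ℤ) • d b := by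
  have hi := involutive_conjugate E
  have A : ∀ b, b ≠ φ → b ≠ conjugate φ → ∀ Φ Φ', Ty Φ → Ty Φ' → b ∈ Φ → b ∈ Φ' →
      (φ ∈ Φ ↔ φ ∈ Φ') → f Φ - f (fl b Φ) = f Φ' - f (fl b Φ') :=
    fun b b1 b2 Φ Φ' h h' hb hb' e => cube_const (S := {a | a ≠ φ ∧ a ≠ conjugate φ})
      (fun Φ a h ha hb hab hS => h2 Φ a b h ha hb hab hS.1 hS.2 b1 b2) h h' hb hb' fun x hx =>
        ⟨fun e' => hx.2 (e' ▸ e.1 (e' ▸ hx.1)), fun e' =>
          hx.2 (e' ▸ (h' φ).2 (mt e.2 ((h φ).1 (e' ▸ hx.1))))⟩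
  have B : ∀ b, b ≠ φ → b ≠ conjugate φ → ∀ Φ Φ', Ty Φ → Ty Φ' → b ∈ Φ → b ∈ Φ' →
      f Φ - f (fl b Φ) = f Φ' - f (fl b Φ') := fun b b1 b2 Φ Φ' h h' hb hb' => by
    by_cases e : φ ∈ Φ ↔ φ ∈ Φ'
    · exact A b b1 b2 Φ Φ' h h' hb hb' e
    have b3 : φ ≠ conjugate b := fun e' => b2 (by rw [e', hi])
    rw [← A b b1 b2 _ Φ' (h.fl b).compl h' (by rw [Set.mem_compl_iff, cube_mem]; simp [hb]) hb'
      (by rw [Set.mem_compl_iff, cube_mem]; simp only [b1.symm, b3]; tauto),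
      show fl b (fl b Φ)ᶜ = Φᶜ from Set.ext fun x => by
        simp only [Set.mem_compl_iff, cube_mem]; tauto, sub_eq_sub_iff_add_eq_add, h1 Φ h,
      add_comm, h1 _ (h.fl b)]
  have C : ∀ b Φ a, Ty Φ → a ∈ Φ → b ∈ Φ → a ≠ b →
      f Φ + f (fl a (fl b Φ)) = f (fl b Φ) + f (fl a Φ) := fun b Φ a h ha hb hab => by
    have m : ∀ {a b}, a ∈ Φ → b ∈ Φ → a ≠ b → b ∈ fl a Φ := fun {a b} ha hb hab =>
      cube_mem.2 (iff_of_true hb (by
        rintro (rfl | rfl)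
        exacts [hab rfl, (h a).1 hb ha]))
    by_cases e : b ≠ φ ∧ b ≠ conjugate φ
    · rw [cube_comm, add_comm (f (fl b Φ)), ← sub_eq_sub_iff_add_eq_add]
      exact B b e.1 e.2 _ _ h (h.fl a) hb (m ha hb hab)
    · have := h φ
      rw [← sub_eq_sub_iff_add_eq_add]
      exact B a (by grind) (by grind) _ _ h (h.fl b) ha (m hb ha hab.symm)
  obtain ⟨d, hd⟩ : ∃ d : (E →+* ℂ) → Γ, ∀ Φ b, Ty Φ → b ∈ Φ → f Φ - f (fl b Φ) = d b :=
    ⟨fun b => if e : ∃ Φ, Ty Φ ∧ b ∈ Φ then f e.choose - f (fl b e.choose) else 0,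
      fun Φ b h hb => by
        have e : ∃ Φ, Ty Φ ∧ b ∈ Φ := ⟨Φ, h, hb⟩
        simp only [dif_pos e]
        exact cube_const (S := Set.univ) (fun Φ a h ha hb hab _ => C b Φ a h ha hb hab) h
          e.choose_spec.1 hb e.choose_spec.2 (Set.subset_univ _)⟩
  refine ⟨d, hd, fun Φ h => ?_⟩
  have D := conn h.compl (S := Set.univ) (P := fun Ψ =>
    4 • f Ψ - ∑ b, (if b ∈ Ψ then 1 else -1 : ℤ) • d b =
      4 • f Φᶜ + ∑ b, (if b ∈ Φ then 1 else -1 : ℤ) • d b) (fun Ψ a hΨ ha _ ih => by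
      have a1 : conjugate a ∉ Ψ := fun e => (hΨ a).1 e ha
      have a2 : a ∉ fl a Ψ := by rw [cube_mem]; simp [ha]
      have a3 : conjugate a ∈ fl a Ψ := by rw [cube_mem]; simp [a1]
      have a4 := hd _ _ (hΨ.fl a) a3
      rw [show fl (conjugate a) (fl a Ψ) = Ψ from Set.ext fun x => by
        simp only [cube_mem, hi a]; tauto] at a4
      rw [← ih, sub_eq_sub_iff_sub_eq_sub, ← Finset.sum_sub_distrib, Fintype.sum_eq_add a
        (conjugate a) (fun e => a1 (e ▸ ha)) fun x hx => by simp only [Int.reduceNeg, ite_smul, one_smul, neg_smul, cube_mem, hx.1, hx.2, or_self, not_false_eq_true, iff_true, sub_self],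
        if_pos ha, if_neg a1, if_neg a2, if_pos a3, ← a4, ← hd _ _ hΨ ha]
      module) (by
      rw [sub_eq_add_neg, ← Finset.sum_neg_distrib]
      exact congrArg _ (Finset.sum_congr rfl fun b _ => by by_cases hb : b ∈ Φ <;> simp [hb]))
    h (Set.subset_univ _)
  rw [← h1 Φ h]
  linear_combination (norm := module) D

/-! ### Block MONO -/

theorem mono_tw {Φ : Set (E →+* ℂ)} {p : (E →+* ℂ) → ℂ} (h : PT d Φ p) (γ : E ≃ₐ[ℚ] E) :
    PT d {φ | φ.comp (γ : E →+* E) ∈ Φ} fun φ => p (φ.comp (γ : E →+* E)) := by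
  obtain ⟨N, A, b, h, q⟩ := h
  exact ⟨N, A, _, h.twist γ, fun φ => q.ne _, fun φ => q.mem _, fun φ => q.leg _⟩

theorem mono_cl : ∃ (Γ : Type) (_ : AddCommGroup Γ) (cl : ℂ → Γ),
    (∀ z w, z ≠ 0 → w ≠ 0 → cl (z * w) = cl z + cl w) ∧
    (∀ z w, z ≠ 0 → w ≠ 0 → cl (z / w) = cl z - cl w) ∧
    (∀ z (k : ℤ), z ≠ 0 → cl (z ^ k) = k • cl z) ∧
      ∀ z, z ≠ 0 → (cl z = 0 ↔ IsAlgebraic ℚ z) := by
  obtain ⟨Γ, _, cl, hm, h0⟩ := exists_cl
  have hd : ∀ z w, z ≠ 0 → w ≠ 0 → cl (z / w) = cl z - cl w := fun z w hz hw => by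
    rw [eq_sub_iff_add_eq, ← hm _ _ (div_ne_zero hz hw) hw, div_mul_cancel₀ _ hw]
  refine ⟨Γ, inferInstance, cl, hm, hd, fun z k hz => ?_, h0⟩
  induction k using Int.induction_on with
  | zero => simpa using (h0 1 one_ne_zero).2 isAlgebraic_one
  | succ k ih => rw [zpow_add_one₀ hz, hm _ _ (zpow_ne_zero _ hz) hz, ih, add_smul, one_smul]
  | pred k ih =>
    rw [zpow_sub_one₀ hz, ← div_eq_mul_inv, hd _ _ (zpow_ne_zero _ hz) hz, ih, sub_smul, one_smul]

/-- Choose periods `P Φ` for all types (`hF`, `exists_per`), `r = P Φ₀ / P (fl b₀ Φ₀)`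
(`Per.leg`, `adj_lower`, `Ty.diff_fl`).  `cube` for `f Φ = cl (P Φ φ)`: `h1` by `IsCM.twist` with
`IsCMField.complexConj`, `iso`, `Per.leg`; `h2` by `hR` at `φ` or at `conjugate φ` and `Per.leg`.
For `ψ.comp γ = φ` twist `Φ₀` and `fl b₀ Φ₀` by `γ.symm`: `d (b₀.comp γ) = cl (r ψ)`; reindex the
sum along the bijections `γ ↦ b₀.comp γ`, `γ ↦ φ.comp γ.symm` (`exists_tw`, `sg_iff`). -/
theorem mono [IsCMField E] [IsGalois ℚ E] (hF : Fam E d) (hR : Rel E d) {Φ₀ : Set (E →+* ℂ)}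
    (h₀ : Ty Φ₀) {b₀ : E →+* ℂ} (hb : b₀ ∈ Φ₀) : ∃ r : (E →+* ℂ) → ℂ, (∀ φ, r φ ≠ 0) ∧
      (∀ φ, IsAlgebraic ℚ (r φ * r (conjugate φ))) ∧
      (∀ K : IntermediateField ℚ ℂ, (∀ φ, IsAlgebraic K (r φ)) →
        (d : Cardinal) ≤ Algebra.trdeg ℚ K) ∧
      ∀ Φ p φ, PT d Φ p → IsAlgebraic ℚ (p φ ^ 4 /
        mon (fun o : Option (E →+* ℂ) => o.elim (2 * Real.pi * I) r) (ex 2 b₀ Φ φ)) := by
  classical
  obtain ⟨Γ, _, cl, hm, hd, hz, h0⟩ := mono_cl
  have hex : ∀ Φ : Set (E →+* ℂ), Ty Φ → ∃ p, PT d Φ p := fun Φ h => by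
    obtain ⟨N, A, b, h⟩ := hF Φ h
    obtain ⟨p, q⟩ := exists_per h
    exact ⟨p, N, A, b, h, q⟩
  choose! P hP using hex
  have ne : ∀ {Φ : Set (E →+* ℂ)} {p}, PT d Φ p → ∀ φ, p φ ≠ 0 := fun ⟨_, _, _, _, q⟩ => q.ne
  have ty : ∀ {Φ : Set (E →+* ℂ)} {p}, PT d Φ p → Ty Φ := fun ⟨_, _, _, h, _⟩ => h.conj_iff
  have is : ∀ {Φ : Set (E →+* ℂ)} {p p'}, PT d Φ p → PT d Φ p' → ∀ φ, cl (p φ) = cl (p' φ) :=
    fun h h' φ => by
      rw [← sub_eq_zero, ← hd _ _ (ne h φ) (ne h' φ), h0 _ (div_ne_zero (ne h φ) (ne h' φ))]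
      exact iso h h' φ
  have lg : ∀ {Φ : Set (E →+* ℂ)} {p}, PT d Φ p → ∀ φ,
      cl (p φ) = cl (2 * Real.pi * I) - cl (p (conjugate φ)) := fun h φ => by
    have n2 := mul_ne_zero (ne h φ) (ne h (conjugate φ))
    rw [eq_sub_iff_add_eq, ← hm _ _ (ne h _) (ne h _), ← sub_eq_zero,
      ← hd _ _ n2 two_pi_I_ne_zero, h0 _ (div_ne_zero n2 two_pi_I_ne_zero)]
    obtain ⟨_, _, _, _, q⟩ := h
    exact q.leg φ
  have q₁ := hP _ h₀
  have q₂ := hP _ (h₀.fl b₀)
  have nr : ∀ φ, P Φ₀ φ / P (fl b₀ Φ₀) φ ≠ 0 := fun φ => div_ne_zero (ne q₁ φ) (ne q₂ φ)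
  refine ⟨fun φ => P Φ₀ φ / P (fl b₀ Φ₀) φ, nr, fun φ => ?_, fun K hK => ?_, fun Φ p φ hp => ?_⟩
  · rw [← h0 _ (mul_ne_zero (nr _) (nr _)), hm _ _ (nr _) (nr _), hd _ _ (ne q₁ _) (ne q₂ _),
      hd _ _ (ne q₁ _) (ne q₂ _), lg q₁ φ, lg q₂ φ]
    abel
  · obtain ⟨_, _, _, h₁, q₁⟩ := q₁
    obtain ⟨_, _, _, h₂, q₂⟩ := q₂
    exact adj_lower h₁ h₂ (by rw [h₀.diff_fl hb, Set.ncard_singleton]) q₁ q₂ K hK
  have rel : ∀ (Φ : Set (E →+* ℂ)) a b ψ, Ty Φ → a ∈ Φ → b ∈ Φ → ψ ∈ Φ → a ≠ b → a ≠ ψ → b ≠ ψ →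
      cl (P Φ ψ) + cl (P (fl a (fl b Φ)) ψ) = cl (P (fl b Φ) ψ) + cl (P (fl a Φ) ψ) :=
    fun Φ a b ψ h ha hb hψ ab aψ bψ => by
      have k₁ := hP _ h
      have k₂ := hP _ (h.fl b)
      have k₃ := hP _ (h.fl a)
      have k₄ := hP _ ((h.fl b).fl a)
      have n₁ := mul_ne_zero (ne k₁ ψ) (ne k₄ ψ)
      have n₂ := mul_ne_zero (ne k₂ ψ) (ne k₃ ψ)
      rw [← hm _ _ (ne k₁ ψ) (ne k₄ ψ), ← hm _ _ (ne k₂ ψ) (ne k₃ ψ), ← sub_eq_zero,
        ← hd _ _ n₁ n₂, h0 _ (div_ne_zero n₁ n₂)]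
      exact hR Φ a b ψ _ _ _ _ ha hb hψ ab aψ.symm bψ.symm k₁ k₂ k₃ k₄
  obtain ⟨D, hD, hf⟩ := cube (fun Φ => cl (P Φ φ)) (cl (2 * Real.pi * I)) φ (fun Φ h => by
      have e : ∀ ψ : E →+* ℂ, ψ.comp (((IsCMField.complexConj E).restrictScalars ℚ : E ≃ₐ[ℚ] E) :
          E →+* E) = conjugate ψ := fun ψ =>
        RingHom.ext fun x => IsCMField.complexEmbedding_complexConj E ψ x
      have k := mono_tw (hP _ h) ((IsCMField.complexConj E).restrictScalars ℚ)
      simp only [e, h _] at k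
      rw [is (hP _ h.compl) k φ, lg (hP _ h) φ, sub_add_cancel])
    (fun Φ a b h ha hb ab a₁ a₂ b₁ b₂ => by
      by_cases hφ : φ ∈ Φ
      · exact rel Φ a b φ h ha hb hφ ab a₁ b₁
      · have := rel Φ a b _ h ha hb ((h φ).2 hφ) ab a₂ b₂
        rw [lg (hP _ h) φ, lg (hP _ (h.fl b)) φ, lg (hP _ (h.fl a)) φ,
          lg (hP _ ((h.fl b).fl a)) φ, sub_add_sub_comm, this, sub_add_sub_comm])
  have c₁ : ∀ (ψ : E →+* ℂ) (γ : E ≃ₐ[ℚ] E),
      (ψ.comp (γ : E →+* E)).comp (γ.symm : E →+* E) = ψ := fun ψ γ => by ext; simp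
  have c₂ : ∀ (ψ : E →+* ℂ) (γ : E ≃ₐ[ℚ] E),
      (ψ.comp (γ.symm : E →+* E)).comp (γ : E →+* E) = ψ := fun ψ γ => by ext; simp
  have b₁ : ∀ ψ : E →+* ℂ, Function.Bijective fun γ : E ≃ₐ[ℚ] E => ψ.comp (γ : E →+* E) :=
    fun ψ => ⟨fun γ γ' h => AlgEquiv.ext fun x => ψ.injective (RingHom.congr_fun h x),
      exists_tw ψ⟩
  have hDr : ∀ γ : E ≃ₐ[ℚ] E, D (b₀.comp (γ : E →+* E)) =
      cl (P Φ₀ (φ.comp (γ.symm : E →+* E)) / P (fl b₀ Φ₀) (φ.comp (γ.symm : E →+* E))) :=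
    fun γ => by
      have k₁ := mono_tw q₁ γ.symm
      have k₂ := mono_tw q₂ γ.symm
      have i : ∀ ψ χ : E →+* ℂ, ψ.comp (γ.symm : E →+* E) = χ ↔ ψ = χ.comp (γ : E →+* E) :=
        fun ψ χ => ⟨fun h => by rw [← h, c₂], fun h => by rw [h, c₁]⟩
      have e : {ψ : E →+* ℂ | ψ.comp (γ.symm : E →+* E) ∈ fl b₀ Φ₀} =
          fl (b₀.comp (γ : E →+* E)) {ψ | ψ.comp (γ.symm : E →+* E) ∈ Φ₀} := by
        ext ψ
        simp only [fl, Set.mem_symmDiff, Set.mem_ofPred_eq, Set.mem_insert_iff,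
          Set.mem_singleton_iff, i]
        rfl
      rw [e] at k₂
      rw [← hD _ _ (ty k₁) (show _ ∈ Φ₀ by rwa [c₁]), hd _ _ (ne q₁ _) (ne q₂ _),
        is (hP _ (ty k₁)) k₁, is (hP _ (ty k₂)) k₂]
  have hpr : ∀ (s : Finset (E →+* ℂ)) (y : (E →+* ℂ) → ℂ), (∀ i, y i ≠ 0) →
      cl (∏ i ∈ s, y i) = ∑ i ∈ s, cl (y i) := fun s y hy => by
    induction s using Finset.induction_on with
    | empty => simpa using (h0 1 one_ne_zero).2 isAlgebraic_one
    | insert a s ha ih =>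
      rw [Finset.prod_insert ha, Finset.sum_insert ha,
        hm _ _ (hy a) (Finset.prod_ne_zero_iff.2 fun i _ => hy i), ih]
  have nm : ∀ ψ, (P Φ₀ ψ / P (fl b₀ Φ₀) ψ) ^ (if Sg b₀ Φ φ ψ then 1 else -1 : ℤ) ≠ 0 :=
    fun ψ => zpow_ne_zero _ (nr ψ)
  have np := Finset.prod_ne_zero_iff.2 fun ψ (_ : ψ ∈ Finset.univ) => nm ψ
  have n2 := zpow_ne_zero 2 two_pi_I_ne_zero
  have n4 := zpow_ne_zero 4 (ne hp φ)
  have nn := div_ne_zero n4 (mul_ne_zero n2 np)
  have hs : ∑ ψ, cl ((P Φ₀ ψ / P (fl b₀ Φ₀) ψ) ^ (if Sg b₀ Φ φ ψ then 1 else -1 : ℤ)) =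
      ∑ b, (if b ∈ Φ then 1 else -1 : ℤ) • D b := by
    rw [← ((b₁ φ).comp AlgEquiv.symm_bijective).sum_comp, ← (b₁ b₀).sum_comp]
    exact Finset.sum_congr rfl fun γ _ => by
      simp only [Function.comp, hz _ _ (nr _), hDr, sg_iff (c₂ φ γ)]
  simp only [mon, Fintype.prod_option, ex, Option.elim]
  refine IsAlgebraic.of_pow two_pos ?_
  rw [← zpow_ofNat (p φ), ← zpow_natCast, ← h0 _ (zpow_ne_zero _ nn), hz _ _ nn,
    hd _ _ n4 (mul_ne_zero n2 np), hm _ _ n2 np, hpr _ _ nm, hs, hz _ _ (ne hp φ),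
    hz _ _ two_pi_I_ne_zero, is hp (hP _ (ty hp)), ← sub_eq_zero.2 (hf Φ (ty hp))]
  module

/-! ### Block RANK -/

/-- As `hull_eq`; `LinearMap.finrank_range_dualMap_eq_finrank_range`. -/
theorem hull_cm {J : Matrix n n ℝ} (h : Cm J) : finrank ℚ (hull J) =
    finrank ℚ (Submodule.span ℚ (Set.range fun x : n × n => J x.1 x.2)) := by
  let e : Module.Dual ℚ (n × n → ℚ) →ₗ[ℚ] Matrix n n ℚ :=
    { toFun := fun φ => Matrix.of fun i j => φ (Pi.single (i, j) 1)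
      map_add' := fun _ _ => rfl
      map_smul' := fun _ _ => rfl }
  have he : Function.Injective e := fun φ φ' hφ => (Pi.basisFun ℚ _).ext fun x => by
    simpa [e] using congrFun (congrFun hφ x.1) x.2
  let A := Fintype.linearCombination ℚ fun x : n × n => J x.1 x.2
  have h1 : ∀ l : ℝ →ₗ[ℚ] ℚ, e (A.dualMap l) = J.map l := fun l => by
    ext i j
    simp [e, A]
  have h2 : hull J = (LinearMap.range A.dualMap).map e := by
    refine le_antisymm (sInf_le ⟨?_, (GPC42.mem_span_iff J _).2 fun l => ⟨_, ⟨l, rfl⟩, h1 l⟩⟩) ?_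
    · rintro _ ⟨_, ⟨l, rfl⟩, rfl⟩ _ ⟨_, ⟨l', rfl⟩, rfl⟩
      rw [h1, h1, h l l', sub_self]
      exact zero_mem _
    · rintro _ ⟨_, ⟨l, rfl⟩, rfl⟩
      rw [h1]
      exact (GPC42.mem_span_iff J _).1 (GPC42.mem_hull J) l
  rw [h2, ← (Submodule.equivMapOfInjective _ he _).finrank_eq,
    LinearMap.finrank_range_dualMap_eq_finrank_range, Fintype.range_linearCombination]

/-- The vectors `γ ∘ T.w i` span `n → E` (`exists_tw`, `finrank_bc` with `b₀.toAlgebra`), and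
`-I • J` has them as eigenvectors with eigenvalues `± 1`. -/
theorem Ev.exists_m [IsGalois ℚ E] {J : Matrix n n ℝ} (T : Ev J E ι) (b₀ : E →+* ℂ) :
    ∃ μ : Matrix n n E, (∀ j k, (J j k : ℂ) = I * b₀ (μ j k)) ∧ ∀ (i : ι) (φ ψ : E →+* ℂ),
      μ.map ψ *ᵥ (fun j => φ (T.w i j)) =
        (ex 0 b₀ (T.Φ i) φ (some ψ) : ℂ) • fun j => φ (T.w i j) := by
  classical
  let _ := b₀.toAlgebra
  obtain ⟨π, hπ⟩ := (Algebra.linearMap E ℂ).exists_leftInverse_of_injective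
    (LinearMap.ker_eq_bot.2 b₀.injective)
  have h0 : ∀ z x, π (z * b₀ x) = π z * x := fun z x => by
    rw [mul_comm, mul_comm (π z)]
    exact π.map_smul x z
  have h1 : π 1 = 1 := by simpa using LinearMap.congr_fun hπ 1
  have h2 : ∀ (i : ι) (φ ψ : E →+* ℂ),
      (Matrix.of fun j k => π (-I * J j k)).map ψ *ᵥ (fun j => φ (T.w i j)) =
        (ex 0 b₀ (T.Φ i) φ (some ψ) : ℂ) • fun j => φ (T.w i j) := by
    intro i φ ψ
    obtain ⟨γ, hγ⟩ := exists_tw ψ φ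
    funext j
    have h3 := congrArg (fun v => ψ (π (-I * v j))) (T.eig i (b₀.comp (γ : E →+* E)))
    simp only [mulVec, dotProduct, map_apply, RingHom.comp_apply, Finset.mul_sum, ← mul_assoc,
      map_sum, h0, map_mul, Pi.smul_apply, smul_eq_mul] at h3
    simp only [mulVec, dotProduct, map_apply, of_apply, ex, Option.elim, sg_iff hγ, Pi.smul_apply,
      smul_eq_mul]
    subst hγ
    refine h3.trans ?_
    split_ifs
    · simp [h1]
    · simp only [mul_neg, neg_mul, I_mul_I, neg_neg, map_neg, h1, map_one, RingHom.coe_coe, one_mul, Int.reduceNeg, Int.cast_neg, Int.cast_one, RingHom.coe_comp, Function.comp_apply]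
  refine ⟨_, fun j k => ?_, h2⟩
  have h3 : J.map ofReal = I • (Matrix.of fun j k => π (-I * J j k)).map b₀ :=
    ext_span T.top fun q => by
      obtain ⟨γ, hγ⟩ := exists_tw b₀ q.2
      rw [smul_mulVec, h2, T.eig, smul_smul]
      simp only [ex, Option.elim, sg_iff hγ, hγ]
      split_ifs <;> simp
  exact congrFun (congrFun h3 j) k

/-- A rational basis of the span stays independent (`vec_perp`, `lin_cast`). -/
theorem rank_vec {κ : Type} (x : κ → E) : finrank ℚ (Submodule.span ℚ (Set.range x)) =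
    finrank ℂ (Submodule.span ℂ (Set.range fun k => fun ψ : E →+* ℂ => ψ (x k))) := by
  let β := Module.finBasis ℚ E
  let L := Fintype.linearCombination ℂ fun j (ψ : E →+* ℂ) => ψ (β j)
  have hL : Function.Injective L := (injective_iff_map_eq_zero L).2 fun c hc =>
    vec_perp β fun ψ => by simpa only [L, Fintype.linearCombination_apply, Finset.sum_apply, Pi.smul_apply, smul_eq_mul, Pi.zero_apply] using congrFun hc ψ
  rw [← LinearEquiv.finrank_map_eq β.equivFun, Submodule.map_span, ← Set.range_comp, ← finrank_bc,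
    show bc (Submodule.span ℚ (Set.range _)) = _ from lin_span _,
    (Submodule.equivMapOfInjective _ hL _).finrank_eq, Submodule.map_span, ← Set.range_comp]
  refine congrArg (fun f => finrank ℂ (Submodule.span ℂ (Set.range f))) (funext₂ fun k ψ => ?_)
  conv_rhs => rw [← β.sum_repr (x k)]
  simp only [L, LinearEquiv.coe_coe, Function.comp_apply, Basis.equivFun_apply, Fintype.linearCombination_apply, Finset.sum_apply, Pi.smul_apply, smul_eq_mul, Rat.smul_def, map_sum, map_mul, map_ratCast]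

theorem Ev.span_m {J : Matrix n n ℝ} (T : Ev J E ι) {b₀ : E →+* ℂ} {μ : Matrix n n E}
    (h2 : ∀ (i : ι) (φ ψ : E →+* ℂ), μ.map ψ *ᵥ (fun j => φ (T.w i j)) =
      (ex 0 b₀ (T.Φ i) φ (some ψ) : ℂ) • fun j => φ (T.w i j)) :
    Submodule.span ℂ (Set.range fun (x : n × n) (ψ : E →+* ℂ) => ψ (μ x.1 x.2)) =
      Submodule.span ℂ (Set.range fun (q : ι × (E →+* ℂ)) ψ =>
        (ex 0 b₀ (T.Φ q.1) q.2 (some ψ) : ℂ)) := by
  refine le_antisymm (Submodule.span_le.2 ?_) (Submodule.span_le.2 ?_)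
  · rintro _ ⟨⟨j, k⟩, rfl⟩
    let f : (n → ℂ) →ₗ[ℂ] (E →+* ℂ) → ℂ :=
      LinearMap.pi fun ψ => LinearMap.proj j ∘ₗ (μ.map ψ).mulVecLin
    have h3 : ⊤ ≤ (Submodule.span ℂ (Set.range fun (q : ι × (E →+* ℂ)) ψ =>
        (ex 0 b₀ (T.Φ q.1) q.2 (some ψ) : ℂ))).comap f := by
      rw [← T.top, Submodule.span_le]
      rintro _ ⟨q, rfl⟩
      have := Submodule.smul_mem _ (q.2 (T.w q.1 j)) (Submodule.subset_span (R := ℂ)
        (Set.mem_range_self (f := fun (q : ι × (E →+* ℂ)) ψ =>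
          (ex 0 b₀ (T.Φ q.1) q.2 (some ψ) : ℂ)) q))
      refine Submodule.mem_comap.2 (by
        convert this using 1
        funext ψ
        simp [f, h2, mul_comm])
    have := Submodule.mem_comap.1 (h3 (Submodule.mem_top (x := Pi.single k 1)))
    rwa [show f (Pi.single k 1) = fun ψ => ψ (μ j k) from funext fun ψ => by simp [f]] at this
  · rintro _ ⟨⟨i, φ⟩, rfl⟩
    obtain ⟨j, hj⟩ := Function.ne_iff.1 (T.ne i)
    refine (Submodule.smul_mem_iff _ ((_root_.map_ne_zero φ).2 hj)).1 ?_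
    have := Submodule.sum_mem _ fun k (_ : k ∈ Finset.univ) => Submodule.smul_mem _ (φ (T.w i k))
      (Submodule.subset_span (R := ℂ) (Set.mem_range_self
        (f := fun (x : n × n) (ψ : E →+* ℂ) => ψ (μ x.1 x.2)) (j, k)))
    convert this using 1
    funext ψ
    simpa only [Pi.smul_apply, smul_eq_mul, mul_comm, Finset.sum_apply, mulVec, dotProduct, map_apply] using (congrFun (h2 i φ ψ) j).symm

/-- `hull_cm`, `Ev.exists_m`, `rank_vec` for the entries of `μ`; the complex span of the vectors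
`ψ ↦ ψ (μ j k)` is the span of the sign vectors (`T.ne`, `T.top`); `finrank_bc`. -/
theorem Ev.rank [IsGalois ℚ E] {J : Matrix n n ℝ} (T : Ev J E ι) (h : Cm J) (b₀ : E →+* ℂ) :
    finrank ℚ (hull J) = finrank ℚ (T.U 0 b₀) := by
  obtain ⟨μ, h1, h2⟩ := T.exists_m b₀
  have e1 : finrank ℚ (Submodule.span ℚ (Set.range fun x : n × n => J x.1 x.2)) =
      finrank ℚ (Submodule.span ℚ (Set.range fun x : n × n => μ x.1 x.2)) := by
    let f : E →ₗ[ℚ] ℂ := LinearMap.mulLeft ℚ I ∘ₗ b₀.toRatAlgHom.toLinearMap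
    have hf : Function.Injective f := (mul_right_injective₀ I_ne_zero).comp b₀.injective
    rw [(Submodule.equivMapOfInjective _ hf _).finrank_eq, (Submodule.equivMapOfInjective
      ofRealHom.toRatAlgHom.toLinearMap ofReal_injective _).finrank_eq, Submodule.map_span,
      Submodule.map_span, ← Set.range_comp, ← Set.range_comp]
    exact congrArg (fun f => finrank ℚ (Submodule.span ℚ (Set.range f))) (funext fun x => h1 _ _)
  let z : ((E →+* ℂ) → ℂ) →ₗ[ℂ] Option (E →+* ℂ) → ℂ :=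
    LinearMap.pi fun o => o.elim 0 fun ψ => LinearMap.proj ψ
  have hz : Function.Injective z := fun u v huv => funext fun ψ => congrFun huv (some ψ)
  rw [hull_cm h, e1, rank_vec, T.span_m h2, (Submodule.equivMapOfInjective _ hz _).finrank_eq,
    Submodule.map_span, ← Set.range_comp, ← finrank_bc (F := ℚ), Ev.U,
    show bc (Submodule.span ℚ (Set.range _)) = _ from lin_span _]
  refine congrArg (fun f => finrank ℂ (Submodule.span ℂ (Set.range f))) (funext₂ fun q o => ?_)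
  cases o
  · simp [z, cst, ex]
  · simp [z, cst]

/-- The rational points of the complex span of the characters. -/
theorem Ev.key [IsGalois ℚ E] {J : Matrix n n ℝ} (T : Ev J E ι) {b₀ : E →+* ℂ} (β : Basis m ℚ E)
    {u : Option (E →+* ℂ) → ℚ} (hu : u ∈ T.U 0 b₀) : ∃ c : m → ℂ,
      (∀ ψ : E →+* ℂ, ∑ l, c l * ψ (β l) = u (some ψ)) ∧ ∀ π : ℂ →ₗ[ℚ] ℚ,
        ∃ v ∈ Submodule.span ℚ (Set.range fun x : n × n => J x.1 x.2),
          (v : ℂ) = I * b₀ (∑ l, π (c l) • β l) := by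
  obtain ⟨μ, h1, h2⟩ := T.exists_m b₀
  have h3 : (fun ψ => (u (some ψ) : ℂ)) ∈
      Submodule.span ℂ (Set.range fun (x : n × n) (ψ : E →+* ℂ) => ψ (μ x.1 x.2)) := by
    rw [T.span_m h2]
    induction hu using Submodule.span_induction with
    | mem _ h =>
      obtain ⟨q, rfl⟩ := h
      exact Submodule.subset_span ⟨q, by simp [cst]⟩
    | zero => simp only [Pi.zero_apply, Rat.cast_zero]; exact Submodule.zero_mem _
    | add x y _ _ hx hy => simp only [Pi.add_apply, Rat.cast_add]; exact Submodule.add_mem _ hx hy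
    | smul a x _ hx =>
      simp only [Pi.smul_apply, smul_eq_mul, Rat.cast_mul]
      exact Submodule.smul_mem _ (a : ℂ) hx
  obtain ⟨a, ha⟩ := (Submodule.mem_span_range_iff_exists_fun ℂ).1 h3
  have e : ∀ (ψ : E →+* ℂ) x, ψ x = ∑ l, β.repr x l * ψ (β l) := fun ψ x => by
    conv_lhs => rw [← β.sum_repr x]
    simp only [Rat.smul_def, map_sum, map_mul, map_ratCast]
  refine ⟨fun l => ∑ x, β.repr (μ x.1 x.2) l • a x, fun ψ => ?_, fun π => ⟨∑ x, π (a x) • J x.1 x.2,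
    Submodule.sum_mem _ fun x _ => Submodule.smul_mem _ _ (Submodule.subset_span ⟨x, rfl⟩), ?_⟩⟩
  · rw [← congrFun ha ψ, Finset.sum_apply]
    simp only [Finset.sum_mul, Pi.smul_apply, smul_eq_mul, Rat.smul_def]
    rw [Finset.sum_comm]
    refine Finset.sum_congr rfl fun x _ => ?_
    rw [e ψ (μ _ _), Finset.mul_sum]
    exact Finset.sum_congr rfl fun l _ => by ring
  · simp only [map_sum, map_smul, Finset.sum_smul, ofReal_sum, map_rat_smul, Finset.mul_sum]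
    rw [Finset.sum_comm]
    refine Finset.sum_congr rfl fun x _ => ?_
    rw [Rat.smul_def, ofReal_mul, ofReal_ratCast, h1, e b₀ (μ _ _), Finset.mul_sum, Finset.mul_sum]
    refine Finset.sum_congr rfl fun l _ => ?_
    rw [Rat.smul_def, smul_eq_mul, Rat.cast_mul]
    ring

theorem Ev.key' [IsGalois ℚ E] {J : Matrix n n ℝ} (T : Ev J E ι) {b₀ : E →+* ℂ} (β : Basis m ℚ E)
    {u : Option (E →+* ℂ) → ℚ} (h0 : u none = 0) {c : m → ℂ}
    (hc : ∀ ψ : E →+* ℂ, ∑ l, c l * ψ (β l) = u (some ψ)) (hv : ∀ π : ℂ →ₗ[ℚ] ℚ,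
      ∃ v ∈ Submodule.span ℚ (Set.range fun x : n × n => J x.1 x.2),
        (v : ℂ) = I * b₀ (∑ l, π (c l) • β l)) : u ∈ T.U 0 b₀ := by
  obtain ⟨μ, h1, h2⟩ := T.exists_m b₀
  have h3 : c ∈ bc (Submodule.span ℚ (Set.range fun (x : n × n) l => β.repr (μ x.1 x.2) l)) :=
    (mem_bc _ _).2 fun π => by
      obtain ⟨v, hv, e⟩ := hv π
      obtain ⟨a, rfl⟩ := (Submodule.mem_span_range_iff_exists_fun ℚ).1 hv
      have e' : ∑ x, a x • μ x.1 x.2 = ∑ l, π (c l) • β l :=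
        b₀.injective (mul_left_cancel₀ I_ne_zero (by
          rw [← e, map_sum, ofReal_sum, Finset.mul_sum]
          exact Finset.sum_congr rfl fun x _ => by simp [Rat.smul_def, h1 x.1, mul_left_comm]))
      refine (Submodule.mem_span_range_iff_exists_fun ℚ).2 ⟨a, funext fun l => ?_⟩
      simpa only [Finset.sum_apply, Pi.smul_apply, smul_eq_mul, map_sum, map_smul, Finsupp.coe_finsetSum, Finsupp.coe_smul, Basis.repr_self, Finsupp.smul_single, mul_one, Finsupp.single_apply, Finset.sum_ite_eq', Finset.mem_univ, ↓ reduceIte] using congrArg (β.repr · l) e'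
  rw [show bc (Submodule.span ℚ (Set.range _)) = _ from lin_span _] at h3
  obtain ⟨a, rfl⟩ := (Submodule.mem_span_range_iff_exists_fun ℂ).1 h3
  have h4 : (fun ψ => (u (some ψ) : ℂ)) ∈
      Submodule.span ℂ (Set.range fun (x : n × n) (ψ : E →+* ℂ) => ψ (μ x.1 x.2)) := by
    refine (Submodule.mem_span_range_iff_exists_fun ℂ).2 ⟨a, funext fun ψ => ?_⟩
    rw [← hc]
    simp only [Finset.sum_apply, Finset.sum_mul, Pi.smul_apply, smul_eq_mul]
    rw [Finset.sum_comm]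
    refine Finset.sum_congr rfl fun x _ => ?_
    conv_lhs => rw [← β.sum_repr (μ _ _)]
    simp only [Rat.smul_def, map_sum, map_mul, map_ratCast, Finset.mul_sum, mul_assoc]
  rw [T.span_m h2] at h4
  obtain ⟨π, hπ⟩ := (Algebra.linearMap ℚ ℂ).exists_leftInverse_of_injective
    (LinearMap.ker_eq_bot.2 (algebraMap ℚ ℂ).injective)
  have h5 : ∀ q : ℚ, π q = q := fun q => LinearMap.congr_fun hπ q
  have h6 : ∀ f ∈ Submodule.span ℂ (Set.range fun (q : ι × (E →+* ℂ)) ψ =>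
      (ex 0 b₀ (T.Φ q.1) q.2 (some ψ) : ℂ)),
      (fun o : Option (E →+* ℂ) => o.elim 0 f) ∈ bc (T.U 0 b₀) := fun f hf => by
    induction hf using Submodule.span_induction with
    | mem _ h =>
      obtain ⟨q, rfl⟩ := h
      exact Submodule.subset_span ⟨_, Submodule.subset_span ⟨q, rfl⟩, funext fun o => by
        cases o
        exacts [by simp [cst, ex], by simp [cst]]⟩
    | zero => convert Submodule.zero_mem _ using 2 with o; cases o <;> rfl
    | add x y _ _ hx hy => convert Submodule.add_mem _ hx hy using 2 with o; cases o <;> simp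
    | smul a x _ hx => convert Submodule.smul_mem _ a hx using 2 with o; cases o <;> simp
  convert (mem_bc _ _).1 (h6 _ h4) π using 2 with o
  cases o <;> simp only [h0, Option.elim_none, map_zero, Option.elim_some, h5]

/-! ### Block SPLIT -/

/-- Components of the eigenvectors. -/
def split_pr {J : Matrix n n ℝ} {J' : Matrix m m ℝ} (T : Ev J E ι) {f : m → n}
    (hf : Function.Injective f) (hJ : ∀ (v : n → ℂ) (c : ℂ), J.map ofReal *ᵥ v = c • v →
      J'.map ofReal *ᵥ (v ∘ f) = c • (v ∘ f)) {κ : Type} (t : κ → ι)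
    (h0 : ∀ k, T.w (t k) ∘ f ≠ 0) (h1 : ∀ i, T.w i ∘ f ≠ 0 → ∃ k, t k = i) : Ev J' E κ where
  w k := T.w (t k) ∘ f
  Φ k := T.Φ (t k)
  ne := h0
  ty k := T.ty (t k)
  eig k φ := hJ _ _ (T.eig (t k) φ)
  top := by
    have h2 := congrArg (Submodule.map (LinearMap.funLeft ℂ ℂ f)) T.top
    rw [Submodule.map_span, Submodule.map_top, LinearMap.range_eq_top.2
      (LinearMap.funLeft_surjective_of_injective ℂ ℂ f hf)] at h2
    refine top_unique (h2.ge.trans (Submodule.span_le.2 ?_))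
    rintro _ ⟨_, ⟨⟨i, φ⟩, rfl⟩, rfl⟩
    by_cases h : T.w i ∘ f = 0
    · refine (congrArg (· ∈ _) (funext fun j => ?_)).mpr (Submodule.zero_mem _)
      exact (congrArg φ (congrFun h j)).trans (map_zero φ)
    · obtain ⟨k, rfl⟩ := h1 i h
      exact Submodule.subset_span ⟨(k, φ), rfl⟩

/-! ### Block PERM -/

/-- A basis among the members of a spanning family. -/
theorem exists_sel {κ : Type} {v : κ → n → ℂ} (ht : Submodule.span ℂ (Set.range v) = ⊤) :
    ∃ s : n → κ, (Matrix.of fun j k => v (s k) j).det ≠ 0 := by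
  obtain ⟨b, hb, hs, hl⟩ := exists_linearIndependent ℂ (Set.range v)
  let B := Basis.mk hl (by rw [Subtype.range_coe, hs, ht])
  let e := B.indexEquiv (Pi.basisFun ℂ n)
  choose s hs' using fun k : n => hb (e.symm k).2
  refine ⟨s, ((isUnit_iff_isUnit_det _).1 (linearIndependent_cols_iff_isUnit.1 ?_)).ne_zero⟩
  change LinearIndependent ℂ fun k => v (s k)
  simp only [hs']
  exact hl.comp _ e.symm.injective

omit [DecidableEq n] in
theorem perm_conj {K : IntermediateField ℚ ℂ} {C C' X : Matrix n n ℂ} (h : Al C) (h' : Al C')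
    (hX : ∀ i j, IsAlgebraic K (X i j)) (i j : n) : IsAlgebraic K ((C * X * C') i j) := by
  simp only [mul_apply, ← mem_algebraicClosure_iff] at hX ⊢
  exact sum_mem fun a _ => mul_mem (sum_mem fun b _ => mul_mem
    (mem_algebraicClosure_iff.2 ((h i b).tower_top K)) (hX b a))
    (mem_algebraicClosure_iff.2 ((h' a j).tower_top K))

theorem trdeg_M {A : AbVar g N} {V : Matrix (Fin (2 * g)) (Fin (2 * g)) ℂ} {q : Fin (2 * g) → ℂ}
    (hV : V.det ≠ 0) (ha : Al V) (hq : ∀ k, q k ≠ 0)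
    (hm : ∀ k, q k • Vᵀ k ∈ Submodule.span Qb A.dR)
    (S : Set (Matrix (Fin (2 * g)) (Fin (2 * g)) ℚ)) : Algebra.trdeg ℚ (A.perEnd S) =
      M.cRk {z | ∃ k l, (∃ Y ∈ S, (V⁻¹ * Y.map (Rat.cast : ℚ → ℂ) * V) l k ≠ 0) ∧
        z = q k / q l} := by
  have hd : IsUnit (diagonal q).det := by
    rw [det_diagonal]
    exact (Finset.prod_ne_zero_iff.2 fun k _ => hq k).isUnit
  have hW : IsUnit (V * diagonal q).det := by
    rw [det_mul]
    exact hV.isUnit.mul hd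
  have hZ : ∀ (Y : Matrix (Fin (2 * g)) (Fin (2 * g)) ℂ) l k,
      ((V * diagonal q)⁻¹ * Y * (V * diagonal q)) l k =
      (V⁻¹ * Y * V) l k * (q k / q l) := fun Y l k => by
    rw [Matrix.mul_inv_rev, inv_eq_left_inv (A := diagonal q) (B := diagonal fun k => (q k)⁻¹) (by
      simp [diagonal_mul_diagonal, hq]), ← Matrix.mul_assoc, Matrix.mul_assoc _ V⁻¹,
      Matrix.mul_assoc _ _ V, mul_diagonal, diagonal_mul]
    ring
  have hC : ∀ P : Matrix (Fin (2 * g)) (Fin (2 * g)) ℂ, P.det ≠ 0 → (∀ i, Pᵀ i ∈ A.dR) →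
      Al (P⁻¹ * (V * diagonal q)) ∧ Al ((V * diagonal q)⁻¹ * P) := fun P hP hc => by
    have h1 : Al (P⁻¹ * (V * diagonal q)) := fun i j => by
      convert dR_coord hP hc (hm j) i using 1
      simp only [mul_apply, diagonal_apply, mul_ite, mul_zero, Finset.sum_ite_eq', Finset.mem_univ, ↓ reduceIte, mul_comm, mulVec, dotProduct, Pi.smul_apply, transpose_apply, smul_eq_mul]
    have h2 := h1.inv
    rw [Matrix.mul_inv_rev, nonsing_inv_nonsing_inv _ hP.isUnit] at h2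
    exact ⟨h1, h2⟩
  have hA := fun Y : Matrix (Fin (2 * g)) (Fin (2 * g)) ℚ => (ha.inv.mul (al_rat Y)).mul ha
  rw [AbVar.perEnd, trdeg_eq]
  refine le_antisymm (rk_le ?_) (rk_le ?_)
  · rintro _ ⟨P, hP, hc, Y, hY, i, j, rfl⟩
    have := perm_conj (hC P hP hc).1 (hC P hP hc).2
      (X := (V * diagonal q)⁻¹ * Y.map (Rat.cast : ℚ → ℂ) * (V * diagonal q))
      (K := IntermediateField.adjoin ℚ {z | ∃ k l,
        (∃ Y ∈ S, (V⁻¹ * Y.map (Rat.cast : ℚ → ℂ) * V) l k ≠ 0) ∧ z = q k / q l})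
      (fun l k => by
        rw [hZ]
        by_cases h0 : (V⁻¹ * Y.map (Rat.cast : ℚ → ℂ) * V) l k = 0
        · rw [h0, zero_mul]
          exact isAlgebraic_zero
        · exact ((hA Y l k).tower_top _).mul
            (mem_cl.1 (sub_cl _ ⟨k, l, ⟨Y, hY, h0⟩, rfl⟩))) i j
    simp only [Matrix.mul_assoc, mul_nonsing_inv_cancel_left _ _ hW] at this
    rw [mem_cl, Matrix.mul_assoc]
    exact this
  · rintro _ ⟨k, l, ⟨Y, hY, h0⟩, rfl⟩
    obtain ⟨P, hP, hc⟩ := exists_basis A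
    replace hP : Pᵀ.det ≠ 0 := by rwa [det_transpose]
    have := perm_conj (hC _ hP hc).2 (hC _ hP hc).1 (X := Pᵀ⁻¹ * Y.map (Rat.cast : ℚ → ℂ) * Pᵀ)
      (K := A.perEnd S) (fun i j => mem_cl.1 (sub_cl _ ⟨_, hP, hc, Y, hY, i, j, rfl⟩)) l k
    have e := hZ (Y.map (Rat.cast : ℚ → ℂ)) l k
    simp only [Matrix.mul_assoc, mul_nonsing_inv_cancel_left _ _ hP.isUnit] at this e h0
    have h1 := (((hA Y l k).tower_top (A.perEnd S)).inv).mul this
    rw [e, Matrix.mul_assoc, inv_mul_cancel_left₀ h0] at h1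
    exact mem_cl.2 h1

/-! ### Block RANKM -/

theorem rankm_dual {κ : Type} (x : κ → E) :
    finrank ℚ (LinearMap.range (LinearMap.pi fun k => Dual.eval ℚ E (x k))) =
      finrank ℚ (Submodule.span ℚ (Set.range x)) := by
  have h1 := LinearMap.finrank_range_add_finrank_ker (LinearMap.pi fun k => Dual.eval ℚ E (x k))
  have h2 := Subspace.finrank_add_finrank_dualAnnihilator_eq (Submodule.span ℚ (Set.range x))
  have h3 : LinearMap.ker (LinearMap.pi fun k => Dual.eval ℚ E (x k)) =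
      (Submodule.span ℚ (Set.range x)).dualAnnihilator := by
    ext l
    rw [← SetLike.mem_coe (p := Submodule.dualAnnihilator _), Submodule.coe_dualAnnihilator_span]
    simp only [LinearMap.mem_ker, funext_iff, LinearMap.pi_apply, Dual.eval_apply, Pi.zero_apply, Set.range_subset_iff, SetLike.mem_coe, Set.mem_ofPred_eq]
  rw [h3, Subspace.dual_finrank_eq] at h1
  omega

theorem rankm_hull {J : Matrix n n ℝ} (h : Cm J) {b₀ : E →+* ℂ} {μ : Matrix n n E}
    (hμ : ∀ j k, (J j k : ℂ) = I * b₀ (μ j k)) {X : Matrix n n ℚ} :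
    X ∈ hull J ↔ ∃ l : Dual ℚ E, μ.map l = X := by
  let c : E →ₗ[ℚ] ℂ := LinearMap.mulLeft ℚ I ∘ₗ b₀.toRatAlgHom.toLinearMap
  have hc : ∀ j k, c (μ j k) = J j k := fun j k => (hμ j k).symm
  obtain ⟨π, hπ⟩ := c.exists_leftInverse_of_injective (LinearMap.ker_eq_bot.2
    ((mul_right_injective₀ I_ne_zero).comp b₀.injective))
  have hb : ∀ l : Dual ℚ E, ∃ l' : ℝ →ₗ[ℚ] ℚ, μ.map l = J.map l' := fun l =>
    ⟨l ∘ₗ π ∘ₗ ofRealAm.toLinearMap.restrictScalars ℚ, Matrix.ext fun j k =>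
      congrArg l ((LinearMap.congr_fun hπ _).symm.trans (congrArg π (hc j k)))⟩
  refine ⟨fun hX => ?_, fun ⟨l, e⟩ => ?_⟩
  · refine Submodule.mem_sInf.1 hX (LinearMap.range (LinearMap.pi fun j => LinearMap.pi fun k =>
      Dual.eval ℚ E (μ j k))) ⟨?_, (mem_span_iff J _).2 fun l =>
        ⟨l ∘ₗ reLm.restrictScalars ℚ ∘ₗ c, Matrix.ext fun j k => congrArg l ?_⟩⟩
    · rintro _ ⟨l, rfl⟩ _ ⟨l', rfl⟩
      obtain ⟨a, ha⟩ := hb l
      obtain ⟨b, hb⟩ := hb l'
      change μ.map l * μ.map l' - μ.map l' * μ.map l ∈ _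
      rw [ha, hb, h, sub_self]
      exact Submodule.zero_mem _
    · exact congrArg re (hc j k)
  · obtain ⟨a, ha⟩ := hb l
    exact e ▸ ha ▸ (mem_span_iff J _).1 (mem_hull J) a

omit [DecidableEq n] in
theorem rankm_conj {κ : Type} {L : Submodule ℂ (κ → ℂ)} {Z : κ → Matrix n n ℂ}
    (h : ∀ a b, (fun o => Z o a b) ∈ L) (P Q : Matrix n n ℂ) (l k : n) :
    (fun o => (P * Z o * Q) l k) ∈ L := by
  have : (fun o => (P * Z o * Q) l k) = ∑ b, ∑ a, (P l a * Q b k) • fun o => Z o a b := by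
    funext o
    simp only [Matrix.mul_apply, Finset.sum_mul, Finset.sum_apply, Pi.smul_apply, smul_eq_mul,
      mul_right_comm]
  exact this ▸ L.sum_mem fun b _ => L.sum_mem fun a _ => L.smul_mem _ (h a b)

/-- Rank-nullity for `X ↦ (Y ↦ Y * X - X * Y)` on `hull J`. -/
theorem Ev.rank_M [IsGalois ℚ E] {J : Matrix n n ℝ} (T : Ev J E ι) (h : Cm J) (b₀ : E →+* ℂ)
    (s : n → ι × (E →+* ℂ)) {V : Matrix n n ℂ}
    (hs : V = Matrix.of fun j k => (s k).2 (T.w (s k).1 j)) (hV : V.det ≠ 0)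
    (S : Set (Matrix n n ℚ)) :
    finrank ℚ (Submodule.span ℚ {u | ∃ k l, (∃ Y ∈ S, (V⁻¹ * Y.map (Rat.cast : ℚ → ℂ) * V) l k ≠ 0) ∧
        u = cst (ex 0 b₀ (T.Φ (s k).1) (s k).2 - ex 0 b₀ (T.Φ (s l).1) (s l).2)}) +
      finrank ℚ (hull J ⊓ Subalgebra.toSubmodule (Subalgebra.centralizer ℚ S) :
        Submodule ℚ (Matrix n n ℚ)) = finrank ℚ (hull J) := by
  obtain ⟨μ, hμ, he⟩ := T.exists_m b₀
  let f : Matrix n n ℚ →ₗ[ℚ] S × n × n → ℚ := LinearMap.pi fun q =>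
    Matrix.entryLinearMap ℚ ℚ q.2.1 q.2.2 ∘ₗ (LinearMap.mulLeft ℚ q.1.1 - LinearMap.mulRight ℚ q.1.1)
  let x : S × n × n → E := fun q =>
    (q.1.1.map (Rat.cast : ℚ → E) * μ - μ * q.1.1.map (Rat.cast : ℚ → E)) q.2.1 q.2.2
  have hk : LinearMap.ker f = Subalgebra.toSubmodule (Subalgebra.centralizer ℚ S) := by
    ext X
    simp only [f, LinearMap.mem_ker, funext_iff, LinearMap.pi_apply, LinearMap.coe_comp, Function.comp_apply, LinearMap.sub_apply, LinearMap.mulLeft_apply, LinearMap.mulRight_apply, entryLinearMap_apply, Matrix.sub_apply, Pi.zero_apply, sub_eq_zero, Prod.forall, Subtype.forall, Subalgebra.mem_toSubmodule, Subalgebra.mem_centralizer_iff, ← ext_iff]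
  have hx : ∀ l : Dual ℚ E, f (μ.map l) = LinearMap.pi (fun q => Dual.eval ℚ E (x q)) l := by
    intro l
    funext q
    simp only [f, LinearMap.pi_apply, LinearMap.coe_comp, Function.comp_apply, LinearMap.sub_apply, LinearMap.mulLeft_apply, LinearMap.mulRight_apply, entryLinearMap_apply, Matrix.sub_apply, Matrix.mul_apply, map_apply, mul_comm (l _), x, ← Rat.smul_def, mul_comm (μ _ _), map_sub, map_sum, map_smul, LinearMap.coe_sum, LinearMap.coe_smul, Finset.sum_apply, Pi.smul_apply, Dual.eval_apply, smul_eq_mul]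
  have hm : (hull J).map f = LinearMap.range (LinearMap.pi fun q => Dual.eval ℚ E (x q)) := by
    ext y
    simp only [Submodule.mem_map, rankm_hull h hμ, LinearMap.mem_range, ← hx]
    exact ⟨fun ⟨_, ⟨l, e⟩, e'⟩ => ⟨l, e ▸ e'⟩, fun ⟨l, e⟩ => ⟨_, ⟨l, rfl⟩, e⟩⟩
  rw [← hk, ← lib_rank f (hull J), hm, rankm_dual, rank_vec, ← finrank_bc]
  let t : ((E →+* ℂ) → ℂ) →ₗ[ℂ] Option (E →+* ℂ) → ℂ :=
    LinearMap.pi fun o => o.elim 0 LinearMap.proj
  rw [(Submodule.equivMapOfInjective t (fun y z e => funext fun ψ => congrFun e (some ψ))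
    _).finrank_eq]
  refine congrArg (fun L : Submodule ℂ (Option (E →+* ℂ) → ℂ) => finrank ℂ L + _) ?_
  obtain ⟨ε, hε⟩ : ∃ ε : n → Option (E →+* ℂ) → ℤ, ∀ k, ex 0 b₀ (T.Φ (s k).1) (s k).2 = ε k :=
    ⟨_, fun _ => rfl⟩
  have u1 := mul_nonsing_inv V (Ne.isUnit hV)
  have u2 := nonsing_inv_mul V (Ne.isUnit hV)
  let Z : S → Option (E →+* ℂ) → Matrix n n ℂ := fun Y o => Matrix.of fun l k =>
    (V⁻¹ * Y.1.map (Rat.cast : ℚ → ℂ) * V) l k * ((ε k - ε l) o : ℤ)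
  have hZ : ∀ Y : S, ∀ o, Z Y o =
      V⁻¹ * Matrix.of (fun a b => t (fun ψ => ψ (x (Y, a, b))) o) * V := by
    rintro Y (_ | ψ)
    · have : Matrix.of (fun a b => t (fun ψ => ψ (x (Y, a, b))) none) = 0 := rfl
      ext l k
      simp only [Z, ← hε, Pi.sub_apply, ex, Int.reduceNeg, Int.cast_sub, of_apply, Option.elim_none, Int.cast_zero, sub_self, mul_zero, this, zero_mul, Matrix.zero_apply]
    · have e1 : Matrix.of (fun a b => t (fun ψ => ψ (x (Y, a, b))) (some ψ)) =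
          Y.1.map (Rat.cast : ℚ → ℂ) * μ.map ψ - μ.map ψ * Y.1.map (Rat.cast : ℚ → ℂ) := by
        ext a b
        simp only [t, x, Matrix.sub_apply, Matrix.mul_apply, map_apply, map_sub, map_sum, map_mul, map_ratCast, LinearMap.pi_apply, Option.elim_some, LinearMap.coe_proj, Function.eval, of_apply]
      have e2 : μ.map ψ * V = V * diagonal fun k => (ε k (some ψ) : ℂ) := by
        ext j k
        have := congrFun (he (s k).1 (s k).2 ψ) j
        rw [hε] at this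
        rw [mul_diagonal, mul_comm, hs]
        exact this
      have e3 : V⁻¹ * μ.map ψ = (diagonal fun k => (ε k (some ψ) : ℂ)) * V⁻¹ := by
        rw [← mul_one (V⁻¹ * _), ← u1, ← mul_assoc, mul_assoc V⁻¹, e2, ← mul_assoc, u2, one_mul]
      rw [e1, mul_sub, sub_mul, ← mul_assoc, ← mul_assoc, mul_assoc _ _ V, e2, e3, ← mul_assoc,
        mul_assoc (diagonal _), mul_assoc (diagonal _)]
      ext l k
      simp only [Z, of_apply, Matrix.sub_apply, mul_diagonal, diagonal_mul, Pi.sub_apply]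
      push_cast
      ring
  have hc : ∀ (Y : S) l k, (fun o => Z Y o l k) = (V⁻¹ * Y.1.map (Rat.cast : ℚ → ℂ) * V) l k •
      fun o => algebraMap ℚ ℂ (cst (ε k - ε l) o) := fun Y l k => by
    funext o
    simp only [Z, Pi.sub_apply, Int.cast_sub, of_apply, cst, eq_ratCast, Rat.cast_sub, Rat.cast_intCast, Pi.smul_apply, smul_eq_mul]
  simp only [hε]
  refine le_antisymm (Submodule.span_le.2 ?_) (Submodule.map_le_iff_le_comap.2
    (Submodule.span_le.2 ?_))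
  · rintro _ ⟨u, hu, rfl⟩
    refine (Submodule.span_le (p := (Submodule.restrictScalars ℚ (Submodule.map t _)).comap
      ((Algebra.linearMap ℚ ℂ).compLeft _))).2 ?_ hu
    rintro _ ⟨k, l, ⟨Y, hY, h0⟩, rfl⟩
    change (fun o => algebraMap ℚ ℂ (cst (ε k - ε l) o)) ∈ Submodule.map t _
    rw [← Submodule.smul_mem_iff _ h0, ← hc ⟨Y, hY⟩]
    simp only [hZ]
    refine rankm_conj (fun a b => ?_) _ _ _ _
    exact ⟨_, Submodule.subset_span ⟨(_, a, b), rfl⟩, rfl⟩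
  · rintro _ ⟨⟨Y, a, b⟩, rfl⟩
    have := rankm_conj (L := bc (Submodule.span ℚ {u | ∃ k l, (∃ Y ∈ S,
      (V⁻¹ * Y.map (Rat.cast : ℚ → ℂ) * V) l k ≠ 0) ∧ u = cst (ε k - ε l)})) (Z := Z Y)
      (fun l k => by
        rw [hc]
        by_cases h0 : (V⁻¹ * Y.1.map (Rat.cast : ℚ → ℂ) * V) l k = 0
        · rw [h0, zero_smul]
          exact Submodule.zero_mem _
        · exact Submodule.smul_mem _ _ (Submodule.subset_span
            ⟨_, Submodule.subset_span ⟨k, l, ⟨Y, Y.2, h0⟩, rfl⟩, rfl⟩)) V V⁻¹ a b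
    simp only [hZ, ← mul_assoc, u1, one_mul, mul_assoc _ V V⁻¹, mul_one] at this
    exact this

end GPC72
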