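import Pool.Agent.MP_57341d_ag.H72.WA
import Pool.Agent.MP_57341d_ag.HW.Fam

attribute [-instance] IntermediateField.module' OrderBot.toBot RKHS.instFunLike
  IsStarProjection.instTrivialStarOfStarOrderedRing
  Algebra.IsAlgebraic.isPurelyInseparable_of_isSepClosed LieAdmissibleAlgebra.toModule
  Matrix.nonempty SetLike.GradeZero.instSemiring RightPreLieAlgebra.toModule instNontrivialOfCharZero
  LeftPreLieAlgebra.toModule ContinuousMonoidHom.instCoeOutOfMonoidHomClassOfContinuousMapClass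
  instNeZeroNatHMul NonUnitalAlgSemiHomClass.toDistribMulActionSemiHomClass
  Group.IsPerfect.subsingleton_of_isMulCommutative SetLike.GradeZero.instCommRing
  CategoryTheory.Limits.Concrete.instUniqueToTypeTerminal LinearOrder.toDecidableEq
  MonTypeEquivalenceMon.monMonoid Nontrivial.to_nonempty Module.IsNoetherian.finite
  instZeroLEOneClass IsPurelyInseparable.instOfHasExponent MonoidWithZeroHomClass.toZeroHomClass
  instCoeTCOfCoe NormedAlgebra.toAlgebra Module.Invertible.instFaithfulSMul Zero.instNonempty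
  SupBotHomClass.toBotHomClass Fintype.decidableForallFintype Algebra.WeaklyEtale.flat
  IsAlgClosure.isAlgebraic littleWedderburn SetLike.GradeZero.instCommSemiring
  CoheytingAlgebra.toOrderTop FunLike.toDecidableEq

/-! Periods of all abelian varieties with a commutative Hodge group. -/

open Matrix Module GPC73 GPC42 Complex NumberField ComplexEmbedding

namespace GPC72

variable {E : Type} [Field E] [NumberField E] {n n' m ι : Type} [Fintype n] [DecidableEq n]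
  [Fintype n'] [DecidableEq n'] [Fintype m] [DecidableEq m] {g g' N N' N'' d : ℕ}

/-! ### Block FIN -/

theorem crk_mon {κ : Type} [Fintype κ] {y : κ → ℂ} (hy : ∀ i, y i ≠ 0) {S : Set ℂ}
    {U : Set (κ → ℤ)} (h1 : ∀ z ∈ S, ∃ u ∈ U, IsAlgebraic ℚ (z ^ 4 / mon y u))
    (h2 : ∀ u ∈ U, ∃ z ∈ S, z ≠ 0 ∧ IsAlgebraic ℚ (z ^ 4 / mon y u)) :
    M.cRk S = rk y (Submodule.span ℚ (cst '' U)) := by
  have h0 : ∀ u, mon y u ≠ 0 := fun u => Finset.prod_ne_zero_iff.2 fun i _ => zpow_ne_zero _ (hy i)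
  rw [rk_eq hy]
  refine le_antisymm (rk_le fun z hz => ?_) (rk_le ?_)
  · obtain ⟨u, hu, a⟩ := h1 z hz
    have := (a.tower_top _).mul (mem_cl.1 (sub_cl (per y (Submodule.span ℚ (cst '' U)))
      ⟨u, Submodule.subset_span ⟨u, hu, rfl⟩, rfl⟩))
    rw [div_mul_cancel₀ _ (h0 u)] at this
    exact mem_cl.2 (this.of_pow four_pos)
  · rintro _ ⟨v, hv, rfl⟩
    refine mon_mem hy (fun u hu => ?_) hv
    obtain ⟨z, hz, z0, a⟩ := h2 u hu
    have := ((mem_cl.1 (sub_cl S hz)).pow 4).mul (a.tower_top _).inv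
    rw [inv_div, mul_div_cancel₀ _ (pow_ne_zero 4 z0)] at this
    exact mem_cl.2 this

theorem rk_mono {κ : Type} [Fintype κ] {y : κ → ℂ} (hy : ∀ i, y i ≠ 0)
    {U W : Submodule ℚ (κ → ℚ)} (h : U ≤ W) : rk y U ≤ rk y W := by
  have : M.cRk (per y U) ≤ M.cRk (per y W) := M.cRk_mono (Set.image_mono fun _ hu => h hu)
  rw [← rk_eq hy, ← rk_eq hy] at this
  exact_mod_cast this

variable (E) in
/-- The characters of weight zero. -/
def O₀ : Submodule ℚ (Option (E →+* ℂ) → ℚ) := X ⊤ ⊓ LinearMap.ker (LinearMap.proj none)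

/-- The weight. -/
def e₀ (o : Option (E →+* ℂ)) : ℤ := o.elim 1 fun _ => 0

/-- What is known about the fundamental periods `y`. -/
structure Pk (d : ℕ) (b₀ : E →+* ℂ) (y : Option (E →+* ℂ) → ℂ) : Prop where
  fam : Fam E d
  ne : ∀ o, y o ≠ 0
  tr : Transcendental ℚ (y none)
  zero : ∀ U ≤ O₀ E, rk y U = finrank ℚ U
  one : finrank ℚ (X (⊤ : IntermediateField ℚ E)) ≤ rk y (X ⊤) + 1
  alg : ∀ Φ p φ, PT d Φ p → IsAlgebraic ℚ (p φ ^ 4 / mon y (ex 2 b₀ Φ φ))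

theorem exists_pk [IsCMField E] [IsGalois ℚ E] (hi : ∃ x : E, x ^ 2 = -1)
    (h3 : ∃ x : E, x ^ 2 + x + 1 = 0) : ∃ d b₀ y, Pk (E := E) d b₀ y := by
  classical
  have hd := IsTotallyComplex.finrank E
  have hF := GPCW.fam E hi h3 hd
  obtain ⟨x, hx⟩ := hi
  have h₀ : Ty {φ : E →+* ℂ | φ x = I} := fun φ => by
    have : φ x ^ 2 = I ^ 2 := by rw [← map_pow, hx, I_sq, map_neg, map_one]
    have a : -I ≠ I := fun h => I_ne_zero (by linear_combination (-1 / 2 : ℂ) * h)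
    rcases sq_eq_sq_iff_eq_or_eq_neg.1 this with h | h <;> simp only [Set.mem_ofPred_eq, conjugate_coe_eq, h, conj_I, a, not_true_eq_false, map_neg, neg_neg, not_false_eq_true]
  obtain ⟨b₀, hb⟩ : ∃ b₀, b₀ ∈ {φ : E →+* ℂ | φ x = I} := by
    obtain ⟨φ⟩ : Nonempty (E →+* ℂ) := inferInstance
    exact (em _).elim (fun h => ⟨φ, h⟩) fun h => ⟨_, (h₀ φ).2 h⟩
  obtain ⟨r, hr, hc, hK, ha⟩ := mono hF (GPCW.rel_all E _) h₀ hb
  have hy := elim_ne hr two_pi_I_ne_zero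
  have hT : IsTotallyComplex (⊤ : IntermediateField ℚ E) := by
    let := (IntermediateField.topEquiv (F := ℚ) (E := E)).symm.toRingEquiv.toRingHom.toAlgebra
    exact isTotallyComplex_of_algebra E _
  obtain ⟨d, h1, h2⟩ := fin_X (⊤ : IntermediateField ℚ E)
  rw [IntermediateField.finrank_top', hd] at h1
  have h4 : finrank ℚ (O₀ E) < finrank ℚ (X (⊤ : IntermediateField ℚ E)) :=
    Submodule.finrank_lt_finrank_of_lt (lt_of_le_of_ne inf_le_left fun h => by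
      have : cst e₀ ∈ O₀ E := h ▸ ⟨fun _ => by simp [cst, e₀], fun _ _ _ => rfl⟩
      simpa [cst, e₀] using this.2)
  have h5 := hK (IntermediateField.adjoin ℚ (per (fun o : Option (E →+* ℂ) =>
      o.elim (2 * Real.pi * I) r) (O₀ E))) fun φ => by
    have e : ∀ ψ, conjugate ψ = φ ↔ ψ = conjugate φ := fun ψ => star_eq_iff_star_eq.trans eq_comm
    have e' : ∀ ψ, conjugate ψ = conjugate φ ↔ ψ = φ := fun ψ => star_inj
    have a := (mem_cl.1 (sub_cl (per (fun o : Option (E →+* ℂ) => o.elim (2 * Real.pi * I) r)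
      (O₀ E)) ⟨Pi.single (some φ) 1 - Pi.single (some (conjugate φ)) 1, ⟨⟨fun ψ => by
        simp only [cst, Pi.sub_apply, Pi.single_apply, Option.some.injEq, e, e', Int.cast_sub, Int.cast_ite, Int.cast_one, Int.cast_zero, neg_sub], fun ψ χ h => by
          rw [RingHom.ext fun x => h x IntermediateField.mem_top]⟩, by simp only [SetLike.mem_coe, LinearMap.mem_ker, LinearMap.coe_proj, Function.eval, cst, Pi.sub_apply, ne_eq, reduceCtorEq, not_false_eq_true, Pi.single_eq_of_ne, sub_self, Int.cast_zero]⟩, rfl⟩)).mul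
      ((hc φ).tower_top _)
    have b : mon (fun o : Option (E →+* ℂ) => o.elim (2 * Real.pi * I) r)
        (Pi.single (some φ) 1 - Pi.single (some (conjugate φ)) 1) = r φ / r (conjugate φ) := by
      simp only [mon, Pi.sub_apply, Pi.single_apply, zpow_sub₀ (hy _), pow_ite, zpow_ofNat, pow_one, pow_zero, Finset.prod_div_distrib, Finset.prod_ite_eq', Finset.mem_univ, ↓ reduceIte, Option.elim_some]
    rw [b, mul_comm (r φ), ← mul_assoc, div_mul_cancel₀ _ (hr _), ← sq] at a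
    exact a.of_pow two_pos
  rw [trdeg_eq, ← rk_eq hy] at h5
  have h6 := Nat.cast_le.1 h5
  have h7 := rk_mono hy (U := O₀ E) (W := X ⊤) inf_le_left
  refine ⟨_, b₀, _, hF, hy, tr_c, fun U hU => ?_, by omega, ha⟩
  have := def_mono hy hU
  have := rk_fin hy U
  omega

section

variable [IsCMField E] [IsGalois ℚ E] {b₀ : E →+* ℂ} {y : Option (E →+* ℂ) → ℂ}
  {J : Matrix n n ℝ}

theorem ex_conj {Φ : Set (E →+* ℂ)} (h : Ty Φ) (a : ℤ) (φ ψ : E →+* ℂ) :
    ex a b₀ Φ (conjugate φ) (some ψ) = -ex a b₀ Φ φ (some ψ) ∧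
      ex a b₀ Φ φ (some (conjugate ψ)) = -ex a b₀ Φ φ (some ψ) := by
  obtain ⟨γ, rfl⟩ := exists_tw ψ φ
  have e : ∀ χ : E →+* ℂ, χ.comp ((((IsCMField.complexConj E).restrictScalars ℚ * γ :
      E ≃ₐ[ℚ] E)) : E →+* E) = conjugate (χ.comp (γ : E →+* E)) := fun χ =>
    RingHom.ext fun x => IsCMField.complexEmbedding_complexConj E χ _
  have e' := (e (conjugate ψ)).trans (star_star (ψ.comp (γ : E →+* E)))
  have k := (sg_iff (b₀ := b₀) (Φ := Φ) (ψ := ψ) (γ := γ) rfl).not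
  have k₁ := (sg_iff (b₀ := b₀) (Φ := Φ) (e ψ)).trans (e b₀ ▸ (h _).trans k.symm)
  have k₂ := (sg_iff (b₀ := b₀) (Φ := Φ) e').trans (e b₀ ▸ (h _).trans k.symm)
  simp only [ex, Option.elim_some, k₁, k₂]
  split_ifs <;> simp_all

omit [IsCMField E] [IsGalois ℚ E] in
theorem ex_two (Φ : Set (E →+* ℂ)) (φ : E →+* ℂ) :
    cst (ex 2 b₀ Φ φ) = cst (ex 0 b₀ Φ φ) + (2 : ℚ) • cst e₀ := by
  funext o
  cases o <;> simp [cst, ex, e₀]

theorem ex_neg {Φ : Set (E →+* ℂ)} (h : Ty Φ) (φ : E →+* ℂ) :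
    cst (ex 0 b₀ Φ (conjugate φ)) = -cst (ex 0 b₀ Φ φ) := by
  funext o
  cases o with
  | none => simp only [cst, ex, Int.reduceNeg, Option.elim_none, Int.cast_zero, Pi.neg_apply, neg_zero]
  | some ψ => simp only [cst, (ex_conj h 0 φ ψ).1, Int.cast_neg, Pi.neg_apply]

theorem ex_mem {Φ : Set (E →+* ℂ)} (h : Ty Φ) (φ : E →+* ℂ) : cst (ex 0 b₀ Φ φ) ∈ O₀ E :=
  ⟨⟨fun ψ => by simp only [cst, (ex_conj h 0 φ ψ).2, Int.cast_neg], fun ψ χ h => by
    rw [RingHom.ext fun x => h x IntermediateField.mem_top]⟩, by simp [cst, ex]⟩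

theorem Ev.U_le (T : Ev J E ι) : T.U 0 b₀ ≤ O₀ E ∧ T.U 0 b₀ ≤ T.U 2 b₀ ∧
    T.U 2 b₀ ≤ T.U 0 b₀ ⊔ Submodule.span ℚ {cst e₀} ∧ (Nonempty ι → cst e₀ ∈ T.U 2 b₀) := by
  have m : ∀ a i φ, cst (ex a b₀ (T.Φ i) φ) ∈ T.U a b₀ := fun a i φ =>
    Submodule.subset_span ⟨(i, φ), rfl⟩
  refine ⟨Submodule.span_le.2 ?_, Submodule.span_le.2 ?_, Submodule.span_le.2 ?_, fun ⟨i⟩ => ?_⟩
  · rintro _ ⟨q, rfl⟩
    exact ex_mem (T.ty _) _
  · rintro _ ⟨⟨i, φ⟩, rfl⟩
    have := Submodule.smul_mem _ (1 / 2 : ℚ) (sub_mem (m 2 i φ) (m 2 i (conjugate φ)))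
    rw [ex_two, ex_two, ex_neg (T.ty i)] at this
    change cst _ ∈ T.U 2 b₀
    convert this using 1
    module
  · rintro _ ⟨⟨i, φ⟩, rfl⟩
    simp only [ex_two]
    exact Submodule.add_mem_sup (m 0 i φ)
      (Submodule.smul_mem _ _ (Submodule.mem_span_singleton_self _))
  · obtain ⟨φ⟩ : Nonempty (E →+* ℂ) := inferInstance
    have := Submodule.smul_mem _ (1 / 4 : ℚ) (add_mem (m 2 i φ) (m 2 i (conjugate φ)))
    rw [ex_two, ex_two, ex_neg (T.ty i)] at this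
    convert this using 1
    module

theorem Ev.fin_two (T : Ev J E ι) (h : Cm J) :
    finrank ℚ (T.U 0 b₀ ⊔ Submodule.span ℚ {cst e₀} : Submodule ℚ _) = finrank ℚ (hull J) + 1 := by
  rw [T.rank h b₀, Submodule.finrank_sup_span_singleton fun a => ?_]
  simpa [cst, e₀] using (T.U_le.1 a).2

theorem Ev.fin_two' [Nonempty n] (T : Ev J E ι) (h : Cm J) :
    cst e₀ ∈ T.U 2 b₀ ∧ finrank ℚ (T.U 2 b₀) = finrank ℚ (hull J) + 1 := by
  have : Nonempty ι := by
    by_contra a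
    have := T.top
    rw [not_nonempty_iff] at a
    rw [Set.range_eq_empty, Submodule.span_empty] at this
    exact bot_ne_top this
  obtain ⟨-, a, b, c⟩ := T.U_le (b₀ := b₀)
  exact ⟨c this, by rw [le_antisymm b (sup_le a ((Submodule.span_singleton_le_iff_mem _ _).2
    (c this))), T.fin_two h]⟩

omit [IsCMField E] [IsGalois ℚ E] in
theorem PT.ne {Φ : Set (E →+* ℂ)} {p : (E →+* ℂ) → ℂ} (h : PT d Φ p) (φ : E →+* ℂ) : p φ ≠ 0 := by
  obtain ⟨_, _, _, -, q⟩ := h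
  exact q.ne φ

omit [IsCMField E] [IsGalois ℚ E] in
theorem Pk.H (P : Pk d b₀ y) {A : AbVar g N} (T : Ev A.J E ι) :
    Algebra.trdeg ℚ (perH A) = rk y (T.U 2 b₀) := by
  obtain ⟨p, hp⟩ := T.per P.fam
  rw [trdeg_H (q := fun k : ι × (E →+* ℂ) => p k.1 k.2) (fun k h => T.ne k.1 (funext fun j =>
    (map_eq_zero k.2).1 (congrFun h j))) (fun k j => (Algebra.IsAlgebraic.isAlgebraic
      (R := ℚ) _).algHom k.2.toRatAlgHom) T.top (fun k => (hp k.1).1.ne _) fun k => (hp k.1).2 _,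
    crk_mon P.ne (U := Set.range fun k : ι × (E →+* ℂ) => ex 2 b₀ (T.Φ k.1) k.2), ← Set.range_comp]
  · rfl
  · rintro _ ⟨k, rfl⟩
    exact ⟨_, ⟨k, rfl⟩, P.alg _ _ _ (hp k.1).1⟩
  · rintro _ ⟨k, rfl⟩
    exact ⟨_, ⟨k, rfl⟩, (hp k.1).1.ne _, P.alg _ _ _ (hp k.1).1⟩

theorem Pk.End (P : Pk d b₀ y) {A : AbVar g N} (T : Ev A.J E ι) (h : Cm A.J)
    (S : Set (Matrix (Fin (2 * g)) (Fin (2 * g)) ℚ)) : Algebra.trdeg ℚ (A.perEnd S) +
      finrank ℚ (hull A.J ⊓ Subalgebra.toSubmodule (Subalgebra.centralizer ℚ S) :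
        Submodule ℚ _) = finrank ℚ (hull A.J) := by
  obtain ⟨p, hp⟩ := T.per P.fam
  obtain ⟨s, hs⟩ := exists_sel T.top
  have ha : ∀ k l : ι × (E →+* ℂ), IsAlgebraic ℚ ((p k.1 k.2 / p l.1 l.2) ^ 4 /
      mon y (ex 0 b₀ (T.Φ k.1) k.2 - ex 0 b₀ (T.Φ l.1) l.2)) := fun k l => by
    have e : ex 2 b₀ (T.Φ k.1) k.2 = ex 0 b₀ (T.Φ k.1) k.2 - ex 0 b₀ (T.Φ l.1) l.2 +
        ex 2 b₀ (T.Φ l.1) l.2 := by
      funext o
      cases o <;> simp [ex]
    have a := (P.alg _ _ k.2 (hp k.1).1).mul (P.alg _ _ l.2 (hp l.1).1).inv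
    rw [e, mon_add P.ne] at a
    have h0 : mon y (ex 2 b₀ (T.Φ l.1) l.2) ≠ 0 :=
      Finset.prod_ne_zero_iff.2 fun i _ => zpow_ne_zero _ (P.ne i)
    rwa [inv_div, div_mul_div_comm, mul_right_comm, mul_div_mul_right _ _ h0, ← div_div,
      div_right_comm, ← div_pow] at a
  rw [trdeg_M (q := fun k => p (s k).1 (s k).2) hs (fun j k => (Algebra.IsAlgebraic.isAlgebraic
      (R := ℚ) _).algHom (s k).2.toRatAlgHom) (fun k => (hp _).1.ne _) (fun k => (hp _).2 _),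
    ← T.rank_M h b₀ s rfl hs S, crk_mon P.ne (U := {u | ∃ k l, (∃ Y ∈ S, ((Matrix.of fun j k =>
      (s k).2 (T.w (s k).1 j))⁻¹ * Y.map (Rat.cast : ℚ → ℂ) * Matrix.of fun j k =>
      (s k).2 (T.w (s k).1 j)) l k ≠ 0) ∧
        u = ex 0 b₀ (T.Φ (s k).1) (s k).2 - ex 0 b₀ (T.Φ (s l).1) (s l).2}), P.zero, Nat.cast_add]
  · refine congrArg (fun Z : Set _ => ((finrank ℚ (Submodule.span ℚ Z) : ℕ) : Cardinal) + _)
      (Set.ext fun u => ?_)
    exact ⟨fun ⟨_, ⟨k, l, a, b⟩, c⟩ => ⟨k, l, a, b ▸ c.symm⟩,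
      fun ⟨k, l, a, b⟩ => ⟨_, ⟨k, l, a, rfl⟩, b.symm⟩⟩
  · refine Submodule.span_le.2 ?_
    rintro _ ⟨_, ⟨k, l, -, rfl⟩, rfl⟩
    change cst _ ∈ O₀ E
    convert sub_mem (ex_mem (b₀ := b₀) (T.ty (s k).1) (s k).2)
      (ex_mem (b₀ := b₀) (T.ty (s l).1) (s l).2) using 1
    funext o
    simp [cst]
  · rintro _ ⟨k, l, a, rfl⟩
    exact ⟨_, ⟨k, l, a, rfl⟩, ha _ _⟩
  · rintro _ ⟨k, l, a, rfl⟩
    exact ⟨_, ⟨k, l, a, rfl⟩, div_ne_zero ((hp _).1.ne _) ((hp _).1.ne _), ha _ _⟩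

end

theorem exists_all {κ : Type} [Fintype κ] {g N : κ → ℕ} (A : ∀ k, AbVar (g k) (N k))
    (h : ∀ k, Cm (A k).J) : ∃ (E : Type) (_ : Field E) (_ : NumberField E) (_ : IsCMField E)
      (_ : IsGalois ℚ E) (ι : κ → Type) (_ : ∀ k, Ev (A k).J E (ι k)) (d : ℕ) (b₀ : E →+* ℂ)
      (y : Option (E →+* ℂ) → ℂ), Pk d b₀ y := by
  classical
  choose S hS hp using fun k => exists_S (A k) (h k)
  choose D hD _ using fun k => exists_hd (A k)
  have hb : ∀ {R : Type} [CommRing R] (Z : ∀ k, Matrix (Fin (2 * g k)) (Fin (2 * g k)) R) v k i,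
      (blockDiagonal' Z *ᵥ v) ⟨k, i⟩ = (Z k *ᵥ fun j => v ⟨k, j⟩) i := fun Z v k i => by
    simp only [mulVec, dotProduct, Fintype.sum_sigma]
    rw [Finset.sum_eq_single k (fun l _ a => by simp only [blockDiagonal'_apply_ne _ _ _ a.symm, zero_mul, Finset.sum_const_zero])
      (by simp only [Finset.mem_univ, not_true_eq_false, blockDiagonal'_apply_eq, IsEmpty.forall_iff])]
    simp only [blockDiagonal'_apply_eq]
  obtain ⟨E, _, _, _, _, hi, h3, ι, ⟨T⟩⟩ := exists_ev (J := blockDiagonal' fun k => (A k).J)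
    (S := blockDiagonal' S) (by
      simp only [← blockDiagonal'_mul, ← hD, HD.JJ]
      rw [← blockDiagonal'_one, ← blockDiagonal'_neg]
      rfl) (fun l l' => by
      simp only [blockDiagonal'_map _ _ (map_zero _), ← blockDiagonal'_mul, fun k => h k l l'])
    (fun l => by
      simp only [blockDiagonal'_map _ _ (map_zero _), blockDiagonal'_map _ _ Rat.cast_zero,
        blockDiagonal'_transpose, ← blockDiagonal'_mul]
      rw [← blockDiagonal'_add, ← blockDiagonal'_zero]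
      exact congrArg _ (funext fun k => hS k l)) fun u hu => by
      obtain ⟨⟨k, i⟩, a⟩ := Function.ne_iff.1 hu
      simp only [dotProduct, Fintype.sum_sigma, hb]
      refine Finset.sum_pos' (fun l _ => ?_) ⟨k, Finset.mem_univ _,
        hp k _ (Function.ne_iff.2 ⟨i, a⟩)⟩
      by_cases b : (fun j => u ⟨l, j⟩) = 0
      · simp only [b, mulVec_zero, Pi.zero_apply, mul_zero, Finset.sum_const_zero, Std.le_refl]
      · exact (hp l _ b).le
  exact ⟨E, _, _, inferInstance, inferInstance, fun k => {i // T.w i ∘ Sigma.mk k ≠ 0}, fun k =>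
    split_pr T sigma_mk_injective (fun v c a => funext fun j => by
      rw [blockDiagonal'_map _ _ ofReal_zero] at a
      exact (hb _ v k j).symm.trans (congrFun a ⟨k, j⟩))
      Subtype.val Subtype.prop fun i a => ⟨⟨i, a⟩, rfl⟩, exists_pk hi h3⟩

theorem hull_center (A : AbVar g N) :
    hull A.J ⊓ Subalgebra.toSubmodule (Subalgebra.centralizer ℚ Set.univ) = ⊥ := by
  obtain ⟨D, hD, -⟩ := exists_hd A
  have h0 : A.J.trace = 0 := by
    have u : IsUnit (D.E.map (Rat.cast : ℚ → ℝ)).det := by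
      rw [← Rat.cast_det]
      exact (Rat.cast_ne_zero.2 D.E_det).isUnit
    have := congrArg (fun Z => trace (Z * (D.E.map (Rat.cast : ℚ → ℝ))⁻¹)) D.skew
    simp only [Matrix.add_mul, trace_add, mul_nonsing_inv_cancel_right _ _ u, Matrix.zero_mul,
      trace_zero] at this
    rw [trace_mul_cycle, nonsing_inv_mul _ u, Matrix.one_mul, trace_transpose, hD] at this
    linarith
  have h1 : hull A.J ≤ LinearMap.ker (traceLinearMap _ ℚ ℚ) := sInf_le ⟨fun X _ Y _ => by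
    simp only [LinearMap.mem_ker, traceLinearMap_apply, trace_sub, trace_mul_comm X, sub_self], (mem_span_iff _ _).2 fun l => by
      simpa only [LinearMap.mem_ker, traceLinearMap_apply, trace, diag_apply, map_apply, map_sum, map_zero] using congrArg l h0⟩
  refine (Submodule.eq_bot_iff _).2 fun Z hZ => ?_
  obtain ⟨c, rfl⟩ := mem_range_scalar_iff_commute_single'.2 fun i j =>
    hZ.2 (single i j 1) (Set.mem_univ _)
  ext i j
  have : (2 * g : ℕ) ≠ 0 := fun a => (a ▸ i).elim0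
  have := h1 hZ.1
  simp_all

theorem per_end (A : AbVar g N) (h : ∀ X ∈ hull A.J, ∀ Y ∈ hull A.J, X * Y = Y * X) :
    Algebra.trdeg ℚ (A.perEnd Set.univ) = finrank ℚ (hull A.J) ∧
      ∀ S, Algebra.trdeg ℚ (A.perEnd S) + finrank ℚ (hull A.J ⊓ Subalgebra.toSubmodule
        (Subalgebra.centralizer ℚ S) : Submodule ℚ _) = finrank ℚ (hull A.J) := by
  obtain ⟨E, _, _, _, _, ι, T, d, b₀, y, P⟩ := exists_all (fun _ : Unit => A) fun _ => cm_of h
  replace T := T ()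
  refine ⟨?_, P.End T (cm_of h)⟩
  rw [← P.End T (cm_of h) Set.univ, hull_center, finrank_bot, Nat.cast_zero, add_zero]

theorem per_H (A : AbVar g N) (h : ∀ X ∈ hull A.J, ∀ Y ∈ hull A.J, X * Y = Y * X) :
    Algebra.trdeg ℚ (perH A) = finrank ℚ (hull A.J) ∨
      Algebra.trdeg ℚ (perH A) = (finrank ℚ (hull A.J) + 1 : ℕ) := by
  obtain ⟨E, _, _, _, _, ι, T, d, b₀, y, P⟩ := exists_all (fun _ : Unit => A) fun _ => cm_of h
  replace T := T ()
  obtain ⟨a, b, c, -⟩ := T.U_le (b₀ := b₀)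
  have h1 := rk_mono P.ne b
  have h2 := (rk_fin P.ne _).trans (Submodule.finrank_mono c)
  rw [P.zero _ a, ← T.rank (cm_of h)] at h1
  rw [T.fin_two (cm_of h)] at h2
  rw [P.H T, Nat.cast_inj, Nat.cast_inj]
  omega

/-- Finitely many exceptions have a common character. -/
theorem bad_fin {κ : Type} [Fintype κ] {g N : κ → ℕ} (A : ∀ k, AbVar (g k) (N k))
    (hg : ∀ k, 0 < g k) (h : ∀ k, Cm (A k).J) {V : κ → Submodule ℚ ℝ}
    (hV : ∀ k, V k = Submodule.span ℚ (Set.range fun x : _ × _ => (A k).J x.1 x.2))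
    {s : Finset κ} (hs : s.Nonempty)
    (hb : ∀ k ∈ s, Algebra.trdeg ℚ (perH (A k)) ≠ (finrank ℚ (hull (A k).J) + 1 : ℕ)) :
    s.inf V ≠ ⊥ ∧ ∀ k, s.inf V ≤ V k →
      Algebra.trdeg ℚ (perH (A k)) ≠ (finrank ℚ (hull (A k).J) + 1 : ℕ) := by
  obtain ⟨E, _, _, _, _, ι, T, d, b₀, y, P⟩ := exists_all A h
  have f : ∀ k, cst e₀ ∈ (T k).U 2 b₀ ∧ finrank ℚ ((T k).U 2 b₀) = finrank ℚ (hull (A k).J) + 1 :=
    fun k => have : Nonempty (Fin (2 * g k)) := ⟨⟨0, by have := hg k; omega⟩⟩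
      (T k).fin_two' (h k)
  have l : ∀ k, (T k).U 2 b₀ ≤ X ⊤ := fun k => (T k).U_le.2.2.1.trans (sup_le
    ((T k).U_le.1.trans inf_le_left) ((Submodule.span_singleton_le_iff_mem _ _).2
      ⟨fun _ => by simp [cst, e₀], fun _ _ _ => rfl⟩))
  have h1 : ∀ t : Finset κ, t.Nonempty → t ⊆ s → rk y (t.inf fun k => (T k).U 2 b₀) <
      finrank ℚ (t.inf fun k => (T k).U 2 b₀ : Submodule ℚ _) := fun t ht hs => by
    have b : ∀ k ∈ s, rk y ((T k).U 2 b₀) < finrank ℚ ((T k).U 2 b₀) := fun k hk =>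
      (rk_fin P.ne _).lt_of_ne fun a => hb k hk (by rw [P.H (T k), a, (f k).2])
    induction ht using Finset.Nonempty.cons_induction with
    | singleton k =>
      exact Finset.inf_singleton (f := fun k => (T k).U 2 b₀) ▸ b k (hs (Finset.mem_singleton_self k))
    | cons k t _ ht ih =>
      rw [Finset.inf_cons]
      exact bad_inf P.ne P.one (l k) ((Finset.inf_le ht.choose_spec).trans (l _))
        (b k (hs (Finset.mem_cons_self _ _))) (ih ((Finset.subset_cons _).trans hs))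
  replace h1 := h1 _ hs subset_rfl
  obtain ⟨W, hW⟩ : ∃ W, W = s.inf fun k => (T k).U 2 b₀ := ⟨_, rfl⟩
  have m : ∀ u, u ∈ W ↔ ∀ k ∈ s, u ∈ (T k).U 2 b₀ := fun u => by
    simp only [hW, Submodule.mem_finsetInf]
  rw [← hW] at h1
  have key : ∀ u ∈ W, ∃ c : Fin (finrank ℚ E) → ℂ, (∀ ψ : E →+* ℂ, ∑ l, c l * ψ (finBasis ℚ E l) =
      (u - u none • cst e₀ : _ → ℚ) (some ψ)) ∧ ∀ π : ℂ →ₗ[ℚ] ℚ, ∃ v ∈ s.inf V,
        (v : ℂ) = I * b₀ (∑ l, π (c l) • finBasis ℚ E l) := fun u hu => by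
    have h2 : ∀ k ∈ s, u - u none • cst e₀ ∈ (T k).U 0 b₀ := fun k hk => by
      obtain ⟨a, ha, _, hz, rfl⟩ := Submodule.mem_sup.1 ((T k).U_le.2.2.1 ((m u).1 hu k hk))
      obtain ⟨t, rfl⟩ := Submodule.mem_span_singleton.1 hz
      have : a none = 0 := ((T k).U_le.1 ha).2
      simpa [this, cst, e₀] using ha
    obtain ⟨c, hc, hv⟩ := (T _).key (finBasis ℚ E) (h2 _ hs.choose_spec)
    refine ⟨c, hc, fun π => ?_⟩
    obtain ⟨v, -, e⟩ := hv π
    refine ⟨v, Submodule.mem_finsetInf.2 fun k hk => ?_, e⟩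
    obtain ⟨c', hc', hv'⟩ := (T k).key (finBasis ℚ E) (h2 k hk)
    obtain rfl : c' = c := sub_eq_zero.1 (vec_perp (finBasis ℚ E) fun ψ => by
      simp only [Pi.sub_apply, sub_mul, Finset.sum_sub_distrib, hc, hc', sub_self])
    obtain ⟨v', a, e'⟩ := hv' π
    rw [← e, ofReal_inj] at e'
    exact hV k ▸ e' ▸ a
  refine ⟨fun h0 => ?_, fun k hk a => ?_⟩
  · have a : W ≤ Submodule.span ℚ {cst e₀} := fun u hu => by
      obtain ⟨c, hc, hv⟩ := key u hu
      obtain rfl : c = 0 := funext fun j => (forall_dual_apply_eq_zero_iff ℚ _).1 fun π => by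
        obtain ⟨v, a, e⟩ := hv π
        rw [h0, Submodule.mem_bot] at a
        rw [a, ofReal_zero, eq_comm, mul_eq_zero_iff_left I_ne_zero, map_eq_zero] at e
        exact Fintype.linearIndependent_iff.1 (finBasis ℚ E).linearIndependent _ e j
      refine Submodule.mem_span_singleton.2 ⟨u none, (sub_eq_zero.1 (funext fun o => ?_)).symm⟩
      cases o with
      | none => simp [cst, e₀]
      | some ψ => exact Rat.cast_injective (α := ℂ) ((hc ψ).symm.trans (by simp only [Pi.zero_apply, zero_mul, Finset.sum_const_zero, Rat.cast_zero]))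
    have h2 := (Submodule.finrank_mono a).trans (finrank_span_le_card _)
    have h3 := trdeg_eq (per y W)
    rw [← rk_eq P.ne, show rk y W = 0 by simp at h2; omega, Nat.cast_zero, trdeg_eq_zero_iff] at h3
    have h4 := mem_cl.1 (sub_cl (per y W) ⟨e₀, (m _).2 fun k _ => (f k).1, rfl⟩)
    rw [show mon y e₀ = y none by simp [mon, e₀]] at h4
    exact P.tr (h4.restrictScalars ℚ)
  · have b : W ≤ (T k).U 2 b₀ := fun u hu => by
      obtain ⟨c, hc, hv⟩ := key u hu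
      simpa only [sub_add_cancel] using add_mem ((T k).U_le.2.1 ((T k).key' (finBasis ℚ E) (by simp [cst, e₀]) hc
        fun π => (hv π).imp fun v e => ⟨hV k ▸ hk e.1, e.2⟩)) (Submodule.smul_mem _ (u none) (f k).1)
    have := def_mono P.ne b
    rw [P.H (T k), ← (f k).2, Nat.cast_inj] at a
    omega

open Classical in
theorem per_all : ∃ W : Submodule ℚ ℝ, W ≠ ⊥ ∧ ∀ (g N : ℕ) (A : AbVar g N), 0 < g →
    (∀ X ∈ hull A.J, ∀ Y ∈ hull A.J, X * Y = Y * X) →
      Algebra.trdeg ℚ (perH A) = (finrank ℚ (hull A.J) +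
        if W ≤ Submodule.span ℚ (Set.range fun x : _ × _ => A.J x.1 x.2) then 0 else 1 : ℕ) := by
  let B := {x : Σ p : ℕ × ℕ, AbVar p.1 p.2 // 0 < x.1.1 ∧ Cm x.2.J}
  let V : B → Submodule ℚ ℝ := fun x =>
    Submodule.span ℚ (Set.range fun z : _ × _ => x.1.2.J z.1 z.2)
  let b : B → Prop := fun x =>
    Algebra.trdeg ℚ (perH x.1.2) ≠ (finrank ℚ (hull x.1.2.J) + 1 : ℕ)
  have hV : ∀ x, FiniteDimensional ℚ (V x) := fun x => .span_of_finite ℚ (Set.finite_range _)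
  suffices ∃ W, W ≠ ⊥ ∧ ∀ x, W ≤ V x ↔ b x by
    obtain ⟨W, h0, hW⟩ := this
    refine ⟨W, h0, fun g N A hg h => ?_⟩
    have := hW ⟨⟨(g, N), A⟩, hg, cm_of h⟩
    split_ifs with a
    · exact (per_H A h).resolve_right (this.1 a)
    · exact by_contra fun c => a (this.2 c)
  by_cases hB : ∃ x, b x
  · obtain ⟨x₀, h₀⟩ := hB
    obtain ⟨s, ⟨hs, hb⟩, hm⟩ := (measure fun s : Finset B =>
      finrank ℚ (s.inf V : Submodule ℚ ℝ)).wf.has_min {s | s.Nonempty ∧ ∀ x ∈ s, b x}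
        ⟨{x₀}, Finset.singleton_nonempty _, by simpa using h₀⟩
    have key := fun x : B => bad_fin (κ := (insert x s : Finset B)) (fun k => k.1.1.2)
      (fun k => k.1.2.1) (fun k => k.1.2.2) (V := fun k => V k.1) (fun _ => rfl)
      (s := s.subtype _) (hs.elim fun z hz => ⟨⟨z, Finset.mem_insert_of_mem hz⟩, by simpa using hz⟩)
      fun k hk => hb _ (Finset.mem_subtype.1 hk)
    have e : ∀ x : B, ((s.subtype (· ∈ insert x s)).inf fun k => V k.1) = s.inf V := fun x =>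
      (Finset.inf_map _ (Function.Embedding.subtype _) V).symm.trans
        (by rw [Finset.subtype_map_of_mem fun _ => Finset.mem_insert_of_mem])
    simp only [e] at key
    refine ⟨s.inf V, (key x₀).1, fun x => ⟨(key x).2 ⟨x, Finset.mem_insert_self _ _⟩, fun hx => ?_⟩⟩
    have : FiniteDimensional ℚ (s.inf V : Submodule ℚ ℝ) :=
      Submodule.finiteDimensional_of_le (Finset.inf_le hs.choose_spec)
    exact (Submodule.eq_of_le_of_finrank_le (Finset.inf_mono (Finset.subset_insert x s))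
      (not_lt.1 (hm _ ⟨Finset.insert_nonempty x s, Finset.forall_mem_insert _ _ _ |>.2 ⟨hx, hb⟩⟩))).ge.trans
        (Finset.inf_le (Finset.mem_insert_self x s))
  · refine ⟨⊤, top_ne_bot, fun x => iff_of_false (fun a => ?_) fun a => hB ⟨x, a⟩⟩
    have := Module.finite_def.2 (top_unique a ▸ Module.Finite.iff_fg.1 (hV x))
    exact Pool.Agent.Lib.PiTransc.transcendental_pi (Algebra.IsAlgebraic.isAlgebraic _)

end GPC72
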